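import Pool.Agent.ZFR.Cnt

/-! # Counting isolated points, end -/

namespace Pool.Agent.ZFR

open MvPolynomial

noncomputable section

variable {k : Type*} [Field k] {n : ℕ}

theorem finrank_le (d : ℕ) (H : Fin n → MvPolynomial (Fin n) k) (hd : ∀ i, (H i).totalDegree ≤ d) :
    Module.Finite (LT k) (MvPolynomial (Fin n) (LT k) ⧸ IL d H) ∧
    Module.finrank (LT k) (MvPolynomial (Fin n) (LT k) ⧸ IL d H) ≤ (d + 1) ^ n := by
  classical
  have h1 : Submodule.span (LT k) (Set.range fun m : Fin n → Fin (d + 1) =>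
      Ideal.Quotient.mk (IL d H) (∏ i, X i ^ (m i : ℕ))) = ⊤ := by
    rw [eq_top_iff]
    rintro x -
    obtain ⟨P, rfl⟩ := Ideal.Quotient.mk_surjective x
    exact span_reduced d H hd P
  refine ⟨⟨⟨Finset.univ.image (fun m : Fin n → Fin (d + 1) =>
      Ideal.Quotient.mk (IL d H) (∏ i, X i ^ (m i : ℕ))), ?_⟩⟩, ?_⟩
  · rw [Finset.coe_image, Finset.coe_univ, Set.image_univ]
    exact h1
  · have h2 := finrank_range_le_card (R := LT k) (fun m : Fin n → Fin (d + 1) =>
      Ideal.Quotient.mk (IL d H) (∏ i, X i ^ (m i : ℕ)))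
    rw [Set.finrank, h1, finrank_top] at h2
    refine h2.trans ?_
    rw [Fintype.card_fun, Fintype.card_fin, Fintype.card_fin]

attribute [local instance] MvPolynomial.algebraMvPolynomial

theorem mem_IL {d : ℕ} {H : Fin n → MvPolynomial (Fin n) k} {F : ST k n} (hF : jo F ∈ IL d H) :
    ∃ s : Polynomial k, s ≠ 0 ∧ C s * F ∈ Ideal.span (Set.range (gd d H)) := by
  have h1 : algebraMap (ST k n) (MvPolynomial (Fin n) (LT k)) F ∈
      (Ideal.span (Set.range (gd d H))).map
        (algebraMap (ST k n) (MvPolynomial (Fin n) (LT k))) := hF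
  rw [IsLocalization.algebraMap_mem_map_algebraMap_iff
    ((nonZeroDivisors (Polynomial k)).map (C (σ := Fin n)))] at h1
  obtain ⟨m, hm, h2⟩ := h1
  obtain ⟨s, hs, rfl⟩ := hm
  exact ⟨s, nonZeroDivisors.ne_zero hs, h2⟩

/-- a relation of small degree, with a coefficient that does not vanish at `T = 0` -/
theorem exists_rel (d : ℕ) (H : Fin n → MvPolynomial (Fin n) k) (hd : ∀ i, (H i).totalDegree ≤ d)
    (h0 : MvPolynomial (Fin n) k) :
    ∃ (μ : Fin ((d + 1) ^ n + 1) → Polynomial k) (s : Polynomial k), s ≠ 0 ∧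
      (∃ j, (μ j).eval 0 ≠ 0) ∧
      C s * (∑ j, C (μ j) * io h0 ^ (j : ℕ)) ∈ Ideal.span (Set.range (gd d H)) := by
  classical
  -- the set of relations
  let P : ℕ → Prop := fun D => ∃ (μ : Fin ((d + 1) ^ n + 1) → Polynomial k) (s : Polynomial k),
    s ≠ 0 ∧ (∃ j, μ j ≠ 0) ∧ ∑ j, (μ j).natDegree = D ∧
      C s * (∑ j, C (μ j) * io h0 ^ (j : ℕ)) ∈ Ideal.span (Set.range (gd d H))
  have hex : ∃ D, P D := by
    obtain ⟨hfin, hfr⟩ := finrank_le d H hd
    have hdep : ¬ LinearIndependent (LT k) (fun j : Fin ((d + 1) ^ n + 1) =>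
        (Ideal.Quotient.mk (IL d H) (jo (io h0))) ^ (j : ℕ)) := by
      intro hli
      have := hli.fintype_card_le_finrank
      rw [Fintype.card_fin] at this
      omega
    rw [Fintype.not_linearIndependent_iff] at hdep
    obtain ⟨g, hg, j0, hj0⟩ := hdep
    obtain ⟨b, hb⟩ := IsLocalization.exist_integer_multiples_of_finite
      (nonZeroDivisors (Polynomial k)) g
    choose μ hμ using hb
    have hb0 : algebraMap (Polynomial k) (LT k) (b : Polynomial k) ≠ 0 := by
      rw [Ne, map_eq_zero_iff _ (IsFractionRing.injective _ _)]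
      exact nonZeroDivisors.ne_zero b.2
    have hμ' : ∀ j, algebraMap (Polynomial k) (LT k) (μ j) =
        algebraMap (Polynomial k) (LT k) b * g j := by
      intro j
      have := hμ j
      rw [Algebra.smul_def] at this
      exact this
    have hμ0 : μ j0 ≠ 0 := by
      intro h
      have := hμ' j0
      rw [h, map_zero] at this
      exact (mul_ne_zero hb0 hj0) this.symm
    have hF : jo (∑ j, C (μ j) * io h0 ^ (j : ℕ)) ∈ IL d H := by
      rw [← Ideal.Quotient.eq_zero_iff_mem, map_sum, map_sum]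
      have h1 : ∀ j, Ideal.Quotient.mk (IL d H) (jo (C (μ j) * io h0 ^ (j : ℕ))) =
          algebraMap (Polynomial k) (LT k) b •
            (g j • (Ideal.Quotient.mk (IL d H) (jo (io h0))) ^ (j : ℕ)) := by
        intro j
        have h2 : jo (C (μ j) : ST k n) = C (algebraMap (Polynomial k) (LT k) (μ j)) := by
          rw [jo, map_C]
        rw [smul_smul, ← hμ' j, map_mul jo, map_pow jo, h2, ← smul_eq_C_mul,
          ← Ideal.Quotient.mkₐ_eq_mk (LT k), map_smul, map_pow]
      simp only [h1]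
      rw [← Finset.smul_sum, hg, smul_zero]
    obtain ⟨s, hs, hsF⟩ := mem_IL hF
    exact ⟨_, μ, s, hs, ⟨j0, hμ0⟩, rfl, hsF⟩
  obtain ⟨μ, s, hs, ⟨j0, hj0⟩, hsum, hrel⟩ := Nat.find_spec hex
  refine ⟨μ, s, hs, ?_, hrel⟩
  by_contra hcon
  push Not at hcon
  -- all divisible by `T`
  have hdiv : ∀ j, Polynomial.X ∣ μ j := by
    intro j
    rw [Polynomial.X_dvd_iff, Polynomial.coeff_zero_eq_eval_zero]
    exact hcon j
  choose ν hν using hdiv
  have hν0 : ν j0 ≠ 0 := by
    intro h
    rw [hν j0, h, mul_zero] at hj0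
    exact hj0 rfl
  have hP : P (∑ j, (ν j).natDegree) := by
    refine ⟨ν, s * Polynomial.X, mul_ne_zero hs Polynomial.X_ne_zero, ⟨j0, hν0⟩, rfl, ?_⟩
    have h1 : C (s * Polynomial.X) * (∑ j, C (ν j) * io h0 ^ (j : ℕ)) =
        C s * (∑ j, C (μ j) * io h0 ^ (j : ℕ)) := by
      rw [map_mul, mul_assoc, Finset.mul_sum]
      congr 1
      apply Finset.sum_congr rfl
      intro j _
      rw [hν j, map_mul, mul_assoc]
    rw [h1]
    exact hrel
  have h2 := Nat.find_min' hex hP
  rw [← hsum] at h2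
  have h3 : ∑ j, (ν j).natDegree < ∑ j, (μ j).natDegree := by
    apply Finset.sum_lt_sum
    · intro j _
      by_cases h : ν j = 0
      · rw [h]; simp
      · rw [hν j, Polynomial.natDegree_X_mul h]; omega
    · refine ⟨j0, Finset.mem_univ _, ?_⟩
      rw [hν j0, Polynomial.natDegree_X_mul hν0]
      omega
  omega

/-- the number of isolated points -/
theorem count_aux [Infinite k] (d : ℕ) (H : Fin n → MvPolynomial (Fin n) k)
    (hd : ∀ i, (H i).totalDegree ≤ d) (S : Finset (Fin n → k)) (hS : ∀ c ∈ S, ∀ i, eval c (H i) = 0)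
    (hiso : ∀ c ∈ S, Isolates (Set.range H) c) : S.card ≤ (d + 1) ^ n := by
  classical
  -- a function separating the points
  let f : (Fin n → k) → k := fun c =>
    if h : c ∈ S then Infinite.natEmbedding k (S.equivFin ⟨c, h⟩) else 0
  have hf : Set.InjOn f S := by
    intro c hc c' hc' h
    simp only [f] at h
    rw [dif_pos (Finset.mem_coe.1 hc), dif_pos (Finset.mem_coe.1 hc')] at h
    have h1 := (Infinite.natEmbedding k).injective h
    have h2 := S.equivFin.injective (Fin.ext h1)
    exact congrArg Subtype.val h2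
  obtain ⟨h0, hh0⟩ := interp S f
  obtain ⟨μ, s, hs, ⟨j0, hj0⟩, hrel⟩ := exists_rel d H hd h0
  let p : Polynomial k := ∑ j : Fin ((d + 1) ^ n + 1), Polynomial.C ((μ j).eval 0) *
    Polynomial.X ^ (j : ℕ)
  have hp0 : p ≠ 0 := by
    intro h
    have h1 : p.coeff (j0 : ℕ) = (μ j0).eval 0 := by
      simp only [p, Polynomial.finsetSum_coeff, Polynomial.coeff_C_mul, Polynomial.coeff_X_pow]
      rw [Finset.sum_eq_single j0]
      · simp
      · intro j _ hj
        rw [if_neg, mul_zero]
        intro h2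
        exact hj (Fin.ext h2.symm)
      · simp
    rw [h, Polynomial.coeff_zero] at h1
    exact hj0 h1.symm
  have hpdeg : p.natDegree ≤ (d + 1) ^ n := by
    apply Polynomial.natDegree_sum_le_of_forall_le
    intro j _
    refine (Polynomial.natDegree_C_mul_X_pow_le _ _).trans ?_
    have := j.2
    omega
  have hroot : ∀ c ∈ S, f c ∈ p.roots := by
    intro c hc
    rw [Polynomial.mem_roots hp0, Polynomial.IsRoot.def]
    obtain ⟨q, hqp, hq1, hq2, hq3⟩ := exists_lift d H c (hS c hc) (hiso c hc)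
    have h1 := hq1 hrel
    have h2 := (hqp.mem_or_mem h1).resolve_left (hq3 s hs)
    have h3 := mem_pt0.1 (hq2 h2)
    rw [map_sum] at h3
    simp only [map_mul, map_pow, ev0_io, hh0 c hc] at h3
    simp only [p, Polynomial.eval_finsetSum, Polynomial.eval_mul, Polynomial.eval_C,
      Polynomial.eval_pow, Polynomial.eval_X]
    refine Eq.trans ?_ h3
    apply Finset.sum_congr rfl
    intro j _
    congr 1
    simp [ev0]
  have h4 : (S.image f).card = S.card := Finset.card_image_of_injOn hf
  rw [← h4]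
  have h5 : S.image f ⊆ p.roots.toFinset := by
    intro x hx
    obtain ⟨c, hc, rfl⟩ := Finset.mem_image.1 hx
    exact Multiset.mem_toFinset.2 (hroot c hc)
  calc (S.image f).card ≤ p.roots.toFinset.card := Finset.card_le_card h5
    _ ≤ Multiset.card p.roots := Multiset.toFinset_card_le _
    _ ≤ p.natDegree := p.card_roots'
    _ ≤ (d + 1) ^ n := hpdeg

/-- **Bezout type bound**: polynomials of degree `≤ d` in `n` variables have at most `(d+1)^n` isolated
common zeros -/
theorem count [Infinite k] (d : ℕ) (W : Submodule k (MvPolynomial (Fin n) k))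
    (hd : ∀ H ∈ W, H.totalDegree ≤ d) (S : Finset (Fin n → k))
    (hS : ∀ c ∈ S, ∀ H ∈ W, eval c H = 0)
    (hiso : ∀ c ∈ S, Isolates (W : Set (MvPolynomial (Fin n) k)) c) : S.card ≤ (d + 1) ^ n := by
  classical
  obtain ⟨h, hcard, hW, hh⟩ := generic W S hiso
  let H : Fin n → MvPolynomial (Fin n) k := fun i => h.toList.getD i 0
  have hHW : ∀ i, H i ∈ W := by
    intro i
    simp only [H]
    by_cases hi : (i : ℕ) < h.toList.length
    · rw [List.getD_eq_getElem _ _ hi]
      exact hW (Finset.mem_toList.1 (List.getElem_mem hi))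
    · rw [List.getD_eq_default _ _ (by omega)]
      exact W.zero_mem
  have hsub : (h : Set (MvPolynomial (Fin n) k)) ⊆ Set.range H := by
    intro x hx
    obtain ⟨i, hi, hix⟩ := List.getElem_of_mem (Finset.mem_toList.2 hx)
    rw [Finset.length_toList] at hi
    refine ⟨⟨i, by omega⟩, ?_⟩
    simp only [H]
    rw [List.getD_eq_getElem _ _ (by rw [Finset.length_toList]; exact hi), hix]
  refine count_aux d H (fun i => hd _ (hHW i)) S (fun c hc i => hS c hc _ (hHW i)) ?_
  intro c hc q hq hHq hqc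
  exact hh c hc q hq (hsub.trans hHq) hqc

end

end Pool.Agent.ZFR
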