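import Pool.Agent.ZFR.Isol
import Pool.Agent.ZFR.Count

/-! # The algebraic core -/

namespace Pool.Agent.ZFR

open MvPolynomial

noncomputable section

variable {k F : Type*} [Field k] [Field F] [Algebra k F]

/-- **The algebraic core.** Let `Λ ⊆ F × F` be a `k`-subspace of dimension `n`. At most `7 ^ n` elements
`(a, b) ∈ Λ` satisfy `(a D b - b D a)² = 4 a³ (b - e₁ a)(b - e₂ a)(b - e₃ a) ≠ 0`. -/
theorem core_count [CharZero k] [IsAlgClosed k] (D : F →ₗ[k] F) (e1 e2 e3 : k) (h12 : e1 ≠ e2)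
    (h13 : e1 ≠ e3) (h23 : e2 ≠ e3) (Λ : Submodule k (F × F)) [FiniteDimensional k Λ]
    (S : Finset (F × F)) (hSΛ : ∀ p ∈ S, p ∈ Λ)
    (hS1 : ∀ p ∈ S, (p.1 * D p.2 - p.2 * D p.1) ^ 2 = 4 * (p.1 ^ 3 *
      ((p.2 - algebraMap k F e1 * p.1) * (p.2 - algebraMap k F e2 * p.1) *
        (p.2 - algebraMap k F e3 * p.1))))
    (hS2 : ∀ p ∈ S, p.1 * D p.2 - p.2 * D p.1 ≠ 0) : S.card ≤ 7 ^ Module.finrank k Λ := by
  classical
  set n := Module.finrank k Λ with hn
  let bΛ : Module.Basis (Fin n) k Λ := Module.finBasis k Λ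
  let a : Fin n → F := fun i => (bΛ i).1.1
  let b : Fin n → F := fun i => (bΛ i).1.2
  have hli : LinearIndependent k (fun i => ((a i, b i) : F × F)) := by
    have h1 := bΛ.linearIndependent.map' Λ.subtype (Submodule.ker_subtype Λ)
    exact h1
  -- coordinates
  let cc : F × F → (Fin n → k) := fun p => if h : p ∈ Λ then bΛ.repr ⟨p, h⟩ else 0
  have hcc : ∀ p ∈ Λ, ∑ i, cc p i • ((a i, b i) : F × F) = p := by
    intro p hp
    have h1 := bΛ.sum_repr ⟨p, hp⟩
    have h2 := congrArg Subtype.val h1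
    simp only [Submodule.coe_sum, Submodule.coe_smul] at h2
    simp only [cc, dif_pos hp]
    exact h2
  have hcc1 : ∀ p ∈ Λ, ∑ i, cc p i • a i = p.1 := by
    intro p hp
    have := congrArg Prod.fst (hcc p hp)
    simpa [Prod.fst_sum] using this
  have hcc2 : ∀ p ∈ Λ, ∑ i, cc p i • b i = p.2 := by
    intro p hp
    have := congrArg Prod.snd (hcc p hp)
    simpa [Prod.snd_sum] using this
  have hinj : Set.InjOn cc S := by
    intro p hp q hq h
    rw [← hcc p (hSΛ p hp), ← hcc q (hSΛ q hq), h]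
  let W : Submodule k (MvPolynomial (Fin n) k) :=
    Submodule.span k (Set.range fun l : F →ₗ[k] k => cf l (GP D e1 e2 e3 a b))
  have hWdeg : ∀ H ∈ W, H.totalDegree ≤ 6 := by
    have h1 : W ≤ restrictTotalDegree (Fin n) k 6 := by
      rw [Submodule.span_le]
      rintro _ ⟨l, rfl⟩
      rw [SetLike.mem_coe, mem_restrictTotalDegree]
      exact (totalDegree_cf_le l _).trans (GP_deg D e1 e2 e3 a b)
    intro H hH
    exact (mem_restrictTotalDegree _ _ _).1 (h1 hH)
  -- values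
  have hNP : ∀ p ∈ Λ, eval (fun i => algebraMap k F (cc p i)) (NP D a b) =
      p.1 * D p.2 - p.2 * D p.1 := by
    intro p hp
    unfold NP
    rw [map_sub, map_mul, map_mul, eval_LF_D, eval_LF_D, eval_LF, eval_LF, hcc1 p hp, hcc2 p hp]
  have hGP : ∀ p ∈ S, eval (fun i => algebraMap k F (cc p i)) (GP D e1 e2 e3 a b) = 0 := by
    intro p hp
    unfold GP
    rw [map_sub, map_pow, hNP p (hSΛ p hp), map_mul, map_mul, map_pow, map_mul, map_mul, map_sub,
      map_sub, map_sub, map_mul, map_mul, map_mul, eval_LF, eval_LF, eval_C, eval_C, eval_C, eval_C,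
      hcc1 p (hSΛ p hp), hcc2 p (hSΛ p hp), hS1 p hp, sub_self]
  have h3 := count 6 W hWdeg (S.image cc) (by
    intro c hc H hH
    obtain ⟨p, hp, rfl⟩ := Finset.mem_image.1 hc
    refine Submodule.span_induction (p := fun H _ => eval (cc p) H = 0) ?_ ?_ ?_ ?_ hH
    · rintro _ ⟨l, rfl⟩
      rw [eval_cf, hGP p hp, map_zero]
    · exact map_zero _
    · intro x y _ _ hx hy
      rw [map_add, hx, hy, add_zero]
    · intro t x _ hx
      rw [smul_eval, hx, mul_zero]) (by
    intro c hc q hq hWq hqc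
    obtain ⟨p, hp, rfl⟩ := Finset.mem_image.1 hc
    apply le_antisymm hqc
    intro P hP
    refine isol D e1 e2 e3 h12 h13 h23 a b hli (cc p) ?_ q ?_ (fun Q hQ => hqc hQ) P hP
    · rw [hNP p (hSΛ p hp)]
      exact hS2 p hp
    · intro l
      exact hWq (Submodule.subset_span ⟨l, rfl⟩))
  rw [Finset.card_image_of_injOn hinj] at h3
  exact h3

end

end Pool.Agent.ZFR
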