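import Mathlib

/-! # Derivations of a field that do not vanish at given transcendental elements -/

namespace Pool.Agent.ZFR

open MvPolynomial KaehlerDifferential TensorProduct

noncomputable section

variable {k F : Type*} [Field k] [Field F] [Algebra k F]

/-- extension of derivations along formally étale algebras -/
theorem exists_ext (k P F : Type*) [CommRing k] [CommRing P] [CommRing F] [Algebra k P] [Algebra k F]
    [Algebra P F] [IsScalarTower k P F] [Algebra.FormallyEtale P F] (d : Derivation k P F) :
    ∃ D : Derivation k F F, ∀ s : P, D (algebraMap P F s) = d s := by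
  let l : Ω[P⁄k] →ₗ[P] F := d.liftKaehlerDifferential
  let l' : F ⊗[P] Ω[P⁄k] →ₗ[F] F := LinearMap.liftBaseChange F l
  let φ : Ω[F⁄k] →ₗ[F] F := l' ∘ₗ (tensorKaehlerEquivOfFormallyEtale k P F).symm.toLinearMap
  refine ⟨φ.compDer (KaehlerDifferential.D k F), fun s => ?_⟩
  change l' ((tensorKaehlerEquivOfFormallyEtale k P F).symm (KaehlerDifferential.D k F
    (algebraMap P F s))) = d s
  rw [tensorKaehlerEquivOfFormallyEtale_symm_D_algebraMap, LinearMap.liftBaseChange_tmul, one_smul,
    Derivation.liftKaehlerDifferential_comp_D]

theorem exists_derivation_one [CharZero k] {x : F} (hx : Transcendental k x) :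
    ∃ D : Derivation k F F, D x ≠ 0 := by
  classical
  have hx1 : AlgebraicIndepOn k _root_.id ({x} : Set F) := by
    have h1 := (algebraicIndependent_unique_type_iff (R := k)
      (x := fun i : ({x} : Set F) => (i : F))).2 (by
        have : ((default : ({x} : Set F)) : F) = x := (default : ({x} : Set F)).2
        rw [this]
        exact hx)
    exact h1
  obtain ⟨t, hxt, ht⟩ := exists_isTranscendenceBasis_superset hx1
  let P := MvPolynomial t k
  let _ : Algebra P F := (aeval (R := k) (fun i : t => (i : F))).toRingHom.toAlgebra
  have _ : IsScalarTower k P F := IsScalarTower.of_algebraMap_eq fun c => by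
    change algebraMap k F c = aeval (R := k) (fun i : t => (i : F)) (algebraMap k P c)
    rw [AlgHom.commutes]
  have hinj : Function.Injective (algebraMap P F) := ht.1
  have _ : FaithfulSMul P F := (faithfulSMul_iff_algebraMap_injective P F).2 hinj
  have halgP : Algebra.IsAlgebraic P F := by
    have h1 := ht.isAlgebraic
    constructor
    intro a
    refine IsAlgebraic.of_ringHom_of_comp_eq (S := Algebra.adjoin k (Set.range fun i : t => (i : F)))
      (B := F) (ht.1.aevalEquiv : P →+* _) (RingHom.id F) (a := a) (h1.1 a) ?_ ?_ ?_
    · exact (ht.1.aevalEquiv).surjective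
    · exact fun _ _ h => h
    · ext c
      · simp only [RingHom.comp_apply, RingHom.id_apply]
        change _ = aeval (R := k) (fun i : t => (i : F)) (C c)
        simp
      · simp only [RingHom.comp_apply, RingHom.id_apply]
        change _ = aeval (R := k) (fun i : t => (i : F)) (X c)
        simp
  let Fr := FractionRing P
  let _ : Algebra Fr F := FractionRing.liftAlgebra P F
  have _ : IsScalarTower P Fr F := FractionRing.isScalarTower_liftAlgebra P F
  have _ : Algebra.IsAlgebraic Fr F := (IsFractionRing.comap_isAlgebraic_iff (A := P) (K := Fr)).1 halgP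
  have _ : CharZero Fr := charZero_of_injective_algebraMap (R := k) (A := Fr) (by
    exact (algebraMap k Fr).injective)
  have _ : Algebra.FormallyEtale Fr F := Algebra.FormallyEtale.of_isSeparable Fr F
  have _ : Algebra.FormallyEtale P Fr := Algebra.FormallyEtale.of_isLocalization (nonZeroDivisors P)
  have _ : Algebra.FormallyEtale P F := Algebra.FormallyEtale.comp P Fr F
  let d : Derivation k P F := mkDerivation k fun _ => (1 : F)
  obtain ⟨D, hD⟩ := exists_ext k P F d
  refine ⟨D, ?_⟩
  have h1 : algebraMap P F (X ⟨x, hxt (Set.mem_singleton x)⟩) = x := by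
    change aeval (R := k) (fun i : t => (i : F)) _ = x
    rw [aeval_X]
  rw [← h1, hD, mkDerivation_X]
  exact one_ne_zero

/-- one derivation for finitely many transcendental elements -/
theorem exists_derivation [CharZero k] (S : Finset F) (hS : ∀ x ∈ S, Transcendental k x) :
    ∃ D : Derivation k F F, ∀ x ∈ S, D x ≠ 0 := by
  classical
  have : Infinite F := by
    have := charZero_of_injective_algebraMap (algebraMap k F).injective
    infer_instance
  let sub : F → Subspace F (Derivation k F F) := fun x =>
    { carrier := {D | D x = 0}
      add_mem' := fun {a b} ha hb => by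
        simp only [Set.mem_ofPred_eq, Derivation.add_apply] at ha hb ⊢
        rw [ha, hb, add_zero]
      zero_mem' := rfl
      smul_mem' := fun c a ha => by
        simp only [Set.mem_ofPred_eq, Derivation.smul_apply] at ha ⊢
        rw [ha, smul_zero] }
  have h1 : (⊤ : Subspace F (Derivation k F F)) ∉ S.image sub := by
    intro h
    obtain ⟨x, hx, hx'⟩ := Finset.mem_image.1 h
    obtain ⟨D, hD⟩ := exists_derivation_one (hS x hx)
    apply hD
    have h2 : D ∈ sub x := by rw [hx']; trivial
    exact h2
  have h2 := Subspace.biUnion_ne_univ_of_top_notMem h1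
  obtain ⟨D, hD⟩ := (Set.ne_univ_iff_exists_notMem _).1 h2
  refine ⟨D, fun x hx h => hD ?_⟩
  rw [Set.mem_iUnion₂]
  exact ⟨sub x, Finset.mem_image_of_mem _ hx, h⟩

end

end Pool.Agent.ZFR
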