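import Pool.Agent.ZFR.Ell
import Pool.Agent.ZFR.Deriv
import Pool.Agent.ZFR.Core

/-! # Assembly: at most `7 ^ dim V` points of `V` with algebraic `ζ` -/

namespace Pool.Agent.ZFR
open Pool.Agent.ZCM Pool.Agent.ZFin
open Filter Topology

theorem alg_root {a b x : ℂ} (ha : IsAlgebraic ℚ a) (hb : IsAlgebraic ℚ b)
    (h : x ^ 3 + a * x + b = 0) : IsAlgebraic ℚ x := by
  have haI : IsIntegral ℚ a := ha.isIntegral
  have hbI : IsIntegral ℚ b := hb.isIntegral
  let A : integralClosure ℚ ℂ := ⟨a, haI⟩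
  let B : integralClosure ℚ ℂ := ⟨b, hbI⟩
  have hxI : IsIntegral (integralClosure ℚ ℂ) x := by
    refine ⟨Polynomial.X ^ 3 + Polynomial.C A * Polynomial.X + Polynomial.C B, ?_, ?_⟩
    · monicity!
    · simp only [Polynomial.eval₂_add, Polynomial.eval₂_mul, Polynomial.eval₂_pow,
        Polynomial.eval₂_X, Polynomial.eval₂_C]
      exact h
  exact (isIntegral_trans x hxI).isAlgebraic

/-- `℘` is algebraic at half periods -/
theorem P_half_alg (L : PeriodPair) (a b : ℂ) (ha : IsAlgebraic ℚ a) (hb : IsAlgebraic ℚ b)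
    (h2 : L.g₂ = -4 * a) (h3 : L.g₃ = -4 * b) (z : ℂ) (hz : z ∉ L.lattice)
    (hz2 : 2 * z ∈ L.lattice) : IsAlgebraic ℚ (L.weierstrassP z) := by
  have h := add_curve L a b h2 h3 z hz
  rw [half_period L z hz2] at h
  exact alg_root ha hb (by rw [← h]; ring)

/-- the three roots -/
theorem roots (L : PeriodPair) (a b : ℂ) (ha : IsAlgebraic ℚ a) (hb : IsAlgebraic ℚ b)
    (h2 : L.g₂ = -4 * a) (h3 : L.g₃ = -4 * b) : ∃ e1 e2 e3 : ℂ,
    e1 ≠ e2 ∧ e1 ≠ e3 ∧ e2 ≠ e3 ∧ IsAlgebraic ℚ e1 ∧ IsAlgebraic ℚ e2 ∧ IsAlgebraic ℚ e3 ∧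
    ∀ x : ℂ, x ^ 3 + a * x + b = (x - e1) * (x - e2) * (x - e3) := by
  have hmem : ∀ m n : ℤ, (m : ℂ) * L.ω₁ + (n : ℂ) * L.ω₂ ∈ L.lattice := fun m n =>
    (PeriodPair.mem_lattice (L := L)).2 ⟨m, n, rfl⟩
  have hnot : ∀ m n : ℤ, (¬ (2 ∣ m) ∨ ¬ (2 ∣ n)) →
      ((m : ℂ) * L.ω₁ + (n : ℂ) * L.ω₂) / 2 ∉ L.lattice := by
    intro m n hmn h
    obtain ⟨m', n', h'⟩ := (PeriodPair.mem_lattice (L := L)).1 h
    have h5 : ((m - 2 * m' : ℤ) : ℂ) * L.ω₁ + ((n - 2 * n' : ℤ) : ℂ) * L.ω₂ = 0 := by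
      push_cast
      linear_combination (-2) * h'
    have h6 := LinearIndependent.pair_iff.1 L.indep ((m - 2 * m' : ℤ) : ℝ) ((n - 2 * n' : ℤ) : ℝ)
      (by
        rw [Complex.real_smul, Complex.real_smul]
        exact_mod_cast h5)
    have h7 : m = 2 * m' := by
      have := h6.1
      have : (m - 2 * m' : ℤ) = 0 := by exact_mod_cast this
      omega
    have h8 : n = 2 * n' := by
      have := h6.2
      have : (n - 2 * n' : ℤ) = 0 := by exact_mod_cast this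
      omega
    rcases hmn with h | h
    · exact h ⟨m', h7⟩
    · exact h ⟨n', h8⟩
  -- the value at `(m ω₁ + n ω₂) / 2`
  have hval : ∀ m n : ℤ, (¬ (2 ∣ m) ∨ ¬ (2 ∣ n)) →
      (L.weierstrassP (((m : ℂ) * L.ω₁ + (n : ℂ) * L.ω₂) / 2)) ^ 3 +
        a * L.weierstrassP (((m : ℂ) * L.ω₁ + (n : ℂ) * L.ω₂) / 2) + b = 0 := by
    intro m n hmn
    have h := add_curve L a b h2 h3 _ (hnot m n hmn)
    rw [half_period L (((m : ℂ) * L.ω₁ + (n : ℂ) * L.ω₂) / 2) (by
      have e : 2 * (((m : ℂ) * L.ω₁ + (n : ℂ) * L.ω₂) / 2) = (m : ℂ) * L.ω₁ + (n : ℂ) * L.ω₂ := by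
        ring
      rw [e]
      exact hmem m n)] at h
    rw [← h]
    ring
  have hne : ∀ m n m' n' : ℤ, (¬ (2 ∣ m) ∨ ¬ (2 ∣ n)) → (¬ (2 ∣ m') ∨ ¬ (2 ∣ n')) →
      (¬ (2 ∣ m - m') ∨ ¬ (2 ∣ n - n')) →
      L.weierstrassP (((m : ℂ) * L.ω₁ + (n : ℂ) * L.ω₂) / 2) ≠
      L.weierstrassP (((m' : ℂ) * L.ω₁ + (n' : ℂ) * L.ω₂) / 2) := by
    intro m n m' n' hmn hmn' hd h
    rcases same_P L a b h2 h3 _ _ (hnot m n hmn) (hnot m' n' hmn') h with h | h
    · apply hnot (m - m') (n - n') hd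
      have e : ((m : ℂ) * L.ω₁ + (n : ℂ) * L.ω₂) / 2 - ((m' : ℂ) * L.ω₁ + (n' : ℂ) * L.ω₂) / 2 =
          (((m - m' : ℤ) : ℂ) * L.ω₁ + ((n - n' : ℤ) : ℂ) * L.ω₂) / 2 := by
        push_cast
        ring
      rw [← e]
      exact h
    · apply hnot (m + m') (n + n') (by
        rcases hd with hd | hd
        · left; omega
        · right; omega)
      have e : ((m : ℂ) * L.ω₁ + (n : ℂ) * L.ω₂) / 2 + ((m' : ℂ) * L.ω₁ + (n' : ℂ) * L.ω₂) / 2 =
          (((m + m' : ℤ) : ℂ) * L.ω₁ + ((n + n' : ℤ) : ℂ) * L.ω₂) / 2 := by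
        push_cast
        ring
      rw [← e]
      exact h
  obtain ⟨e1, he1⟩ : ∃ e, e = L.weierstrassP ((((1 : ℤ) : ℂ) * L.ω₁ + ((0 : ℤ) : ℂ) * L.ω₂) / 2) :=
    ⟨_, rfl⟩
  obtain ⟨e2, he2⟩ : ∃ e, e = L.weierstrassP ((((0 : ℤ) : ℂ) * L.ω₁ + ((1 : ℤ) : ℂ) * L.ω₂) / 2) :=
    ⟨_, rfl⟩
  obtain ⟨e3, he3⟩ : ∃ e, e = L.weierstrassP ((((1 : ℤ) : ℂ) * L.ω₁ + ((1 : ℤ) : ℂ) * L.ω₂) / 2) :=
    ⟨_, rfl⟩
  have v1 : e1 ^ 3 + a * e1 + b = 0 := by rw [he1]; exact hval 1 0 (by omega)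
  have v2 : e2 ^ 3 + a * e2 + b = 0 := by rw [he2]; exact hval 0 1 (by omega)
  have v3 : e3 ^ 3 + a * e3 + b = 0 := by rw [he3]; exact hval 1 1 (by omega)
  have n12 : e1 ≠ e2 := by
    rw [he1, he2]; exact hne 1 0 0 1 (by omega) (by omega) (by omega)
  have n13 : e1 ≠ e3 := by
    rw [he1, he3]; exact hne 1 0 1 1 (by omega) (by omega) (by omega)
  have n23 : e2 ≠ e3 := by
    rw [he2, he3]; exact hne 0 1 1 1 (by omega) (by omega) (by omega)
  refine ⟨e1, e2, e3, n12, n13, n23, alg_root ha hb v1, alg_root ha hb v2, alg_root ha hb v3, ?_⟩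
  have d12 : e1 ^ 2 + e1 * e2 + e2 ^ 2 + a = 0 := by
    apply mul_left_cancel₀ (sub_ne_zero.2 n12)
    linear_combination v1 - v2
  have d13 : e1 ^ 2 + e1 * e3 + e3 ^ 2 + a = 0 := by
    apply mul_left_cancel₀ (sub_ne_zero.2 n13)
    linear_combination v1 - v3
  have s : e1 + e2 + e3 = 0 := by
    apply mul_left_cancel₀ (sub_ne_zero.2 n23)
    linear_combination d12 - d13
  intro x
  have e3' : e3 = -e1 - e2 := by linear_combination s
  have ea : a = -(e1 ^ 2 + e1 * e2 + e2 ^ 2) := by linear_combination d12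
  have eb : b = -e1 ^ 3 - a * e1 := by linear_combination v1
  rw [eb, ea, e3']
  ring

/-- quasi-periods are transcendental (Schneider), given Schneider's theorem on `℘`, `ζ` -/
theorem Asm_eta (L : PeriodPair) (a b : ℂ) (ha : IsAlgebraic ℚ a) (hb : IsAlgebraic ℚ b)
    (h2 : L.g₂ = -4 * a) (h3 : L.g₃ = -4 * b)
    (hS : ∀ p, p ∉ L.lattice → IsAlgebraic ℚ (L.weierstrassP p) → ¬ IsAlgebraic ℚ (zetaL L p))
    (z z' : ℂ) (hz' : z' ∉ L.lattice) (hd : z - z' ∈ L.lattice)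
    (hne : z ≠ z') : ¬ IsAlgebraic ℚ (zetaL L z - zetaL L z') := by
  intro halg
  obtain ⟨η, hη⟩ := zetaL_add L
  obtain ⟨ω, hω⟩ : ∃ ω, ω = z - z' := ⟨_, rfl⟩
  rw [← hω] at hd
  have hω0 : ω ≠ 0 := by rw [hω]; exact sub_ne_zero.2 hne
  have hη1 : zetaL L z - zetaL L z' = η ⟨ω, hd⟩ := by
    have h := hη z' hz' ⟨ω, hd⟩
    have e : z' + ω = z := by rw [hω]; ring
    simp only [e] at h
    rw [h]; ring
  rw [hη1] at halg
  -- some `ω / 2^k` is not in the lattice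
  have hex : ∃ k : ℕ, ω / 2 ^ k ∉ L.lattice := by
    have ht : Tendsto (fun k : ℕ => ω / 2 ^ k) atTop (𝓝 0) := by
      have h4 : Tendsto (fun k : ℕ => ((1 / 2 : ℂ)) ^ k) atTop (𝓝 0) :=
        tendsto_pow_atTop_nhds_zero_of_norm_lt_one (by norm_num)
      have h5 := h4.const_mul ω
      rw [mul_zero] at h5
      refine h5.congr fun k => ?_
      rw [one_div, inv_pow, ← div_eq_mul_inv]
    obtain ⟨k, hk⟩ := (ht.eventually (Link_S_lower a b)).exists
    refine ⟨k, fun hmem => ?_⟩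
    rw [(S_eq_zero_iff L a b h2 h3 _).2 hmem, norm_zero, mul_zero] at hk
    have h6 : ω / 2 ^ k = 0 := norm_le_zero_iff.1 hk
    rw [div_eq_zero_iff] at h6
    rcases h6 with h6 | h6
    · exact hω0 h6
    · exact pow_ne_zero k two_ne_zero h6
  classical
  obtain ⟨k, hk⟩ : ∃ k, k = Nat.find hex := ⟨_, rfl⟩
  have h4 : ω / 2 ^ k ∉ L.lattice := by
    rw [hk]
    exact Nat.find_spec hex
  have hk0 : k ≠ 0 := by
    rintro rfl
    apply h4
    simpa using hd
  obtain ⟨j, rfl⟩ := Nat.exists_eq_succ_of_ne_zero hk0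
  have h5 : ω / 2 ^ j ∈ L.lattice := by
    by_contra h
    have := Nat.find_min' hex h
    omega
  obtain ⟨h, hh⟩ : ∃ h, h = ω / 2 ^ (j + 1) := ⟨_, rfl⟩
  rw [Nat.succ_eq_add_one, ← hh] at h4
  have e1 : 2 * h = ω / 2 ^ j := by
    rw [hh, pow_succ]
    field_simp
  have h6 : 2 * h ∈ L.lattice := by rw [e1]; exact h5
  have h7 : zetaL L h = zetaL L (-h) + η ⟨2 * h, h6⟩ := by
    have h8 := hη (-h) (fun h' => h4 (by simpa using L.lattice.neg_mem h')) ⟨2 * h, h6⟩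
    have e : -h + 2 * h = h := by ring
    simp only [e] at h8
    exact h8
  rw [Ell_zeta_neg] at h7
  have h9 : (⟨ω, hd⟩ : L.lattice) = (2 ^ j : ℕ) • (⟨2 * h, h6⟩ : L.lattice) := by
    apply Subtype.ext
    simp only [Submodule.coe_smul_of_tower, nsmul_eq_mul, Nat.cast_pow, Nat.cast_ofNat]
    rw [e1]
    field_simp
  rw [h9, map_nsmul, nsmul_eq_mul] at halg
  have h10 : η ⟨2 * h, h6⟩ = 2 * zetaL L h := by linear_combination -h7
  rw [h10] at halg
  refine hS h h4 (P_half_alg L a b ha hb h2 h3 h h4 h6) ?_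
  have h11 : IsAlgebraic ℚ ((((2 : ℚ) ^ (j + 1))⁻¹ : ℚ) : ℂ) := by
    rw [← eq_ratCast (algebraMap ℚ ℂ)]
    exact isAlgebraic_algebraMap _
  have h12 := h11.mul halg
  have h13 : ((((2 : ℚ) ^ (j + 1))⁻¹ : ℚ) : ℂ) * (((2 ^ j : ℕ) : ℂ) * (2 * zetaL L h)) =
      zetaL L h := by
    push_cast
    rw [pow_succ]
    field_simp
  rwa [h13] at h12

/-- **Assembly.** The count for integral `a`, `b`, given the addition formulas for `ζ`, `℘'` and
Schneider's theorem on `℘`, `ζ`. -/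
theorem count_V (L : PeriodPair) (a b : ℂ) (ha : IsAlgebraic ℚ a) (hb : IsAlgebraic ℚ b)
    (h2 : L.g₂ = -4 * a) (h3 : L.g₃ = -4 * b)
    (hZ : ∀ z w : ℂ, z ∉ L.lattice → w ∉ L.lattice → z + w ∉ L.lattice →
      L.weierstrassP z ≠ L.weierstrassP w → zetaL L (z + w) = zetaL L z + zetaL L w +
        (L.derivWeierstrassP z - L.derivWeierstrassP w) /
          (2 * (L.weierstrassP z - L.weierstrassP w)))
    (hY : ∀ z w : ℂ, z ∉ L.lattice → w ∉ L.lattice → z + w ∉ L.lattice →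
      L.weierstrassP z ≠ L.weierstrassP w → L.derivWeierstrassP (z + w) =
        -((L.derivWeierstrassP z - L.derivWeierstrassP w) /
          (L.weierstrassP z - L.weierstrassP w) * (L.weierstrassP (z + w) - L.weierstrassP z) +
            L.derivWeierstrassP z))
    (hS : ∀ p, p ∉ L.lattice → IsAlgebraic ℚ (L.weierstrassP p) → ¬ IsAlgebraic ℚ (zetaL L p))
    (V : Submodule ℚ ℂ) [FiniteDimensional ℚ V] (S : Finset ℂ)
    (hT : ∀ p ∈ S, p ∈ V ∧ p ∉ L.lattice ∧ IsAlgebraic ℚ (zetaL L p)) :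
    S.card ≤ 7 ^ Module.finrank ℚ V := by
  classical
  -- the field of algebraic numbers
  let k := algebraicClosure ℚ ℂ
  have hk : ∀ {x : ℂ}, IsAlgebraic ℚ x → x ∈ k := fun h => (mem_algebraicClosure_iff).2 h
  have hcl0 : IsAlgClosure ℚ (algebraicClosure ℚ ℂ) := algebraicClosure.isAlgClosure ℚ ℂ
  have hcl : IsAlgClosed k := hcl0.isAlgClosed
  have hka : Algebra.IsAlgebraic ℚ k := hcl0.isAlgebraic
  have htr : ∀ p ∈ S, Transcendental k (L.weierstrassP p) := by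
    intro p hp halg
    obtain ⟨-, hp1, hp2⟩ := hT p hp
    exact hS p hp1 (halg.restrictScalars ℚ) hp2
  have h2p : ∀ p ∈ S, 2 * p ∉ L.lattice := by
    intro p hp h
    obtain ⟨-, hp1, hp2⟩ := hT p hp
    exact hS p hp1 (P_half_alg L a b ha hb h2 h3 p hp1 h) hp2
  obtain ⟨D, hD⟩ := exists_derivation (k := k) (F := ℂ) (S.image L.weierstrassP) (by
    intro x hx
    obtain ⟨p, hp, rfl⟩ := Finset.mem_image.1 hx
    exact htr p hp)
  have hDP : ∀ p ∈ S, D (L.weierstrassP p) ≠ 0 := fun p hp => hD _ (Finset.mem_image_of_mem _ hp)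
  have hDk : ∀ {x : ℂ}, IsAlgebraic ℚ x → D x = 0 := by
    intro x hx
    have h := D.map_algebraMap (⟨x, hk hx⟩ : k)
    exact h
  obtain ⟨A, B, hAB⟩ := exists_AB L a b h2 h3 D (hDk ha) (hDk hb) hZ hY
  have hB : ∀ p ∈ S, B p = L.weierstrassP p * A p := by
    intro p hp
    have h := (hAB p (h2p p hp)).2
    rw [hDk (hT p hp).2.2, zero_add] at h
    exact h.symm
  have hA : ∀ p ∈ S, A p ≠ 0 := by
    intro p hp h
    apply hDP p hp
    rw [(hAB p (h2p p hp)).1, h, zero_mul]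
  have hAω : ∀ ω ∈ L.lattice, A ω = 0 := by
    intro ω hω
    obtain ⟨u, hu, -⟩ := exists_generic (halfL L) (halfL_countable L) {0} ∅
    simp only [Finset.mem_singleton, forall_eq, zero_add] at hu
    have hu' : 2 * u ∉ L.lattice := hu
    have hu2 : 2 * (u + ω) ∉ L.lattice := by
      intro h
      apply hu'
      have h5 := L.lattice.sub_mem h (show 2 * ω ∈ L.lattice by
        rw [two_mul]; exact L.lattice.add_mem hω hω)
      have e : 2 * (u + ω) - 2 * ω = 2 * u := by ring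
      rwa [e] at h5
    have h1 := (hAB u hu').1
    have h4 := (hAB (u + ω) hu2).1
    have e1 := L.weierstrassP_add_coe u ⟨ω, hω⟩
    have e2 := L.derivWeierstrassP_add_coe u ⟨ω, hω⟩
    simp only at e1 e2
    rw [e1, e2, h1, map_add] at h4
    have h5 := mul_right_cancel₀ (dP_ne L a b h2 h3 u hu') h4
    linear_combination -h5
  obtain ⟨e1, e2, e3, n12, n13, n23, a1, a2, a3, hroot⟩ := roots L a b ha hb h2 h3
  -- the linear space
  let φ : V →ₗ[ℚ] ℂ × ℂ := ((A.prod B).toRatLinearMap).comp V.subtype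
  have hφ : ∀ v : V, φ v = (A v, B v) := fun v => rfl
  let Λ : Submodule k (ℂ × ℂ) := Submodule.span k (Set.range φ)
  let bV := Module.finBasis ℚ V
  have hspan : Λ = Submodule.span k (Set.range (fun i => φ (bV i))) := by
    apply le_antisymm
    · rw [Submodule.span_le]
      rintro _ ⟨v, rfl⟩
      rw [← bV.sum_repr v, map_sum]
      refine Submodule.sum_mem _ fun i _ => ?_
      rw [map_smul]
      have e : (bV.repr v i) • φ (bV i) = (algebraMap ℚ k (bV.repr v i)) • φ (bV i) :=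
        (algebraMap_smul k (bV.repr v i) (φ (bV i))).symm
      rw [e]
      exact Submodule.smul_mem _ _ (Submodule.subset_span ⟨i, rfl⟩)
    · rw [Submodule.span_le]
      rintro _ ⟨i, rfl⟩
      exact Submodule.subset_span ⟨_, rfl⟩
  have hfin : FiniteDimensional k Λ := by
    rw [hspan]
    exact FiniteDimensional.span_of_finite k (Set.finite_range _)
  have hrank : Module.finrank k Λ ≤ Module.finrank ℚ V := by
    rw [hspan]
    have h := finrank_range_le_card (R := k) (fun i => φ (bV i))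
    rw [Fintype.card_fin] at h
    exact h
  have hinj : Set.InjOn (fun p : ℂ => (A p, B p)) (S : Set ℂ) := by
    intro p hp p' hp' h
    simp only [Prod.mk.injEq] at h
    obtain ⟨hA1, hB1⟩ := h
    obtain ⟨-, hq, hqz⟩ := hT p hp
    obtain ⟨-, hq', hqz'⟩ := hT p' hp'
    rw [hB p hp, hB p' hp', hA1] at hB1
    have hP := mul_right_cancel₀ (hA p' hp') hB1
    by_contra hne
    rcases same_P L a b h2 h3 p p' hq hq' hP with h | h
    · exact Asm_eta L a b ha hb h2 h3 hS p p' hq' h hne (hqz.sub hqz')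
    · have h5 := hAω _ h
      rw [map_add, hA1] at h5
      apply hA p' hp'
      linear_combination h5 / 2
  rw [← Finset.card_image_of_injOn hinj]
  refine (core_count (k := k) (F := ℂ) D.toLinearMap ⟨e1, hk a1⟩ ⟨e2, hk a2⟩ ⟨e3, hk a3⟩
    (fun h => n12 (congrArg Subtype.val h)) (fun h => n13 (congrArg Subtype.val h))
    (fun h => n23 (congrArg Subtype.val h)) Λ _ ?_ ?_ ?_).trans
    (Nat.pow_le_pow_right (by norm_num) hrank)
  · intro q hq
    obtain ⟨p, hp, rfl⟩ := Finset.mem_image.1 hq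
    exact Submodule.subset_span ⟨⟨p, (hT p hp).1⟩, rfl⟩
  · intro q hq
    obtain ⟨p, hp, rfl⟩ := Finset.mem_image.1 hq
    have hDB : D (B p) = D (L.weierstrassP p) * A p + L.weierstrassP p * D (A p) := by
      rw [hB p hp, Derivation.leibniz, smul_eq_mul, smul_eq_mul]
      ring
    have hc := Ell_curve L a b h2 h3 p (hT p hp).2.1
    have hr := hroot (L.weierstrassP p)
    change (A p * D (B p) - B p * D (A p)) ^ 2 = 4 * (A p ^ 3 *
      ((B p - e1 * A p) * (B p - e2 * A p) * (B p - e3 * A p)))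
    rw [hDB, hB p hp, (hAB p (h2p p hp)).1]
    linear_combination (A p ^ 6) * hc + 4 * A p ^ 6 * hr
  · intro q hq
    obtain ⟨p, hp, rfl⟩ := Finset.mem_image.1 hq
    have hDB : D (B p) = D (L.weierstrassP p) * A p + L.weierstrassP p * D (A p) := by
      rw [hB p hp, Derivation.leibniz, smul_eq_mul, smul_eq_mul]
      ring
    change A p * D (B p) - B p * D (A p) ≠ 0
    have e : A p * D (B p) - B p * D (A p) = A p ^ 2 * D (L.weierstrassP p) := by
      rw [hDB, hB p hp]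
      ring
    rw [e]
    exact mul_ne_zero (pow_ne_zero _ (hA p hp)) (hDP p hp)

end Pool.Agent.ZFR
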