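import Pool.Agent.ZFR.ZAdd
import Pool.Agent.ZFin.Per

/-! # Points with the same `℘`; zeros of `℘'`; duplication of `ζ` without hypothesis on `℘'` -/

namespace Pool.Agent.ZFR
open Pool.Agent.ZCM Pool.Agent.ZFin
open Filter Topology

variable (L : PeriodPair) (a b : ℂ) (h2 : L.g₂ = -4 * a) (h3 : L.g₃ = -4 * b)

theorem neg_notMem {z : ℂ} (hz : z ∉ L.lattice) : -z ∉ L.lattice := fun h => hz (by
  have := L.lattice.neg_mem h
  rwa [neg_neg] at this)

include h2 h3 in
/-- `℘'(z) = 0` exactly at the half periods -/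
theorem two_mul_mem_of_derivP {z : ℂ} (hz : z ∉ L.lattice) (h : L.derivWeierstrassP z = 0) :
    2 * z ∈ L.lattice := by
  have h4 := same_point L a b h2 h3 z (-z) hz (neg_notMem L hz) (L.weierstrassP_neg z).symm
    (by rw [L.derivWeierstrassP_neg, h, neg_zero])
  rwa [sub_neg_eq_add, ← two_mul] at h4

include h2 h3 in
theorem derivP_ne_zero {z : ℂ} (hz2 : 2 * z ∉ L.lattice) : L.derivWeierstrassP z ≠ 0 := by
  intro h
  have hz : z ∉ L.lattice := fun h => hz2 (by
    have := L.lattice.add_mem h h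
    rwa [← two_mul] at this)
  exact hz2 (two_mul_mem_of_derivP L a b h2 h3 hz h)

include h2 h3 in
/-- **points with the same `℘`** -/
theorem P_eq {z w : ℂ} (hz : z ∉ L.lattice) (hw : w ∉ L.lattice)
    (h : L.weierstrassP z = L.weierstrassP w) : z - w ∈ L.lattice ∨ z + w ∈ L.lattice := by
  have c1 := add_curve L a b h2 h3 z hz
  have c2 := add_curve L a b h2 h3 w hw
  rw [h, ← c2] at c1
  rcases sq_eq_sq_iff_eq_or_eq_neg.1 c1 with h4 | h4
  · left
    exact same_point L a b h2 h3 z w hz hw h (by linear_combination 2 * h4)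
  · right
    have h5 := same_point L a b h2 h3 z (-w) hz (neg_notMem L hw)
      (by rw [h, L.weierstrassP_neg]) (by rw [L.derivWeierstrassP_neg]; linear_combination 2 * h4)
    rwa [sub_neg_eq_add] at h5

include h2 h3 in
/-- **duplication formula for `ζ`** -/
theorem zeta_dup28' {z : ℂ} (hz2 : 2 * z ∉ L.lattice) :
    zetaL L (2 * z) = 2 * zetaL L z + (6 * L.weierstrassP z ^ 2 - L.g₂ / 2) /
      (2 * L.derivWeierstrassP z) :=
  zeta_dup28 L a b h2 h3 z hz2 (derivP_ne_zero L a b h2 h3 hz2)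

end Pool.Agent.ZFR
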