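import Mathlib

/-! # A function on `ℂ ∖ Ω` that is additive at generic pairs extends to an additive function -/

namespace Pool.Agent.ZFR

/-- generic choice: avoid finitely many translates of `± Ω` -/
theorem exists_generic (Ω : AddSubgroup ℂ) (hc : (Ω : Set ℂ).Countable) (S T : Finset ℂ) :
    ∃ w : ℂ, (∀ c ∈ S, c + w ∉ Ω) ∧ ∀ c ∈ T, c - w ∉ Ω := by
  classical
  let B : Set ℂ := (⋃ c ∈ S, (fun x => x - c) '' (Ω : Set ℂ)) ∪ ⋃ c ∈ T, (fun x => c - x) '' (Ω : Set ℂ)
  have hB : B.Countable := by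
    apply Set.Countable.union
    · exact Set.Countable.biUnion (Finset.countable_toSet S) fun c _ => hc.image _
    · exact Set.Countable.biUnion (Finset.countable_toSet T) fun c _ => hc.image _
  have hne : B ≠ Set.univ := by
    intro h
    rw [h] at hB
    exact not_countable_complex hB
  obtain ⟨w, hw⟩ := (Set.ne_univ_iff_exists_notMem _).1 hne
  refine ⟨w, ?_, ?_⟩
  · intro c hcS h
    apply hw
    left
    rw [Set.mem_iUnion₂]
    exact ⟨c, hcS, c + w, h, by ring⟩
  · intro c hcT h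
    apply hw
    right
    rw [Set.mem_iUnion₂]
    exact ⟨c, hcT, c - w, h, by ring⟩

theorem exists_addHom (Ω : AddSubgroup ℂ) (hc : (Ω : Set ℂ).Countable) (f : ℂ → ℂ)
    (hf : ∀ u v, u ∉ Ω → v ∉ Ω → u + v ∉ Ω → u - v ∉ Ω → f (u + v) = f u + f v) :
    ∃ F : ℂ →+ ℂ, ∀ u, u ∉ Ω → F u = f u := by
  classical
  -- independence of the auxiliary point
  have key : ∀ u w w', w ∉ Ω → u + w ∉ Ω → w' ∉ Ω → u + w' ∉ Ω →
      f (u + w) - f w = f (u + w') - f w' := by
    have h1 : ∀ u w w' z, u + w ∉ Ω → w' ∉ Ω → z ∉ Ω → w' + z ∉ Ω → w' - z ∉ Ω →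
        u + w + w' + z ∉ Ω → u + w - w' - z ∉ Ω → f (u + w) + f w' + f z = f (u + w + w' + z) := by
      intro u w w' z h1 h2 h3 h4 h5 h6 h7
      rw [add_assoc (f (u + w)), ← hf w' z h2 h3 h4 h5, ← hf (u + w) (w' + z) h1 h4 ?_ ?_]
      · congr 1; ring
      · have e : u + w + (w' + z) = u + w + w' + z := by ring
        rw [e]; exact h6
      · have e : u + w - (w' + z) = u + w - w' - z := by ring
        rw [e]; exact h7
    intro u w w' hw huw hw' huw'
    obtain ⟨z, hz1, hz2⟩ := exists_generic Ω hc {0, w, w', u + w + w'} {w, w', u + w - w', u + w' - w}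
    simp only [Finset.mem_insert, Finset.mem_singleton, forall_eq_or_imp, forall_eq, zero_add] at hz1 hz2
    obtain ⟨a1, a2, a3, a4⟩ := hz1
    obtain ⟨b1, b2, b3, b4⟩ := hz2
    have e1 := h1 u w w' z huw hw' a1 a3 b2 a4 b3
    have e2 := h1 u w' w z huw' hw a1 a2 b1 (by
      have e : u + w' + w + z = u + w + w' + z := by ring
      rw [e]; exact a4) b4
    have e3 : u + w' + w + z = u + w + w' + z := by ring
    rw [e3] at e2
    linear_combination e1 - e2
  have hch : ∀ u : ℂ, ∃ w : ℂ, w ∉ Ω ∧ u + w ∉ Ω := by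
    intro u
    obtain ⟨w, hw, -⟩ := exists_generic Ω hc {0, u} ∅
    simp only [Finset.mem_insert, Finset.mem_singleton, forall_eq_or_imp, forall_eq, zero_add] at hw
    exact ⟨w, hw.1, hw.2⟩
  choose W hW1 hW2 using hch
  let F : ℂ → ℂ := fun u => f (u + W u) - f (W u)
  have hF : ∀ u w, w ∉ Ω → u + w ∉ Ω → F u = f (u + w) - f w := fun u w h1 h2 =>
    key u (W u) w (hW1 u) (hW2 u) h1 h2
  have hadd : ∀ u v, F (u + v) = F u + F v := by
    intro u v
    obtain ⟨w, hw, -⟩ := exists_generic Ω hc {0, v, u + v} ∅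
    simp only [Finset.mem_insert, Finset.mem_singleton, forall_eq_or_imp, forall_eq, zero_add] at hw
    obtain ⟨h1, h2, h3⟩ := hw
    rw [hF (u + v) w h1 h3, hF v w h1 h2, hF u (v + w) h2 (by rw [← add_assoc]; exact h3)]
    have e : u + (v + w) = u + v + w := by ring
    rw [e]
    ring
  refine ⟨AddMonoidHom.mk' F hadd, fun u hu => ?_⟩
  obtain ⟨w, hw1, hw2⟩ := exists_generic Ω hc {0, u} {u}
  simp only [Finset.mem_insert, Finset.mem_singleton, forall_eq_or_imp, forall_eq, zero_add] at hw1 hw2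
  change F u = f u
  rw [hF u w hw1.1 hw1.2, hf u w hu hw1.1 hw1.2 hw2]
  ring

end Pool.Agent.ZFR
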