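import Pool.Agent.ZFR.Defo

/-! # Counting isolated points -/

namespace Pool.Agent.ZFR

open MvPolynomial

noncomputable section

variable {k : Type*} [Field k] {n : ℕ}

/-- interpolation -/
theorem interp (S : Finset (Fin n → k)) (f : (Fin n → k) → k) :
    ∃ P : MvPolynomial (Fin n) k, ∀ c ∈ S, eval c P = f c := by
  classical
  induction S using Finset.induction_on with
  | empty => exact ⟨0, by simp⟩
  | insert c S hc ih =>
    obtain ⟨P, hP⟩ := ih
    have h1 : ∀ c' ∈ S, ∃ i, c i ≠ c' i := by
      intro c' hc'
      by_contra hcon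
      push Not at hcon
      exact hc ((funext hcon : c = c') ▸ hc')
    let Z : MvPolynomial (Fin n) k := ∏ c' ∈ S.attach,
      (X (h1 c' c'.2).choose - C (c'.1 (h1 c' c'.2).choose))
    have hZ0 : ∀ c' ∈ S, eval c' Z = 0 := by
      intro c' hc'
      rw [map_prod]
      apply Finset.prod_eq_zero (Finset.mem_attach S ⟨c', hc'⟩)
      simp
    have hZc : eval c Z ≠ 0 := by
      rw [map_prod, Finset.prod_ne_zero_iff]
      intro c' _
      rw [map_sub, eval_X, eval_C]
      exact sub_ne_zero.2 (h1 c' c'.2).choose_spec
    refine ⟨P + C ((f c - eval c P) / eval c Z) * Z, ?_⟩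
    intro c' hc'
    rw [map_add, map_mul, eval_C]
    rcases Finset.mem_insert.1 hc' with rfl | h
    · rw [div_mul_cancel₀ _ hZc]; ring
    · rw [hZ0 c' h, mul_zero, add_zero, hP c' h]

/-- the field `k(T)` -/
abbrev LT (k : Type*) [Field k] : Type _ := FractionRing (Polynomial k)

/-- `k[T][x] → k(T)[x]` -/
def jo : ST k n →+* MvPolynomial (Fin n) (LT k) := map (algebraMap (Polynomial k) (LT k))

/-- the ideal over `k(T)` -/
def IL (d : ℕ) (H : Fin n → MvPolynomial (Fin n) k) : Ideal (MvPolynomial (Fin n) (LT k)) :=
  (Ideal.span (Set.range (gd d H))).map jo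

/-- the reduced monomials span -/
theorem span_reduced (d : ℕ) (H : Fin n → MvPolynomial (Fin n) k) (hd : ∀ i, (H i).totalDegree ≤ d)
    (P : MvPolynomial (Fin n) (LT k)) :
    Ideal.Quotient.mk (IL d H) P ∈ Submodule.span (LT k) (Set.range fun m : Fin n → Fin (d + 1) =>
      Ideal.Quotient.mk (IL d H) (∏ i, X i ^ (m i : ℕ))) := by
  classical
  set Sp := Submodule.span (LT k) (Set.range fun m : Fin n → Fin (d + 1) =>
      Ideal.Quotient.mk (IL d H) (∏ i, X i ^ (m i : ℕ))) with hSp
  -- monomials
  have hmon : ∀ (D : ℕ) (m : Fin n →₀ ℕ), m.degree ≤ D →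
      Ideal.Quotient.mk (IL d H) (monomial m 1) ∈ Sp := by
    intro D
    induction D using Nat.strong_induction_on with
    | _ D ih =>
      intro m hm
      by_cases hsm : ∀ i, m i < d + 1
      · apply Submodule.subset_span
        refine ⟨fun i => ⟨m i, hsm i⟩, ?_⟩
        simp only
        rw [monomial_eq, C_1, one_mul, Finsupp.prod_fintype _ _ (fun i => pow_zero _)]
      · push Not at hsm
        obtain ⟨i, hi⟩ := hsm
        -- `T x_i^(d+1) = - H_i`
        let m' : Fin n →₀ ℕ := m - Finsupp.single i (d + 1)
        have hm' : m = m' + Finsupp.single i (d + 1) := by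
          rw [tsub_add_cancel_of_le]
          exact Finsupp.single_le_iff.2 hi
        have hdeg : m.degree = m'.degree + (d + 1) := by
          conv_lhs => rw [hm']
          rw [map_add, Finsupp.degree_single]
        have hT : (algebraMap (Polynomial k) (LT k) Polynomial.X) ≠ 0 := by
          rw [Ne, map_eq_zero_iff _ (IsFractionRing.injective _ _)]
          exact Polynomial.X_ne_zero
        have h1 : jo (gd d H i) ∈ IL d H := Ideal.mem_map_of_mem _ (Ideal.subset_span ⟨i, rfl⟩)
        have h2 : jo (gd d H i) = jo (io (H i)) +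
            C (algebraMap (Polynomial k) (LT k) Polynomial.X) * X i ^ (d + 1) := by
          rw [gd, map_add, map_mul, map_pow, jo, map_C, map_X]
        have h3 : (monomial m 1 : MvPolynomial (Fin n) (LT k)) = monomial m' 1 * X i ^ (d + 1) := by
          rw [X_pow_eq_monomial, monomial_mul, ← hm', one_mul]
        have h4 : Ideal.Quotient.mk (IL d H) (monomial m 1) =
            -(algebraMap (Polynomial k) (LT k) Polynomial.X)⁻¹ •
              Ideal.Quotient.mk (IL d H) (monomial m' 1 * jo (io (H i))) := by
          rw [← Ideal.Quotient.mkₐ_eq_mk (LT k), ← map_smul, Ideal.Quotient.mkₐ_eq_mk, ← sub_eq_zero,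
            ← map_sub, Ideal.Quotient.eq_zero_iff_mem]
          have h5 : monomial m (1 : LT k) - -(algebraMap (Polynomial k) (LT k) Polynomial.X)⁻¹ •
              (monomial m' 1 * jo (io (H i))) =
              C ((algebraMap (Polynomial k) (LT k) Polynomial.X)⁻¹) * monomial m' 1 *
                jo (gd d H i) := by
            rw [h2, h3, smul_eq_C_mul, C_neg]
            have h6 : (C ((algebraMap (Polynomial k) (LT k) Polynomial.X)⁻¹) *
              C (algebraMap (Polynomial k) (LT k) Polynomial.X) : MvPolynomial (Fin n) (LT k)) = 1 := by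
              rw [← map_mul, inv_mul_cancel₀ hT, map_one]
            linear_combination (-(monomial m' (1 : LT k)) * X i ^ (d + 1)) * h6
          rw [h5]
          exact Ideal.mul_mem_left _ _ h1
        rw [h4]
        apply Submodule.smul_mem
        -- expand `H_i`
        have h7 : (monomial m' (1 : LT k)) * jo (io (H i)) =
            ∑ m'' ∈ (H i).support, (algebraMap (Polynomial k) (LT k) (Polynomial.C (coeff m'' (H i)))) •
              (monomial (m' + m'') (1 : LT k)) := by
          conv_lhs => rw [(H i).as_sum]
          rw [map_sum, map_sum, Finset.mul_sum]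
          apply Finset.sum_congr rfl
          intro m'' _
          rw [io, map_monomial, jo, map_monomial, monomial_mul, one_mul, smul_monomial, smul_eq_mul,
            mul_one]
        rw [h7, ← Ideal.Quotient.mkₐ_eq_mk (LT k), map_sum]
        apply Submodule.sum_mem
        intro m'' hm''
        rw [map_smul]
        apply Submodule.smul_mem
        have h8 : m''.degree ≤ d := by
          have := le_totalDegree hm''
          exact this.trans (hd i)
        refine ih (m' + m'').degree ?_ _ le_rfl
        rw [map_add]
        omega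
  induction P using MvPolynomial.induction_on' with
  | monomial m f =>
    have h1 : (monomial m f : MvPolynomial (Fin n) (LT k)) = f • monomial m 1 := by
      rw [smul_monomial, smul_eq_mul, mul_one]
    rw [h1, ← Ideal.Quotient.mkₐ_eq_mk (LT k), map_smul]
    exact Submodule.smul_mem _ _ (hmon _ m le_rfl)
  | add p q hp hq =>
    rw [map_add]
    exact Submodule.add_mem _ hp hq

end

end Pool.Agent.ZFR
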