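import Pool.Agent.ZFR.Gen

/-! # Deformation: the isolated points lift to `T ≠ 0` -/

namespace Pool.Agent.ZFR

open MvPolynomial

noncomputable section

variable {k : Type*} [Field k] {n : ℕ}

/-- the ring `k[T][x]` -/
abbrev ST (k : Type*) [Field k] (n : ℕ) : Type _ := MvPolynomial (Fin n) (Polynomial k)

/-- evaluation at `T = 0`, `x = c` -/
def ev0 (c : Fin n → k) : ST k n →+* k := eval₂Hom (Polynomial.evalRingHom 0) c

/-- the ideal of the point `(0, c)` -/
def pt0 (c : Fin n → k) : Ideal (ST k n) := RingHom.ker (ev0 c)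

theorem mem_pt0 {c : Fin n → k} {P : ST k n} : P ∈ pt0 c ↔ ev0 c P = 0 := Iff.rfl

instance (c : Fin n → k) : (pt0 c).IsPrime := RingHom.ker_isPrime _

/-- `T ↦ 0` and `x_i ↦ c_i` for `i < j` -/
def phj (c : Fin n → k) (j : ℕ) : ST k n →+* MvPolynomial (Fin n) k :=
  eval₂Hom ((C : k →+* MvPolynomial (Fin n) k).comp (Polynomial.evalRingHom 0))
    (fun i => if i.val < j then C (c i) else X i)

def Pj (c : Fin n → k) (j : ℕ) : Ideal (ST k n) := RingHom.ker (phj c j)

instance (c : Fin n → k) (j : ℕ) : (Pj c j).IsPrime := RingHom.ker_isPrime _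

theorem phj_X (c : Fin n → k) (j : ℕ) (i : Fin n) :
    phj c j (X i) = if i.val < j then C (c i) else X i := by
  simp [phj]

theorem phj_C (c : Fin n → k) (j : ℕ) (p : Polynomial k) :
    phj c j (C p) = C (p.eval 0) := by
  simp [phj]

theorem Pj_le (c : Fin n → k) (j : ℕ) : Pj c j ≤ Pj c (j + 1) := by
  have h1 : phj c (j + 1) = (eval₂Hom (C : k →+* MvPolynomial (Fin n) k)
      (fun i : Fin n => if i.val < j + 1 then C (c i) else X i)).comp (phj c j) := by
    apply MvPolynomial.ringHom_ext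
    · intro p
      rw [RingHom.comp_apply, phj_C, phj_C, coe_eval₂Hom, eval₂_C]
    · intro i
      rw [RingHom.comp_apply, phj_X, phj_X]
      by_cases h : i.val < j
      · rw [if_pos h, if_pos (by omega), coe_eval₂Hom, eval₂_C]
      · rw [if_neg h, coe_eval₂Hom, eval₂_X]
  intro P hP
  have hP' : phj c j P = 0 := hP
  change phj c (j + 1) P = 0
  rw [h1, RingHom.comp_apply, hP', map_zero]

theorem Pj_lt (c : Fin n → k) (j : ℕ) (hj : j < n) : Pj c j < Pj c (j + 1) := by
  refine lt_of_le_of_ne (Pj_le c j) ?_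
  intro h
  have h1 : (X ⟨j, hj⟩ - C (Polynomial.C (c ⟨j, hj⟩)) : ST k n) ∈ Pj c (j + 1) := by
    change phj c (j + 1) _ = 0
    rw [map_sub, phj_X, phj_C, if_pos (by simp), Polynomial.eval_C, sub_self]
  rw [← h] at h1
  have h2 : phj c j (X ⟨j, hj⟩ - C (Polynomial.C (c ⟨j, hj⟩)) : ST k n) = 0 := h1
  rw [map_sub, phj_X, phj_C, if_neg (by simp), Polynomial.eval_C] at h2
  have h3 := congrArg (eval fun i => c i + 1) h2
  rw [map_sub, eval_X, eval_C, map_zero, add_sub_cancel_left] at h3
  exact one_ne_zero h3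

theorem bot_lt_Pj (c : Fin n → k) : (⊥ : Ideal (ST k n)) < Pj c 0 := by
  rw [bot_lt_iff_ne_bot]
  intro h
  have h1 : (C Polynomial.X : ST k n) ∈ Pj c 0 := by
    change phj c 0 _ = 0
    rw [phj_C, Polynomial.eval_X, map_zero]
  rw [h, Submodule.mem_bot] at h1
  exact Polynomial.X_ne_zero ((C_injective _ _) (h1.trans (map_zero C).symm))

theorem height_Pj (c : Fin n → k) (j : ℕ) (hj : j ≤ n) : ((j + 1 : ℕ) : ℕ∞) ≤ (Pj c j).height := by
  induction j with
  | zero =>
    have h := Ideal.height_add_one_le_of_lt_of_isPrime (bot_lt_Pj c)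
    refine le_trans ?_ h
    simp
  | succ j ih =>
    have h := Ideal.height_add_one_le_of_lt_of_isPrime (Pj_lt c j (by omega))
    refine le_trans ?_ h
    have := ih (by omega)
    push_cast at this ⊢
    gcongr

theorem Pj_eq (c : Fin n → k) : Pj c n = pt0 c := by
  have h : phj c n = (C : k →+* MvPolynomial (Fin n) k).comp (ev0 c) := by
    apply MvPolynomial.ringHom_ext
    · intro p
      simp [phj, ev0]
    · intro i
      simp [phj, ev0]
  ext P
  change phj c n P = 0 ↔ ev0 c P = 0
  rw [h, RingHom.comp_apply, map_eq_zero_iff _ (C_injective _ _)]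

theorem height_pt0 (c : Fin n → k) : ((n + 1 : ℕ) : ℕ∞) ≤ (pt0 c).height := by
  rw [← Pj_eq]
  exact height_Pj c n le_rfl

/-- the embedding `k[x] → k[T][x]` -/
def io : MvPolynomial (Fin n) k →+* ST k n := map (Polynomial.C : k →+* Polynomial k)

theorem ev0_io (c : Fin n → k) (P : MvPolynomial (Fin n) k) : ev0 c (io P) = eval c P := by
  unfold ev0 io
  rw [coe_eval₂Hom, eval₂_map]
  have : (Polynomial.evalRingHom (0 : k)).comp (Polynomial.C : k →+* Polynomial k) = RingHom.id k := by
    ext x; simp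
  rw [this]
  rfl

/-- the deformed equations -/
def gd (d : ℕ) (H : Fin n → MvPolynomial (Fin n) k) (i : Fin n) : ST k n :=
  io (H i) + C Polynomial.X * X i ^ (d + 1)

/-- every element is `io` of something plus a multiple of `T` -/
theorem decomp (P : ST k n) : ∃ (Q : MvPolynomial (Fin n) k) (U : ST k n),
    P = io Q + C Polynomial.X * U := by
  induction P using MvPolynomial.induction_on' with
  | monomial m f =>
    refine ⟨monomial m (f.eval 0), monomial m (f.divX), ?_⟩
    rw [io, map_monomial, C_mul_monomial, ← map_add]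
    congr 1
    have h1 := Polynomial.divX_mul_X_add f
    rw [Polynomial.coeff_zero_eq_eval_zero] at h1
    conv_lhs => rw [← h1]
    ring
  | add p q hp hq =>
    obtain ⟨Q1, U1, h1⟩ := hp
    obtain ⟨Q2, U2, h2⟩ := hq
    exact ⟨Q1 + Q2, U1 + U2, by rw [h1, h2, map_add]; ring⟩

/-- the lifted prime -/
theorem exists_lift (d : ℕ) (H : Fin n → MvPolynomial (Fin n) k) (c : Fin n → k)
    (hHc : ∀ i, eval c (H i) = 0) (hiso : Isolates (Set.range H) c) :
    ∃ q : Ideal (ST k n), q.IsPrime ∧ Ideal.span (Set.range (gd d H)) ≤ q ∧ q ≤ pt0 c ∧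
      ∀ s : Polynomial k, s ≠ 0 → (C s : ST k n) ∉ q := by
  classical
  have hle : Ideal.span (Set.range (gd d H)) ≤ pt0 c := by
    rw [Ideal.span_le]
    rintro _ ⟨i, rfl⟩
    rw [SetLike.mem_coe, mem_pt0, gd, map_add, map_mul, ev0_io, hHc i]
    simp [ev0]
  obtain ⟨q, hq, hqc⟩ := Ideal.exists_minimalPrimes_le hle
  have hqp : q.IsPrime := hq.1.1
  have hne : q ≠ pt0 c := by
    intro h
    have h1 : q ∈ (Ideal.span ((Finset.univ.image (gd d H) : Finset (ST k n)) :
        Set (ST k n))).minimalPrimes := by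
      rw [Finset.coe_image, Finset.coe_univ, Set.image_univ]
      exact hq
    have h2 := Ideal.height_le_card_of_mem_minimalPrimes_span_finset h1
    have h3 := Finset.card_image_le (s := (Finset.univ : Finset (Fin n))) (f := gd d H)
    rw [Finset.card_univ, Fintype.card_fin] at h3
    have h4 : q.height ≤ (n : ℕ∞) := h2.trans (by exact_mod_cast h3)
    rw [h] at h4
    have h5 := (height_pt0 c).trans h4
    have h6 : n + 1 ≤ n := by exact_mod_cast h5
    omega
  have hT : (C Polynomial.X : ST k n) ∉ q := by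
    intro hT
    apply hne
    -- the contraction to `k[x]`
    have h1 : q.comap io = pt c := by
      apply hiso
      · exact Ideal.comap_isPrime io q
      · rintro _ ⟨i, rfl⟩
        rw [SetLike.mem_coe, Ideal.mem_comap]
        have h2 : gd d H i ∈ q := hq.1.2 (Ideal.subset_span ⟨i, rfl⟩)
        have h3 : io (H i) = gd d H i - C Polynomial.X * X i ^ (d + 1) := by
          rw [gd]; ring
        rw [h3]
        exact q.sub_mem h2 (q.mul_mem_right _ hT)
      · intro P hP
        rw [mem_pt, ← ev0_io]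
        exact hqc hP
    apply le_antisymm hqc
    intro P hP
    obtain ⟨Q, U, rfl⟩ := decomp P
    have h2 : eval c Q = 0 := by
      have h3 := mem_pt0.1 hP
      rw [map_add, map_mul, ev0_io] at h3
      have h4 : ev0 c (C Polynomial.X : ST k n) = 0 := by simp [ev0]
      rw [h4, zero_mul, add_zero] at h3
      exact h3
    have h3 : Q ∈ q.comap io := by rw [h1]; exact h2
    exact q.add_mem h3 (q.mul_mem_right _ hT)
  refine ⟨q, hqp, hq.1.2, hqc, ?_⟩
  intro s hs hsq
  obtain ⟨t, ht, htX⟩ := Polynomial.exists_eq_pow_rootMultiplicity_mul_and_not_dvd s hs 0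
  rw [map_zero, sub_zero] at ht htX
  rw [ht, map_mul, map_pow] at hsq
  rcases hqp.mem_or_mem hsq with h | h
  · exact hT (hqp.mem_of_pow_mem _ h)
  · have h1 := mem_pt0.1 (hqc h)
    have h2 : ev0 c (C t : ST k n) = t.eval 0 := by simp [ev0]
    rw [h2] at h1
    apply htX
    rw [Polynomial.X_dvd_iff, Polynomial.coeff_zero_eq_eval_zero, h1]

end

end Pool.Agent.ZFR
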