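import Mathlib

/-! # The logarithmic derivative on the vector extension is additive: algebra -/

namespace Pool.Agent.ZFR

theorem logD_alg {R F : Type*} [CommRing R] [Field F] [CharZero F] [Algebra R F]
    (D : Derivation R F F) (g2 g3 X1 X2 Y1 Y2 Z1 Z2 A1 A2 m X3 Y3 Z3 : F)
    (hX1 : D X1 = A1 * Y1) (hX2 : D X2 = A2 * Y2)
    (hY1 : D Y1 = A1 * (6 * X1 ^ 2 - g2 / 2)) (hY2 : D Y2 = A2 * (6 * X2 ^ 2 - g2 / 2))
    (hc1 : Y1 ^ 2 = 4 * X1 ^ 3 - g2 * X1 - g3) (hc2 : Y2 ^ 2 = 4 * X2 ^ 3 - g2 * X2 - g3)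
    (hne : X1 ≠ X2) (hm : m * (X1 - X2) = Y1 - Y2) (hX3 : X3 = m ^ 2 / 4 - X1 - X2)
    (hY3 : Y3 = -(m * (X3 - X1) + Y1)) (hZ3 : Z3 = Z1 + Z2 + m / 2) :
    D X3 = (A1 + A2) * Y3 ∧
      D Z3 + X3 * (A1 + A2) = (D Z1 + X1 * A1) + (D Z2 + X2 * A2) := by
  have hd : X1 - X2 ≠ 0 := sub_ne_zero.2 hne
  -- the derivative of the slope
  have hDm : D m * (X1 - X2) = A1 * (6 * X1 ^ 2 - g2 / 2) - A2 * (6 * X2 ^ 2 - g2 / 2) -
      m * (A1 * Y1 - A2 * Y2) := by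
    have h := congrArg D hm
    rw [Derivation.leibniz, map_sub, map_sub, hX1, hX2, hY1, hY2, smul_eq_mul, smul_eq_mul] at h
    linear_combination h
  have key : D m = -2 * (X3 - X1) * A1 - 2 * (X3 - X2) * A2 := by
    apply mul_right_cancel₀ hd
    apply mul_right_cancel₀ hd
    have hm2 : m ^ 2 * (X1 - X2) ^ 2 = (Y1 - Y2) ^ 2 := by
      rw [← hm]; ring
    have h1 : D m * (X1 - X2) * (X1 - X2) = (A1 * (6 * X1 ^ 2 - g2 / 2) -
        A2 * (6 * X2 ^ 2 - g2 / 2)) * (X1 - X2) - (Y1 - Y2) * (A1 * Y1 - A2 * Y2) := by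
      rw [hDm]
      linear_combination (-(A1 * Y1 - A2 * Y2)) * hm
    rw [h1, hX3]
    linear_combination (A1 + A2) / 2 * hm2 + (-A1 / 2 + A2 / 2) * hc1 + (A1 / 2 - A2 / 2) * hc2
  have h5 : D (m / 2) = D m / 2 := by
    have e : m = m / 2 + m / 2 := by ring
    have h := congrArg D e
    rw [map_add] at h
    linear_combination -h / 2
  have hDX3 : D X3 = m / 2 * D m - A1 * Y1 - A2 * Y2 := by
    have h4 : D (m ^ 2 / 4) = m / 2 * D m := by
      have e : m ^ 2 / 4 = m / 2 * (m / 2) := by ring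
      rw [e, Derivation.leibniz, h5, smul_eq_mul]
      ring
    rw [hX3, map_sub, map_sub, h4, hX1, hX2]
  constructor
  · rw [hDX3, key, hY3]
    linear_combination (-A2) * hm
  · rw [hZ3, map_add, map_add, h5, key]
    ring

end Pool.Agent.ZFR
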