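import Pool.Agent.ZFin.Per
import Pool.Agent.ZFR.AddExt
import Pool.Agent.ZFR.LogD

/-! # The additive functions `A`, `B` attached to a derivation of `ℂ` and a lattice -/

namespace Pool.Agent.ZFR
open Pool.Agent.ZCM Pool.Agent.ZFin

variable (L : PeriodPair)

/-- the group of `w` with `2w` in the lattice -/
def halfL : AddSubgroup ℂ where
  carrier := {w | 2 * w ∈ L.lattice}
  add_mem' := fun {a b} ha hb => by
    simp only [Set.mem_ofPred_eq] at ha hb ⊢
    rw [mul_add]
    exact L.lattice.add_mem ha hb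
  zero_mem' := by
    simp only [Set.mem_ofPred_eq, mul_zero]
    exact L.lattice.zero_mem
  neg_mem' := fun {a} ha => by
    simp only [Set.mem_ofPred_eq] at ha ⊢
    rw [mul_neg]
    exact L.lattice.neg_mem ha

theorem mem_halfL (w : ℂ) : w ∈ halfL L ↔ 2 * w ∈ L.lattice := Iff.rfl

theorem lattice_le_halfL {w : ℂ} (h : w ∈ L.lattice) : w ∈ halfL L := by
  rw [mem_halfL, two_mul]
  exact L.lattice.add_mem h h

theorem halfL_countable : ((halfL L : AddSubgroup ℂ) : Set ℂ).Countable := by
  have hc : (L.lattice : Set ℂ).Countable := by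
    have h1 : Countable L.lattice := L.latticeEquivProd.toEquiv.countable_iff.2 inferInstance
    exact h1
  refine (hc.preimage_of_injOn (f := fun w : ℂ => 2 * w) ?_).mono ?_
  · intro x _ y _ h
    exact mul_left_cancel₀ two_ne_zero h
  · intro w hw
    exact hw

variable (a b : ℂ) (h2 : L.g₂ = -4 * a) (h3 : L.g₃ = -4 * b)
include h2 h3

theorem Ell_curve (z : ℂ) (hz : z ∉ L.lattice) :
    L.derivWeierstrassP z ^ 2 = 4 * L.weierstrassP z ^ 3 - (-4 * a) * L.weierstrassP z -
      (-4 * b) := by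
  have h := add_curve L a b h2 h3 z hz
  linear_combination 4 * h

theorem same_P (z1 z2 : ℂ) (hz1 : z1 ∉ L.lattice) (hz2 : z2 ∉ L.lattice)
    (hx : L.weierstrassP z1 = L.weierstrassP z2) :
    z1 - z2 ∈ L.lattice ∨ z1 + z2 ∈ L.lattice := by
  have c1 := Ell_curve L a b h2 h3 z1 hz1
  have c2 := Ell_curve L a b h2 h3 z2 hz2
  rw [hx] at c1
  have h : L.derivWeierstrassP z1 ^ 2 = L.derivWeierstrassP z2 ^ 2 := c1.trans c2.symm
  rcases sq_eq_sq_iff_eq_or_eq_neg.1 h with h | h
  · exact Or.inl (same_point L a b h2 h3 z1 z2 hz1 hz2 hx h)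
  · right
    have hz2' : -z2 ∉ L.lattice := fun h => hz2 (by simpa using L.lattice.neg_mem h)
    have h5 := same_point L a b h2 h3 z1 (-z2) hz1 hz2' (by rw [L.weierstrassP_neg, hx])
      (by rw [L.derivWeierstrassP_neg, h])
    simpa using h5

theorem dP_ne (z : ℂ) (hz : 2 * z ∉ L.lattice) : L.derivWeierstrassP z ≠ 0 := by
  intro h
  have hz1 : z ∉ L.lattice := fun h => hz (by rw [two_mul]; exact L.lattice.add_mem h h)
  have hz2 : -z ∉ L.lattice := fun h => hz1 (by simpa using L.lattice.neg_mem h)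
  have h5 := same_point L a b h2 h3 z (-z) hz1 hz2 (by rw [L.weierstrassP_neg])
    (by rw [L.derivWeierstrassP_neg, h, neg_zero])
  apply hz
  rw [two_mul]
  simpa using h5

theorem Ell_P_add (z w : ℂ) (hz : z ∉ L.lattice) (hw : w ∉ L.lattice) (hzw : z + w ∉ L.lattice)
    (hne : L.weierstrassP z ≠ L.weierstrassP w) :
    L.weierstrassP (z + w) = ((L.derivWeierstrassP z - L.derivWeierstrassP w) /
      (L.weierstrassP z - L.weierstrassP w)) ^ 2 / 4 - L.weierstrassP z - L.weierstrassP w := by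
  have h := add_thm L a b h2 h3 z w hz hw hzw
  have c1 := Ell_curve L a b h2 h3 z hz
  have c2 := Ell_curve L a b h2 h3 w hw
  have hd : L.weierstrassP z - L.weierstrassP w ≠ 0 := sub_ne_zero.2 hne
  unfold addn at h
  rw [div_pow]
  field_simp
  linear_combination (-4) * h - c1 - c2

/-- the additive functions attached to a derivation `D` of `ℂ` killing `a` and `b` -/
theorem exists_AB {R : Type*} [CommRing R] [Algebra R ℂ] (D : Derivation R ℂ ℂ)
    (hDa : D a = 0) (hDb : D b = 0)
    (hZ : ∀ z w : ℂ, z ∉ L.lattice → w ∉ L.lattice → z + w ∉ L.lattice →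
      L.weierstrassP z ≠ L.weierstrassP w → zetaL L (z + w) = zetaL L z + zetaL L w +
        (L.derivWeierstrassP z - L.derivWeierstrassP w) /
          (2 * (L.weierstrassP z - L.weierstrassP w)))
    (hY : ∀ z w : ℂ, z ∉ L.lattice → w ∉ L.lattice → z + w ∉ L.lattice →
      L.weierstrassP z ≠ L.weierstrassP w → L.derivWeierstrassP (z + w) =
        -((L.derivWeierstrassP z - L.derivWeierstrassP w) /
          (L.weierstrassP z - L.weierstrassP w) * (L.weierstrassP (z + w) - L.weierstrassP z) +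
            L.derivWeierstrassP z)) :
    ∃ A B : ℂ →+ ℂ, ∀ u, 2 * u ∉ L.lattice →
      D (L.weierstrassP u) = A u * L.derivWeierstrassP u ∧
      D (zetaL L u) + L.weierstrassP u * A u = B u := by
  obtain ⟨f, hf⟩ : ∃ f : ℂ → ℂ, ∀ u, f u = D (L.weierstrassP u) / L.derivWeierstrassP u :=
    ⟨_, fun _ => rfl⟩
  have hX : ∀ u, 2 * u ∉ L.lattice → D (L.weierstrassP u) = f u * L.derivWeierstrassP u := by
    intro u hu
    rw [hf, div_mul_cancel₀ _ (dP_ne L a b h2 h3 u hu)]
  have hDY : ∀ u, 2 * u ∉ L.lattice →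
      D (L.derivWeierstrassP u) = f u * (6 * L.weierstrassP u ^ 2 - (-4 * a) / 2) := by
    intro u hu
    have hu1 : u ∉ L.lattice := fun h => hu (by rw [two_mul]; exact L.lattice.add_mem h h)
    have hy := dP_ne L a b h2 h3 u hu
    have c := congrArg D (Ell_curve L a b h2 h3 u hu1)
    have h4 : D (4 : ℂ) = 0 := by
      have := D.map_natCast 4
      simpa using this
    have e : 4 * L.weierstrassP u ^ 3 - (-4 * a) * L.weierstrassP u - (-4 * b) =
        4 * (L.weierstrassP u * (L.weierstrassP u * L.weierstrassP u)) +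
          4 * (a * L.weierstrassP u) + 4 * b := by ring
    rw [e, sq] at c
    simp only [map_add, Derivation.leibniz, smul_eq_mul, h4, hDa, hDb, hX u hu] at c
    apply mul_left_cancel₀ hy
    linear_combination c / 2
  have hmain : ∀ u v, 2 * u ∉ L.lattice → 2 * v ∉ L.lattice → 2 * (u + v) ∉ L.lattice →
      2 * (u - v) ∉ L.lattice → D (L.weierstrassP (u + v)) =
        (f u + f v) * L.derivWeierstrassP (u + v) ∧
      D (zetaL L (u + v)) + L.weierstrassP (u + v) * (f u + f v) =
        (D (zetaL L u) + L.weierstrassP u * f u) + (D (zetaL L v) + L.weierstrassP v * f v) := by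
    intro u v hu hv huv huv'
    have hh : ∀ w, 2 * w ∉ L.lattice → w ∉ L.lattice := fun w hw h =>
      hw (by rw [two_mul]; exact L.lattice.add_mem h h)
    have hne : L.weierstrassP u ≠ L.weierstrassP v := by
      intro h
      rcases same_P L a b h2 h3 u v (hh u hu) (hh v hv) h with h | h
      · exact hh _ huv' h
      · exact hh _ huv h
    have hd : L.weierstrassP u - L.weierstrassP v ≠ 0 := sub_ne_zero.2 hne
    refine logD_alg D (-4 * a) (-4 * b) _ _ _ _ _ _ (f u) (f v)
      ((L.derivWeierstrassP u - L.derivWeierstrassP v) / (L.weierstrassP u - L.weierstrassP v))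
      _ _ _ (hX u hu) (hX v hv) (hDY u hu) (hDY v hv) (Ell_curve L a b h2 h3 u (hh u hu))
      (Ell_curve L a b h2 h3 v (hh v hv)) hne (div_mul_cancel₀ _ hd)
      (Ell_P_add L a b h2 h3 u v (hh u hu) (hh v hv) (hh _ huv) hne)
      (hY u v (hh u hu) (hh v hv) (hh _ huv) hne) ?_
    rw [hZ u v (hh u hu) (hh v hv) (hh _ huv) hne]
    congr 1
    field_simp
  have hadd : ∀ u v, 2 * u ∉ L.lattice → 2 * v ∉ L.lattice → 2 * (u + v) ∉ L.lattice →
      2 * (u - v) ∉ L.lattice → f (u + v) = f u + f v := by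
    intro u v hu hv huv huv'
    rw [hf (u + v), (hmain u v hu hv huv huv').1,
      mul_div_cancel_right₀ _ (dP_ne L a b h2 h3 _ huv)]
  obtain ⟨A, hA⟩ := exists_addHom (halfL L) (halfL_countable L) f (fun u v hu hv huv huv' =>
    hadd u v hu hv huv huv')
  obtain ⟨B, hB⟩ := exists_addHom (halfL L) (halfL_countable L)
    (fun u => D (zetaL L u) + L.weierstrassP u * f u) (fun u v hu hv huv huv' => by
      have h := (hmain u v hu hv huv huv').2
      rw [← hadd u v hu hv huv huv'] at h
      exact h)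
  refine ⟨A, B, fun u hu => ?_⟩
  rw [hA u hu, hB u hu]
  exact ⟨hX u hu, rfl⟩

omit h2 h3 in
theorem Ell_zeta_neg (z : ℂ) : zetaL L (-z) = -zetaL L z := by
  unfold zetaL
  rw [← tsum_neg, ← (Equiv.neg L.lattice).tsum_eq]
  refine tsum_congr fun l => ?_
  simp only [Equiv.neg_apply, NegMemClass.coe_neg]
  have e : -z - -(l : ℂ) = -(z - l) := by ring
  rw [e, div_neg, div_neg]
  ring

end Pool.Agent.ZFR
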