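import Mathlib

/-! # The Gauss extension of a valuation to `K ⊗ F` -/

namespace Pool.Agent.ZFR

open TensorProduct

variable {k F K : Type*} [Field k] [Field F] [Field K] [Algebra k F] [Algebra k K]
  {Γ₀ : Type*} [LinearOrderedCommGroupWithZero Γ₀] (v : Valuation K Γ₀)
  {ι : Type*} (b : Module.Basis ι k F)

noncomputable section

/-- coordinates -/
def co (x : K ⊗[k] F) (i : ι) : K := (Algebra.TensorProduct.basis K b).repr x i

/-- Gauss norm -/
def gn (x : K ⊗[k] F) : Γ₀ :=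
  ((Algebra.TensorProduct.basis K b).repr x).support.sup fun i => v (co b x i)

theorem co_add (x y : K ⊗[k] F) (i : ι) : co b (x + y) i = co b x i + co b y i := by
  simp [co]

theorem co_smul (q : K) (x : K ⊗[k] F) (i : ι) : co b (q • x) i = q * co b x i := by
  simp [co]

theorem co_tmul (q : K) (f : F) (i : ι) : co b (q ⊗ₜ[k] f) i = q * algebraMap k K (b.repr f i) := by
  simp [co, Algebra.TensorProduct.basis_repr_tmul]

theorem co_ext {x y : K ⊗[k] F} (h : ∀ i, co b x i = co b y i) : x = y := by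
  apply (Algebra.TensorProduct.basis K b).repr.injective
  ext i
  exact h i

theorem gn_le_iff (x : K ⊗[k] F) (g : Γ₀) : gn v b x ≤ g ↔ ∀ i, v (co b x i) ≤ g := by
  unfold gn
  rw [Finset.sup_le_iff]
  constructor
  · intro h i
    by_cases hi : i ∈ ((Algebra.TensorProduct.basis K b).repr x).support
    · exact h i hi
    · rw [Finsupp.notMem_support_iff] at hi
      have : co b x i = 0 := hi
      rw [this, map_zero]
      exact zero_le
  · intro h i _
    exact h i

theorem le_gn (x : K ⊗[k] F) (i : ι) : v (co b x i) ≤ gn v b x :=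
  (gn_le_iff v b x _).1 le_rfl i

theorem exists_gn {x : K ⊗[k] F} (hx : x ≠ 0) : ∃ i, co b x i ≠ 0 ∧ gn v b x = v (co b x i) := by
  have hne : ((Algebra.TensorProduct.basis K b).repr x).support.Nonempty := by
    rw [Finsupp.support_nonempty_iff]
    intro h
    exact hx ((Algebra.TensorProduct.basis K b).repr.map_eq_zero_iff.1 h)
  obtain ⟨i, hi, h⟩ := Finset.exists_mem_eq_sup' hne (fun i => v (co b x i))
  refine ⟨i, Finsupp.mem_support_iff.1 hi, ?_⟩
  rw [← h, Finset.sup'_eq_sup]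
  rfl

theorem gn_zero : gn v b (0 : K ⊗[k] F) = 0 := by
  have : gn v b (0 : K ⊗[k] F) ≤ 0 := by
    rw [gn_le_iff]
    intro i
    simp [co]
  exact le_antisymm this zero_le

theorem gn_ne_zero {x : K ⊗[k] F} (hx : x ≠ 0) : gn v b x ≠ 0 := by
  obtain ⟨i, hi, h⟩ := exists_gn v b hx
  rw [h]
  exact (Valuation.ne_zero_iff v).2 hi

theorem gn_add_le (x y : K ⊗[k] F) : gn v b (x + y) ≤ max (gn v b x) (gn v b y) := by
  rw [gn_le_iff]
  intro i
  rw [co_add]
  exact (v.map_add _ _).trans (max_le_max (le_gn v b x i) (le_gn v b y i))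

theorem gn_smul (q : K) (x : K ⊗[k] F) : gn v b (q • x) = v q * gn v b x := by
  apply le_antisymm
  · rw [gn_le_iff]
    intro i
    rw [co_smul, map_mul]
    gcongr
    exact le_gn v b x i
  · by_cases hx : x = 0
    · rw [hx, gn_zero, mul_zero]; exact zero_le
    · obtain ⟨i, -, h⟩ := exists_gn v b hx
      rw [h, ← map_mul, ← co_smul]
      exact le_gn v b _ i

theorem gn_neg (x : K ⊗[k] F) : gn v b (-x) = gn v b x := by
  rw [← neg_one_smul K x, gn_smul, Valuation.map_neg, map_one, one_mul]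

theorem gn_sub_le (x y : K ⊗[k] F) : gn v b (x - y) ≤ max (gn v b x) (gn v b y) := by
  rw [sub_eq_add_neg, ← gn_neg v b y]
  exact gn_add_le v b _ _

theorem gn_sum_le {σ : Type*} (s : Finset σ) (f : σ → K ⊗[k] F) (g : Γ₀)
    (h : ∀ i ∈ s, gn v b (f i) ≤ g) : gn v b (∑ i ∈ s, f i) ≤ g := by
  classical
  induction s using Finset.induction_on with
  | empty => rw [Finset.sum_empty, gn_zero]; exact zero_le
  | insert i s hi ih =>
    rw [Finset.sum_insert hi]
    refine (gn_add_le v b _ _).trans (max_le (h _ (Finset.mem_insert_self _ _)) ?_)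
    exact ih fun j hj => h _ (Finset.mem_insert_of_mem hj)

/-- an element of smaller norm does not matter -/
theorem gn_add_eq {x y : K ⊗[k] F} (h : gn v b y < gn v b x) : gn v b (x + y) = gn v b x := by
  apply le_antisymm
  · exact (gn_add_le v b x y).trans (max_le le_rfl h.le)
  · by_contra hcon
    push Not at hcon
    have h1 : gn v b x ≤ max (gn v b (x + y)) (gn v b y) := by
      have := gn_sub_le v b (x + y) y
      rwa [add_sub_cancel_right] at this
    exact absurd (h1.trans_lt (max_lt hcon h)) (lt_irrefl _)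

variable (hk : ∀ c : k, c ≠ 0 → v (algebraMap k K c) = 1)
include hk

theorem v_le_one (c : k) : v (algebraMap k K c) ≤ 1 := by
  by_cases hc : c = 0
  · rw [hc, map_zero, map_zero]; exact zero_le
  · exact (hk c hc).le

theorem gn_tmul_le (q : K) (f : F) : gn v b (q ⊗ₜ[k] f) ≤ v q := by
  rw [gn_le_iff]
  intro i
  rw [co_tmul, map_mul]
  calc v q * v (algebraMap k K (b.repr f i)) ≤ v q * 1 := by
        gcongr
        exact v_le_one v hk _
    _ = v q := mul_one _

theorem gn_tmul (q : K) {f : F} (hf : f ≠ 0) : gn v b (q ⊗ₜ[k] f) = v q := by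
  apply le_antisymm (gn_tmul_le v b hk q f)
  have : b.repr f ≠ 0 := fun h => hf (b.repr.map_eq_zero_iff.1 h)
  obtain ⟨i, hi⟩ := Finsupp.ne_iff.1 this
  have h1 := le_gn v b (q ⊗ₜ[k] f) i
  rwa [co_tmul, map_mul, hk _ hi, mul_one] at h1

theorem gn_mul_le (x y : K ⊗[k] F) : gn v b (x * y) ≤ gn v b x * gn v b y := by
  classical
  have hx := (Algebra.TensorProduct.basis K b).linearCombination_repr x
  have hy := (Algebra.TensorProduct.basis K b).linearCombination_repr y
  rw [Finsupp.linearCombination_apply, Finsupp.sum] at hx hy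
  conv_lhs => rw [← hx, ← hy]
  rw [Finset.sum_mul]
  apply gn_sum_le
  intro i _
  rw [Finset.mul_sum]
  apply gn_sum_le
  intro j _
  rw [smul_mul_smul_comm, gn_smul, Algebra.TensorProduct.basis_apply, Algebra.TensorProduct.basis_apply,
    Algebra.TensorProduct.tmul_mul_tmul, mul_one, map_mul]
  have h1 := gn_tmul_le v b hk 1 (b i * b j)
  rw [map_one] at h1
  calc v _ * v _ * gn v b ((1 : K) ⊗ₜ[k] (b i * b j)) ≤ v _ * v _ * 1 := by gcongr
    _ ≤ gn v b x * gn v b y := by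
      rw [mul_one]
      exact mul_le_mul' (le_gn v b x i) (le_gn v b y j)

theorem red (hres : ∀ x, v x ≤ 1 → ∃ c : k, v (x - algebraMap k K c) < 1) (x : K ⊗[k] F)
    (hx : gn v b x = 1) : ∃ f : F, f ≠ 0 ∧ gn v b (x - 1 ⊗ₜ[k] f) < 1 := by
  classical
  have h1 : ∀ i, ∃ c : k, v (co b x i - algebraMap k K c) < 1 ∧ (co b x i = 0 → c = 0) := by
    intro i
    by_cases h0 : co b x i = 0
    · exact ⟨0, by rw [h0, map_zero, sub_zero, map_zero]; exact zero_lt_one, fun _ => rfl⟩
    · obtain ⟨c, hc⟩ := hres (co b x i) ((le_gn v b x i).trans hx.le)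
      exact ⟨c, hc, fun h => absurd h h0⟩
  choose c hc hc0 using h1
  let g : ι →₀ k := Finsupp.onFinset ((Algebra.TensorProduct.basis K b).repr x).support c (by
    intro i hi
    rw [Finsupp.mem_support_iff]
    exact fun h => hi (hc0 i h))
  let f : F := b.repr.symm g
  have hrf : ∀ i, b.repr f i = c i := by
    intro i
    simp [f, g]
  have hlt : gn v b (x - 1 ⊗ₜ[k] f) < 1 := by
    by_cases h0 : x - 1 ⊗ₜ[k] f = 0
    · rw [h0, gn_zero]; exact zero_lt_one
    · obtain ⟨i, -, hi⟩ := exists_gn v b h0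
      rw [hi, sub_eq_add_neg, ← tmul_neg, co_add, co_tmul, map_neg, one_mul, Finsupp.neg_apply, hrf,
        map_neg, ← sub_eq_add_neg]
      exact hc i
  refine ⟨f, ?_, hlt⟩
  intro hf
  rw [hf, tmul_zero, sub_zero, hx] at hlt
  exact lt_irrefl _ hlt

theorem gn_mul (hres : ∀ x, v x ≤ 1 → ∃ c : k, v (x - algebraMap k K c) < 1) (x y : K ⊗[k] F) :
    gn v b (x * y) = gn v b x * gn v b y := by
  by_cases hx : x = 0
  · rw [hx, zero_mul, gn_zero, zero_mul]
  by_cases hy : y = 0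
  · rw [hy, mul_zero, gn_zero, mul_zero]
  obtain ⟨i, hi, hxi⟩ := exists_gn v b hx
  obtain ⟨j, hj, hyj⟩ := exists_gn v b hy
  set q := co b x i with hq
  set r := co b y j with hr
  have hvq : v q ≠ 0 := (Valuation.ne_zero_iff v).2 hi
  have hvr : v r ≠ 0 := (Valuation.ne_zero_iff v).2 hj
  have h1 : gn v b (q⁻¹ • x) = 1 := by rw [gn_smul, hxi, map_inv₀, inv_mul_cancel₀ hvq]
  have h2 : gn v b (r⁻¹ • y) = 1 := by rw [gn_smul, hyj, map_inv₀, inv_mul_cancel₀ hvr]
  obtain ⟨f, hf, hf'⟩ := red v b hk hres _ h1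
  obtain ⟨g, hg, hg'⟩ := red v b hk hres _ h2
  have h3 : gn v b ((q⁻¹ • x) * (r⁻¹ • y)) = 1 := by
    have e : (q⁻¹ • x) * (r⁻¹ • y) = 1 ⊗ₜ[k] (f * g) +
        ((q⁻¹ • x - 1 ⊗ₜ[k] f) * (r⁻¹ • y) + (1 ⊗ₜ[k] f) * (r⁻¹ • y - 1 ⊗ₜ[k] g)) := by
      have : ((1 : K) ⊗ₜ[k] (f * g) : K ⊗[k] F) = (1 ⊗ₜ[k] f) * (1 ⊗ₜ[k] g) := by
        rw [Algebra.TensorProduct.tmul_mul_tmul, mul_one]
      rw [this]
      ring
    have hfg : gn v b ((1 : K) ⊗ₜ[k] (f * g)) = 1 := by
      rw [gn_tmul v b hk 1 (mul_ne_zero hf hg), map_one]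
    rw [e, gn_add_eq, hfg]
    rw [hfg]
    refine (gn_add_le v b _ _).trans_lt (max_lt ?_ ?_)
    · refine (gn_mul_le v b hk _ _).trans_lt ?_
      rw [h2, mul_one]
      exact hf'
    · refine (gn_mul_le v b hk _ _).trans_lt ?_
      have := gn_tmul_le v b hk 1 f
      rw [map_one] at this
      calc gn v b ((1 : K) ⊗ₜ[k] f) * gn v b (r⁻¹ • y - 1 ⊗ₜ[k] g)
          ≤ 1 * gn v b (r⁻¹ • y - 1 ⊗ₜ[k] g) := by gcongr
        _ < 1 := by rw [one_mul]; exact hg'
  rw [smul_mul_smul_comm, gn_smul, map_mul, map_inv₀, map_inv₀] at h3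
  rw [hxi, hyj]
  field_simp at h3 ⊢
  exact h3

end

end Pool.Agent.ZFR
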