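import Mathlib

/-! # `n` generic equations isolate the isolated points -/

namespace Pool.Agent.ZFR

open MvPolynomial

noncomputable section

variable {k : Type*} [Field k] {n : ℕ}

/-- the ideal of a point -/
def pt (c : Fin n → k) : Ideal (MvPolynomial (Fin n) k) := RingHom.ker (eval c)

theorem mem_pt {c : Fin n → k} {P : MvPolynomial (Fin n) k} : P ∈ pt c ↔ eval c P = 0 := Iff.rfl

instance (c : Fin n → k) : (pt c).IsPrime := RingHom.ker_isPrime _

/-- `P ≡ P(c)` modulo the linear forms -/
theorem sub_eval_mem (c : Fin n → k) (P : MvPolynomial (Fin n) k) :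
    P - C (eval c P) ∈ Ideal.span (Set.range fun i => (X i - C (c i) : MvPolynomial (Fin n) k)) := by
  set I := Ideal.span (Set.range fun i => (X i - C (c i) : MvPolynomial (Fin n) k)) with hI
  have h1 : (Ideal.Quotient.mkₐ k I) = (Algebra.ofId k (MvPolynomial (Fin n) k ⧸ I)).comp
      (aeval c : MvPolynomial (Fin n) k →ₐ[k] k) := by
    ext i
    rw [AlgHom.comp_apply, aeval_X, Algebra.ofId_apply]
    have h2 : (X i - C (c i) : MvPolynomial (Fin n) k) ∈ I := Ideal.subset_span ⟨i, rfl⟩
    have h3 := Ideal.Quotient.eq_zero_iff_mem.2 h2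
    rw [map_sub, sub_eq_zero] at h3
    exact h3
  have h4 := congrArg (fun φ => φ P) h1
  simp only [AlgHom.comp_apply, Algebra.ofId_apply] at h4
  rw [← Ideal.Quotient.eq_zero_iff_mem, map_sub, sub_eq_zero]
  exact h4

theorem pt_eq_span (c : Fin n → k) :
    pt c = Ideal.span (Set.range fun i => (X i - C (c i) : MvPolynomial (Fin n) k)) := by
  apply le_antisymm
  · intro P hP
    have h := sub_eval_mem c P
    rw [mem_pt.1 hP, map_zero, sub_zero] at h
    exact h
  · rw [Ideal.span_le]
    rintro _ ⟨i, rfl⟩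
    rw [SetLike.mem_coe, mem_pt, map_sub, eval_X, eval_C, sub_self]

theorem height_pt_le (c : Fin n → k) : (pt c).height ≤ n := by
  classical
  have h1 : pt c ∈ (Ideal.span ((Finset.univ.image
      fun i => (X i - C (c i) : MvPolynomial (Fin n) k) : Finset _) :
        Set (MvPolynomial (Fin n) k))).minimalPrimes := by
    rw [Finset.coe_image, Finset.coe_univ, Set.image_univ, ← pt_eq_span]
    exact ⟨⟨inferInstance, le_rfl⟩, fun q hq _ => hq.2⟩
  refine (Ideal.height_le_card_of_mem_minimalPrimes_span_finset h1).trans ?_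
  have := (Finset.card_image_le (s := (Finset.univ : Finset (Fin n)))
    (f := fun i => (X i - C (c i) : MvPolynomial (Fin n) k)))
  rw [Finset.card_univ, Fintype.card_fin] at this
  exact_mod_cast this

/-- isolation of the points of `S` in the zero set of `W` -/
def Isolates (W : Set (MvPolynomial (Fin n) k)) (c : Fin n → k) : Prop :=
  ∀ q : Ideal (MvPolynomial (Fin n) k), q.IsPrime → W ⊆ q → q ≤ pt c → q = pt c

theorem generic_step [Infinite k] (W : Submodule k (MvPolynomial (Fin n) k))
    (S : Finset (Fin n → k)) (hiso : ∀ c ∈ S, Isolates (W : Set (MvPolynomial (Fin n) k)) c) (s : ℕ) :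
    ∃ h : Finset (MvPolynomial (Fin n) k), h.card ≤ s ∧ (h : Set (MvPolynomial (Fin n) k)) ⊆ W ∧
      ∀ c ∈ S, ∀ q ∈ (Ideal.span (h : Set (MvPolynomial (Fin n) k))).minimalPrimes, q ≤ pt c →
        q = pt c ∨ (s : ℕ∞) ≤ q.height := by
  classical
  induction s with
  | zero => exact ⟨∅, by simp, by simp, fun c _ q _ _ => Or.inr (by simp)⟩
  | succ s ih =>
    obtain ⟨h, hcard, hW, hh⟩ := ih
    set I := Ideal.span (h : Set (MvPolynomial (Fin n) k)) with hI
    have hfin := Ideal.finite_minimalPrimes_of_isNoetherianRing (MvPolynomial (Fin n) k) I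
    let Bad : Finset (Ideal (MvPolynomial (Fin n) k)) :=
      hfin.toFinset.filter fun q => ∃ c ∈ S, q ≤ pt c ∧ q ≠ pt c
    -- the subspaces
    let sub : Ideal (MvPolynomial (Fin n) k) → Subspace k W :=
      fun q => (q.restrictScalars k).comap W.subtype
    have hne : (⊤ : Subspace k W) ∉ Bad.image sub := by
      intro hmem
      obtain ⟨q, hq, hqt⟩ := Finset.mem_image.1 hmem
      obtain ⟨hq1, c, hc, hqc, hqne⟩ := Finset.mem_filter.1 hq
      apply hqne
      have hqmin := hfin.mem_toFinset.1 hq1
      refine hiso c hc q hqmin.1.1 ?_ hqc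
      intro x hx
      have : (⟨x, hx⟩ : W) ∈ sub q := by rw [hqt]; trivial
      exact this
    have h1 := Subspace.biUnion_ne_univ_of_top_notMem hne
    obtain ⟨H, hH⟩ := (Set.ne_univ_iff_exists_notMem _).1 h1
    refine ⟨insert (H : MvPolynomial (Fin n) k) h, ?_, ?_, ?_⟩
    · exact (Finset.card_insert_le _ _).trans (by omega)
    · rw [Finset.coe_insert]
      exact Set.insert_subset H.2 hW
    · intro c hc q hq hqc
      have hqp : q.IsPrime := hq.1.1
      have hIq : I ≤ q := by
        refine le_trans ?_ hq.1.2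
        apply Ideal.span_mono
        rw [Finset.coe_insert]
        exact Set.subset_insert _ _
      obtain ⟨p, hp, hpq⟩ := Ideal.exists_minimalPrimes_le hIq
      have hpp : p.IsPrime := hp.1.1
      have hHq : (H : MvPolynomial (Fin n) k) ∈ q := hq.1.2 (Ideal.subset_span (by simp))
      rcases hh c hc p hp (hpq.trans hqc) with h2 | h2
      · left
        exact le_antisymm hqc (h2 ▸ hpq)
      · by_cases hpe : p = pt c
        · left
          exact le_antisymm hqc (hpe ▸ hpq)
        · right
          have hHp : (H : MvPolynomial (Fin n) k) ∉ p := by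
            intro hmem
            apply hH
            rw [Set.mem_iUnion₂]
            refine ⟨sub p, Finset.mem_image.2 ⟨p, ?_, rfl⟩, hmem⟩
            exact Finset.mem_filter.2 ⟨hfin.mem_toFinset.2 hp, c, hc, hpq.trans hqc, hpe⟩
          have hlt : p < q := lt_of_le_of_ne hpq (fun h => hHp (h ▸ hHq))
          have h3 := Ideal.height_add_one_le_of_lt_of_isPrime hlt
          push_cast
          refine le_trans ?_ h3
          gcongr

/-- `n` elements of `W` isolate all the points of `S` -/
theorem generic [Infinite k] (W : Submodule k (MvPolynomial (Fin n) k))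
    (S : Finset (Fin n → k)) (hiso : ∀ c ∈ S, Isolates (W : Set (MvPolynomial (Fin n) k)) c) :
    ∃ h : Finset (MvPolynomial (Fin n) k), h.card ≤ n ∧ (h : Set (MvPolynomial (Fin n) k)) ⊆ W ∧
      ∀ c ∈ S, Isolates (h : Set (MvPolynomial (Fin n) k)) c := by
  obtain ⟨h, hcard, hW, hh⟩ := generic_step W S hiso n
  refine ⟨h, hcard, hW, ?_⟩
  intro c hc q hq hhq hqc
  obtain ⟨p, hp, hpq⟩ := Ideal.exists_minimalPrimes_le (Ideal.span_le.2 hhq)
  have hpp : p.IsPrime := hp.1.1
  have hpc : p = pt c := by
    by_contra hne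
    rcases hh c hc p hp (hpq.trans hqc) with h2 | h2
    · exact hne h2
    · have hlt : p < pt c := lt_of_le_of_ne (hpq.trans hqc) hne
      have h3 := Ideal.height_add_one_le_of_lt_of_isPrime hlt
      have h4 := h3.trans (height_pt_le c)
      have h5 : (n : ℕ∞) + 1 ≤ n := le_trans (by gcongr) h4
      exact absurd h5 (by
        rw [not_le]
        exact_mod_cast Nat.lt_succ_self n)
  exact le_antisymm hqc (hpc ▸ hpq)

end

end Pool.Agent.ZFR
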