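import Pool.Agent.ZFR.Place
import Pool.Agent.ZFR.Gauss

/-! # Isolation -/

namespace Pool.Agent.ZFR

open TensorProduct MvPolynomial

noncomputable section

/-! ### the estimate at one place -/
section ode
variable {k F K : Type*} [Field k] [CharZero k] [Field F] [Field K] [Algebra k F] [Algebra k K]
  {Γ₀ : Type*} [LinearOrderedCommGroupWithZero Γ₀] (v : Valuation K Γ₀)
  {ι : Type*} (b : Module.Basis ι k F)

theorem gn_k_smul (hk : ∀ c : k, c ≠ 0 → v (algebraMap k K c) = 1) (c : k) (hc : c ≠ 0)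
    (x : K ⊗[k] F) : gn v b (c • x) = gn v b x := by
  rw [← algebraMap_smul K c x, gn_smul, hk c hc, one_mul]

theorem gn_baseChange_le (hk : ∀ c : k, c ≠ 0 → v (algebraMap k K c) = 1) (D : F →ₗ[k] F)
    (x : K ⊗[k] F) : gn v b (D.baseChange K x) ≤ gn v b x := by
  have hx := (Algebra.TensorProduct.basis K b).linearCombination_repr x
  rw [Finsupp.linearCombination_apply, Finsupp.sum] at hx
  conv_lhs => rw [← hx]
  rw [map_sum]
  apply gn_sum_le
  intro i _
  rw [map_smul, gn_smul, Algebra.TensorProduct.basis_apply, LinearMap.baseChange_tmul]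
  have h1 := gn_tmul_le v b hk 1 (D (b i))
  rw [map_one] at h1
  calc v _ * gn v b ((1 : K) ⊗ₜ[k] (D (b i))) ≤ v _ * 1 := by gcongr
    _ ≤ gn v b x := by
      rw [mul_one]
      exact le_gn v b x i

/-- the main estimate -/
theorem ode (hk : ∀ c : k, c ≠ 0 → v (algebraMap k K c) = 1)
    (hres : ∀ x, v x ≤ 1 → ∃ c : k, v (x - algebraMap k K c) < 1) (D : F →ₗ[k] F)
    (e1 e2 e3 : k) (h12 : e1 ≠ e2) (h13 : e1 ≠ e3) (h23 : e2 ≠ e3) (A B : K ⊗[k] F)
    (hN0 : A * D.baseChange K B - B * D.baseChange K A ≠ 0)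
    (hode : (A * D.baseChange K B - B * D.baseChange K A) ^ 2 =
      (4 : k) • (A ^ 3 * ((B - e1 • A) * (B - e2 • A) * (B - e3 • A)))) :
    gn v b A ≤ 1 ∧ (1 < gn v b B → gn v b A < 1) := by
  set δ := D.baseChange K with hδ
  set N := A * δ B - B * δ A with hN
  have hmul := gn_mul v b hk hres
  have hpow : ∀ (x : K ⊗[k] F) (m : ℕ), gn v b (x ^ (m + 1)) = gn v b x ^ (m + 1) := by
    intro x m
    induction m with
    | zero => simp
    | succ m ih => rw [pow_succ, hmul, ih, ← pow_succ]
  have hA0 : A ≠ 0 := by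
    intro h
    apply hN0
    rw [hN, h, map_zero]
    ring
  have hα0 : gn v b A ≠ 0 := gn_ne_zero v b hA0
  have hν0 : gn v b N ≠ 0 := gn_ne_zero v b hN0
  set α := gn v b A with hα
  set β := gn v b B with hβ
  set ν := gn v b N with hν
  have hαpos : 0 < α := zero_lt_iff.2 hα0
  have hνpos : 0 < ν := zero_lt_iff.2 hν0
  -- `N = A δ(B - e A) - (B - e A) δ A`
  have hNe : ∀ e : k, N = A * δ (B - e • A) - (B - e • A) * δ A := by
    intro e
    have h1 : δ (B - e • A) = δ B - e • δ A := by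
      rw [map_sub, ← algebraMap_smul K e A, map_smul, algebraMap_smul]
    rw [h1, hN, mul_sub, sub_mul, mul_smul_comm, smul_mul_assoc]
    ring
  have hNle : ∀ e : k, ν ≤ α * gn v b (B - e • A) := by
    intro e
    rw [hν, hNe e]
    refine (gn_sub_le v b _ _).trans (max_le ?_ ?_)
    · rw [hmul]
      gcongr
      exact gn_baseChange_le v b hk D _
    · rw [hmul, mul_comm]
      gcongr
      exact gn_baseChange_le v b hk D _
  have hν2 : ν ^ 2 = α ^ 3 * (gn v b (B - e1 • A) * gn v b (B - e2 • A) * gn v b (B - e3 • A)) := by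
    have h1 := congrArg (gn v b) hode
    rw [gn_k_smul v b hk 4 (by norm_num), hpow N 1, hmul, hpow A 2, hmul, hmul] at h1
    exact h1
  have heA : ∀ e : k, gn v b (e • A) ≤ α := by
    intro e
    by_cases he : e = 0
    · rw [he, zero_smul, gn_zero]; exact zero_le
    · rw [gn_k_smul v b hk e he]
  by_cases hcase : α < β
  · -- pole of `B / A`
    have hBe : ∀ e : k, gn v b (B - e • A) = β := by
      intro e
      rw [sub_eq_add_neg, gn_add_eq]
      rw [gn_neg]
      exact (heA e).trans_lt hcase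
    have h1 : ν ≤ α * β := by
      have := hNle e1
      rwa [hBe] at this
    rw [hBe, hBe, hBe] at hν2
    have hβpos : 0 < β := hαpos.trans hcase
    have h2 : (α * β) * (α * β) ^ 2 ≤ 1 * (α * β) ^ 2 := by
      rw [one_mul]
      calc (α * β) * (α * β) ^ 2 = ν ^ 2 := by rw [hν2]; (simp only [pow_succ, pow_zero, one_mul]; ac_rfl)
        _ ≤ (α * β) ^ 2 := by gcongr
    have hpos : 0 < (α * β) ^ 2 := pow_pos (mul_pos hαpos hβpos) 2
    have h3 : α * β ≤ 1 := by
      by_contra hcon
      push Not at hcon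
      exact absurd h2 (not_le.2 (mul_lt_mul_of_pos_right hcon hpos))
    have h4 : α * α < 1 := lt_of_lt_of_le (mul_lt_mul_of_pos_left hcase hαpos) h3
    have h5 : α < 1 := by
      by_contra hcon
      push Not at hcon
      exact absurd h4 (not_lt.2 (one_le_mul_of_one_le_of_one_le hcon hcon))
    exact ⟨h5.le, fun _ => h5⟩
  · push Not at hcase
    have hle : ∀ e : k, gn v b (B - e • A) ≤ α := fun e =>
      (gn_sub_le v b _ _).trans (max_le hcase (heA e))
    -- two of the three are equal to `α`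
    have htwo : ∀ e e' : k, e ≠ e' → gn v b (B - e • A) = α ∨ gn v b (B - e' • A) = α := by
      intro e e' hee
      by_contra hcon
      push Not at hcon
      obtain ⟨h1, h2⟩ := hcon
      have h3 := lt_of_le_of_ne (hle e) h1
      have h4 := lt_of_le_of_ne (hle e') h2
      have h5 : gn v b ((e' - e) • A) = α := gn_k_smul v b hk _ (sub_ne_zero.2 (Ne.symm hee)) A
      have h6 : (e' - e) • A = (B - e • A) - (B - e' • A) := by
        rw [sub_smul]; ring
      rw [h6] at h5
      have h7 := gn_sub_le v b (B - e • A) (B - e' • A)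
      rw [h5] at h7
      exact absurd h7 (not_le.2 (max_lt h3 h4))
    -- so `ν² = α⁵ μ` with `ν ≤ α μ`, `μ ≤ α`
    obtain ⟨e, he⟩ : ∃ e : k, ν ^ 2 = α ^ 5 * gn v b (B - e • A) := by
      rcases htwo e1 e2 h12 with h | h
      · rcases htwo e2 e3 h23 with h' | h'
        · exact ⟨e3, by rw [hν2, h, h']; (simp only [pow_succ, pow_zero, one_mul]; ac_rfl)⟩
        · exact ⟨e2, by rw [hν2, h, h']; (simp only [pow_succ, pow_zero, one_mul]; ac_rfl)⟩
      · rcases htwo e1 e3 h13 with h' | h'
        · exact ⟨e3, by rw [hν2, h, h']; (simp only [pow_succ, pow_zero, one_mul]; ac_rfl)⟩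
        · exact ⟨e1, by rw [hν2, h, h']; (simp only [pow_succ, pow_zero, one_mul]; ac_rfl)⟩
    set μ := gn v b (B - e • A) with hμ
    have hμ0 : μ ≠ 0 := by
      intro h
      rw [h, mul_zero] at he
      exact hν0 (pow_eq_zero_iff two_ne_zero |>.1 he)
    have hμpos : 0 < μ := zero_lt_iff.2 hμ0
    have h1 := hNle e
    rw [← hμ] at h1
    have h2 : α ^ 5 * μ ≤ (α * μ) ^ 2 := by
      rw [← he]
      gcongr
    have h3 : (α * α) * (α ^ 3 * μ) ≤ 1 * (α ^ 3 * μ) := by
      rw [one_mul]
      calc (α * α) * (α ^ 3 * μ) = α ^ 5 * μ := by (simp only [pow_succ, pow_zero, one_mul]; ac_rfl)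
        _ ≤ (α * μ) ^ 2 := h2
        _ = α ^ 2 * (μ * μ) := by (simp only [pow_succ, pow_zero, one_mul]; ac_rfl)
        _ ≤ α ^ 2 * (α * μ) := by gcongr; exact hle e
        _ = α ^ 3 * μ := by (simp only [pow_succ, pow_zero, one_mul]; ac_rfl)
    have hpos : 0 < α ^ 3 * μ := mul_pos (pow_pos hαpos 3) hμpos
    have h4 : α * α ≤ 1 := by
      by_contra hcon
      push Not at hcon
      exact absurd h3 (not_le.2 (mul_lt_mul_of_pos_right hcon hpos))
    have h5 : α ≤ 1 := by
      by_contra hcon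
      push Not at hcon
      exact absurd h4 (not_le.2 (one_lt_mul'' hcon hcon))
    exact ⟨h5, fun h => absurd (h.trans_le (hcase.trans h5)) (lt_irrefl _)⟩

end ode

end

end Pool.Agent.ZFR
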