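import Pool.Agent.ZFR.Iso

/-! # Isolation, part 2: solutions over the constants are isolated -/

namespace Pool.Agent.ZFR

open TensorProduct MvPolynomial

noncomputable section

variable {k F K : Type*} [Field k] [Field F] [Field K] [Algebra k F] [Algebra k K] {n : ℕ}

/-- coefficientwise application of a functional -/
def cf (l : F →ₗ[k] k) (G : MvPolynomial (Fin n) F) : MvPolynomial (Fin n) k :=
  ∑ m ∈ G.support, monomial m (l (coeff m G))

theorem coeff_cf (l : F →ₗ[k] k) (G : MvPolynomial (Fin n) F) (m : Fin n →₀ ℕ) :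
    coeff m (cf l G) = l (coeff m G) := by
  classical
  unfold cf
  rw [coeff_sum]
  simp only [coeff_monomial]
  rw [Finset.sum_ite_eq']
  split_ifs with h
  · rfl
  · rw [notMem_support_iff] at h
    rw [h, map_zero]

theorem cf_add (l : F →ₗ[k] k) (G H : MvPolynomial (Fin n) F) : cf l (G + H) = cf l G + cf l H := by
  ext m
  rw [coeff_add, coeff_cf, coeff_cf, coeff_cf, coeff_add, map_add]

theorem cf_monomial (l : F →ₗ[k] k) (m : Fin n →₀ ℕ) (f : F) :
    cf l (monomial m f) = monomial m (l f) := by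
  classical
  ext m'
  rw [coeff_cf, coeff_monomial, coeff_monomial]
  split_ifs with h
  · rfl
  · rw [map_zero]

theorem totalDegree_cf_le (l : F →ₗ[k] k) (G : MvPolynomial (Fin n) F) :
    (cf l G).totalDegree ≤ G.totalDegree := by
  unfold MvPolynomial.totalDegree
  apply Finset.sup_mono
  intro m hm
  rw [mem_support_iff] at hm ⊢
  intro h
  apply hm
  rw [coeff_cf, h, map_zero]

/-- evaluation at a `K`-point, with values in `K ⊗ F` -/
def evT (γ : Fin n → K) : MvPolynomial (Fin n) F →+* K ⊗[k] F :=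
  eval₂Hom (Algebra.TensorProduct.includeRight (R := k) (A := K) (B := F)).toRingHom
    (fun i => γ i ⊗ₜ[k] 1)

theorem evT_monomial (γ : Fin n → K) (m : Fin n →₀ ℕ) (f : F) :
    evT (k := k) γ (monomial m f) = (m.prod fun i e => γ i ^ e) ⊗ₜ[k] f := by
  unfold evT
  rw [coe_eval₂Hom, eval₂_monomial]
  have h1 : (m.prod fun i e => (γ i ⊗ₜ[k] (1 : F) : K ⊗[k] F) ^ e) =
      (m.prod fun i e => γ i ^ e) ⊗ₜ[k] 1 := by
    simp only [Algebra.TensorProduct.tmul_pow, one_pow]
    simp only [Finsupp.prod]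
    have h2 : ∀ x : K, (x ⊗ₜ[k] (1 : F) : K ⊗[k] F) =
        Algebra.TensorProduct.includeLeft (R := k) (S := k) (A := K) (B := F) x := fun x => rfl
    simp only [h2]
    rw [map_prod]
  rw [h1]
  change ((1 : K) ⊗ₜ[k] f : K ⊗[k] F) * _ = _
  rw [Algebra.TensorProduct.tmul_mul_tmul, one_mul, mul_one]

theorem co_evT {ι : Type*} (b : Module.Basis ι k F) (γ : Fin n → K) (G : MvPolynomial (Fin n) F)
    (i : ι) : co b (evT (k := k) γ G) i = aeval γ (cf (b.coord i) G) := by
  induction G using MvPolynomial.induction_on' with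
  | monomial m f =>
    rw [evT_monomial, co_tmul, cf_monomial, aeval_monomial, mul_comm]
    rfl
  | add p q hp hq => rw [map_add, co_add, hp, hq, cf_add, map_add]

/-- linear form -/
def LF (a : Fin n → F) : MvPolynomial (Fin n) F := ∑ i, C (a i) * X i

theorem evT_LF (γ : Fin n → K) (a : Fin n → F) :
    evT (k := k) γ (LF a) = ∑ i, γ i ⊗ₜ[k] a i := by
  unfold LF evT
  rw [map_sum]
  apply Finset.sum_congr rfl
  intro i _
  rw [map_mul, coe_eval₂Hom, eval₂_C, eval₂_X]
  change ((1 : K) ⊗ₜ[k] (a i) : K ⊗[k] F) * (γ i ⊗ₜ[k] (1 : F)) = _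
  rw [Algebra.TensorProduct.tmul_mul_tmul, one_mul, mul_one]

theorem evT_smulC (γ : Fin n → K) (e : k) (P : MvPolynomial (Fin n) F) :
    evT (k := k) γ (C (algebraMap k F e) * P) = e • evT (k := k) γ P := by
  rw [map_mul]
  have : evT (k := k) γ (C (algebraMap k F e)) = algebraMap k (K ⊗[k] F) e := by
    unfold evT
    rw [coe_eval₂Hom, eval₂_C]
    exact Algebra.TensorProduct.includeRight.commutes e
  rw [this, Algebra.smul_def]

/-- `N = A DB - B DA` -/
def NP (D : F → F) (a b : Fin n → F) : MvPolynomial (Fin n) F :=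
  LF a * LF (fun i => D (b i)) - LF b * LF (fun i => D (a i))

/-- the equation -/
def GP (D : F → F) (e1 e2 e3 : k) (a b : Fin n → F) : MvPolynomial (Fin n) F :=
  NP D a b ^ 2 - C 4 * (LF a ^ 3 * ((LF b - C (algebraMap k F e1) * LF a) *
    (LF b - C (algebraMap k F e2) * LF a) * (LF b - C (algebraMap k F e3) * LF a)))

theorem LF_deg (a : Fin n → F) : (LF a).totalDegree ≤ 1 := by
  unfold LF
  refine (totalDegree_finsetSum _ _).trans ?_
  rw [Finset.sup_le_iff]
  intro i _
  refine (totalDegree_mul _ _).trans ?_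
  rw [totalDegree_C, zero_add, totalDegree_X]

theorem NP_deg (D : F → F) (a b : Fin n → F) : (NP D a b).totalDegree ≤ 2 := by
  unfold NP
  refine (totalDegree_sub _ _).trans (max_le ?_ ?_)
  · refine (totalDegree_mul _ _).trans ?_
    have h1 := LF_deg a
    have h2 := LF_deg fun i => D (b i)
    omega
  · refine (totalDegree_mul _ _).trans ?_
    have h1 := LF_deg b
    have h2 := LF_deg fun i => D (a i)
    omega

theorem GP_deg (D : F → F) (e1 e2 e3 : k) (a b : Fin n → F) :
    (GP D e1 e2 e3 a b).totalDegree ≤ 6 := by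
  unfold GP
  have hB : ∀ e : k, (LF b - C (algebraMap k F e) * LF a).totalDegree ≤ 1 := by
    intro e
    refine (totalDegree_sub _ _).trans (max_le (LF_deg b) ?_)
    refine (totalDegree_mul _ _).trans ?_
    rw [totalDegree_C, zero_add]
    exact LF_deg a
  refine (totalDegree_sub _ _).trans (max_le ?_ ?_)
  · refine (totalDegree_pow _ _).trans ?_
    have := NP_deg D a b
    omega
  · refine (totalDegree_mul _ _).trans ?_
    rw [totalDegree_C, zero_add]
    refine (totalDegree_mul _ _).trans ?_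
    have h1 := totalDegree_pow (LF a) 3
    have h2 := LF_deg a
    have h3 := totalDegree_mul ((LF b - C (algebraMap k F e1) * LF a) *
      (LF b - C (algebraMap k F e2) * LF a)) (LF b - C (algebraMap k F e3) * LF a)
    have h4 := totalDegree_mul (LF b - C (algebraMap k F e1) * LF a)
      (LF b - C (algebraMap k F e2) * LF a)
    have h5 := hB e1
    have h6 := hB e2
    have h7 := hB e3
    omega

/-! ### values at constant points -/

theorem eval_cf (l : F →ₗ[k] k) (G : MvPolynomial (Fin n) F) (c : Fin n → k) :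
    eval c (cf l G) = l (eval (fun i => algebraMap k F (c i)) G) := by
  induction G using MvPolynomial.induction_on' with
  | monomial m f =>
    rw [cf_monomial, eval_monomial, eval_monomial]
    have h1 : (m.prod fun i e => (algebraMap k F (c i)) ^ e) =
        algebraMap k F (m.prod fun i e => c i ^ e) := by
      simp only [Finsupp.prod, map_prod, map_pow]
    rw [h1, mul_comm f, ← Algebra.smul_def, map_smul, smul_eq_mul, mul_comm]
  | add p q hp hq => rw [cf_add, map_add, map_add, map_add, hp, hq]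

theorem eval_LF (a : Fin n → F) (c : Fin n → k) :
    eval (fun i => algebraMap k F (c i)) (LF a) = ∑ i, c i • a i := by
  unfold LF
  rw [map_sum]
  apply Finset.sum_congr rfl
  intro i _
  rw [map_mul, eval_C, eval_X, mul_comm, Algebra.smul_def]

theorem eval_LF_D (D : F →ₗ[k] F) (a : Fin n → F) (c : Fin n → k) :
    eval (fun i => algebraMap k F (c i)) (LF fun i => D (a i)) = D (∑ i, c i • a i) := by
  rw [eval_LF, map_sum]
  simp only [map_smul]

/-! ### isolation -/

/-- extension of a functional -/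
def fk (K : Type*) [Field K] [Algebra k K] (φ : F →ₗ[k] k) : K ⊗[k] F →ₗ[K] K :=
  (TensorProduct.AlgebraTensorModule.rid k K K).toLinearMap ∘ₗ φ.baseChange K

theorem fk_tmul (φ : F →ₗ[k] k) (q : K) (f : F) : fk K φ (q ⊗ₜ[k] f) = φ f • q := by
  simp [fk]

theorem exists_of_co {ι : Type*} (b : Module.Basis ι k F) (x : K ⊗[k] F)
    (h : ∀ i, ∃ c : k, algebraMap k K c = co b x i) : ∃ f : F, x = 1 ⊗ₜ[k] f := by
  classical
  choose c hc using h
  let g : ι →₀ k := Finsupp.onFinset ((Algebra.TensorProduct.basis K b).repr x).support c (by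
    intro i hi
    rw [Finsupp.mem_support_iff]
    intro h
    have h1 : co b x i = 0 := h
    rw [← hc i] at h1
    exact hi ((map_eq_zero _).1 h1))
  refine ⟨b.repr.symm g, co_ext b fun i => ?_⟩
  rw [co_tmul, one_mul, LinearEquiv.apply_symm_apply, ← hc i]
  rfl


/-- solutions over the constants are isolated -/
theorem isol [CharZero k] [IsAlgClosed k] (D : F →ₗ[k] F) (e1 e2 e3 : k) (h12 : e1 ≠ e2)
    (h13 : e1 ≠ e3) (h23 : e2 ≠ e3) (a b : Fin n → F)
    (hli : LinearIndependent k (fun i => ((a i, b i) : F × F))) (c : Fin n → k)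
    (hN : eval (fun i => algebraMap k F (c i)) (NP D a b) ≠ 0)
    (q : Ideal (MvPolynomial (Fin n) k)) [q.IsPrime]
    (hW : ∀ l : F →ₗ[k] k, cf l (GP D e1 e2 e3 a b) ∈ q)
    (hqc : ∀ P ∈ q, eval c P = 0) (P : MvPolynomial (Fin n) k) (hP : eval c P = 0) : P ∈ q := by
  classical
  -- the function field
  let R := MvPolynomial (Fin n) k ⧸ q
  let K := FractionRing R
  let γ : Fin n → K := fun i => algebraMap R K (Ideal.Quotient.mk q (X i))
  have hγ : ∀ Q : MvPolynomial (Fin n) k, aeval γ Q = algebraMap R K (Ideal.Quotient.mk q Q) := by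
    intro Q
    have h1 : (aeval γ : MvPolynomial (Fin n) k →ₐ[k] K) =
        (Algebra.ofId R K |>.restrictScalars k).comp (Ideal.Quotient.mkₐ k q) := by
      ext i
      simp [γ, Algebra.ofId_apply]
      rfl
    rw [h1]
    rfl
  have hγ0 : ∀ Q : MvPolynomial (Fin n) k, aeval γ Q = 0 ↔ Q ∈ q := by
    intro Q
    rw [hγ, map_eq_zero_iff _ (IsFractionRing.injective R K), Ideal.Quotient.eq_zero_iff_mem]
  let bF := Module.Basis.ofVectorSpace k F
  -- the equation in `K ⊗ F`
  have hG : evT (k := k) γ (GP D e1 e2 e3 a b) = 0 := by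
    apply co_ext bF
    intro i
    rw [co_evT, (hγ0 _).2 (hW _)]
    simp [co]
  have hN0 : evT (k := k) γ (NP D a b) ≠ 0 := by
    intro h0
    have h1 : ∃ i, bF.repr (eval (fun i => algebraMap k F (c i)) (NP D a b)) i ≠ 0 := by
      by_contra hcon
      push Not at hcon
      apply hN
      apply bF.repr.injective
      ext i
      rw [hcon i]
      simp
    obtain ⟨i, hi⟩ := h1
    have h2 : co bF (evT (k := k) γ (NP D a b)) i = 0 := by
      rw [h0]; simp [co]
    rw [co_evT, hγ0] at h2
    have h3 := hqc _ h2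
    rw [eval_cf] at h3
    exact hi h3
  set A : K ⊗[k] F := ∑ i, γ i ⊗ₜ[k] a i with hA
  set B : K ⊗[k] F := ∑ i, γ i ⊗ₜ[k] b i with hB
  have hAD : ∀ a : Fin n → F, D.baseChange K (∑ i, γ i ⊗ₜ[k] a i) =
      ∑ i, γ i ⊗ₜ[k] (D (a i)) := by
    intro a
    rw [map_sum]
    simp only [LinearMap.baseChange_tmul]
  have hNT : evT (k := k) γ (NP D a b) = A * D.baseChange K B - B * D.baseChange K A := by
    unfold NP
    rw [map_sub, map_mul, map_mul, evT_LF, evT_LF, evT_LF, evT_LF, hA, hB, hAD, hAD]
  rw [hNT] at hN0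
  have hode : (A * D.baseChange K B - B * D.baseChange K A) ^ 2 =
      (4 : k) • (A ^ 3 * ((B - e1 • A) * (B - e2 • A) * (B - e3 • A))) := by
    have h4 : (C (4 : F) : MvPolynomial (Fin n) F) = C (algebraMap k F 4) := by
      rw [map_ofNat (algebraMap k F)]
    unfold GP at hG
    rw [h4, map_sub, map_pow, hNT, evT_smulC, map_mul, map_pow, map_mul, map_mul, map_sub, map_sub,
      map_sub, evT_smulC, evT_smulC, evT_smulC, evT_LF, evT_LF, ← hA, ← hB, sub_eq_zero] at hG
    exact hG
  -- places
  have hplace : ∀ f : K, (∀ c : k, algebraMap k K c ≠ f) →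
      ∃ V : ValuationSubring K, (∀ c : k, c ≠ 0 → V.valuation (algebraMap k K c) = 1) ∧
        1 < V.valuation f ∧
        ∀ x, V.valuation x ≤ 1 → ∃ c : k, V.valuation (x - algebraMap k K c) < 1 := by
    intro f hf
    obtain ⟨V, h1, h2, h3⟩ := exists_place (k := k) f hf
    refine ⟨V, ?_, ?_, ?_⟩
    · intro c hc
      have h4 := (V.valuation_le_one_iff _).2 (h1 c)
      have h5 := (V.valuation_le_one_iff _).2 (h1 c⁻¹)
      rw [map_inv₀, map_inv₀] at h5
      have hne : V.valuation (algebraMap k K c) ≠ 0 := by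
        rw [Valuation.ne_zero_iff]
        exact (map_ne_zero _).2 hc
      refine le_antisymm h4 ?_
      exact (inv_le_one₀ (zero_lt_iff.2 hne)).1 h5
    · rw [← V.valuation_le_one_iff, not_le] at h2
      exact h2
    · intro x hx
      exact h3 x ((V.valuation_le_one_iff x).1 hx)
  -- coordinates of `A`
  have hAc : ∀ i, ∃ c : k, algebraMap k K c = co bF A i := by
    intro i
    by_contra hcon
    push Not at hcon
    obtain ⟨V, h1, h2, h3⟩ := hplace _ hcon
    have h4 := (ode V.valuation bF h1 h3 D e1 e2 e3 h12 h13 h23 A B hN0 hode).1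
    exact absurd ((le_gn V.valuation bF A i).trans h4) (not_le.2 h2)
  have hA0 : A ≠ 0 := by
    intro h
    apply hN0
    rw [h, map_zero]
    ring
  have hBc : ∀ i, ∃ c : k, algebraMap k K c = co bF B i := by
    intro i
    by_contra hcon
    push Not at hcon
    obtain ⟨V, h1, h2, h3⟩ := hplace _ hcon
    have h4 := (ode V.valuation bF h1 h3 D e1 e2 e3 h12 h13 h23 A B hN0 hode).2
      (h2.trans_le (le_gn V.valuation bF B i))
    obtain ⟨j, hj, hj'⟩ := exists_gn V.valuation bF hA0
    obtain ⟨c, hc⟩ := hAc j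
    rw [hj', ← hc, h1 c] at h4
    · exact lt_irrefl _ h4
    · rintro rfl
      rw [map_zero] at hc
      exact hj hc.symm
  -- the generic point is constant
  have hconst : ∀ i, ∃ t : k, algebraMap k K t = γ i := by
    intro i
    obtain ⟨ψ, hψ⟩ : ∃ ψ : F × F →ₗ[k] k, ∀ j, ψ (a j, b j) = if i = j then 1 else 0 := by
      obtain ⟨g, hg⟩ := LinearMap.exists_leftInverse_of_injective
        (Fintype.linearCombination k fun i => ((a i, b i) : F × F))
        (LinearMap.ker_eq_bot.2 hli.fintypeLinearCombination_injective)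
      refine ⟨(LinearMap.proj i).comp g, fun j => ?_⟩
      have h1 := congrArg (fun φ => φ (Pi.single j 1)) hg
      simp only [LinearMap.comp_apply, LinearMap.id_apply, Fintype.linearCombination_apply_single,
        one_smul] at h1
      rw [LinearMap.comp_apply, h1, LinearMap.proj_apply, Pi.single_apply]
    obtain ⟨f, hf⟩ := exists_of_co bF A hAc
    obtain ⟨g, hg⟩ := exists_of_co bF B hBc
    refine ⟨ψ (f, g), ?_⟩
    have h1 : ∀ (φ : F →ₗ[k] k) (a : Fin n → F), fk K φ (∑ j, γ j ⊗ₜ[k] a j) =
        ∑ j, φ (a j) • γ j := by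
      intro φ a
      rw [map_sum]
      simp only [fk_tmul]
    have h2 := h1 (ψ.comp (LinearMap.inl k F F)) a
    have h3 := h1 (ψ.comp (LinearMap.inr k F F)) b
    rw [← hA, hf, fk_tmul] at h2
    rw [← hB, hg, fk_tmul] at h3
    have h4 : ∀ x y : F, ψ (x, y) = (ψ.comp (LinearMap.inl k F F)) x +
        (ψ.comp (LinearMap.inr k F F)) y := by
      intro x y
      simp only [LinearMap.comp_apply, LinearMap.inl_apply, LinearMap.inr_apply]
      rw [← map_add, Prod.mk_add_mk, add_zero, zero_add]
    rw [h4 f g, map_add, Algebra.algebraMap_eq_smul_one, Algebra.algebraMap_eq_smul_one, h2, h3,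
      ← Finset.sum_add_distrib]
    simp only [← add_smul, ← h4, hψ]
    simp
  choose t ht using hconst
  have htc : ∀ i, t i = c i := by
    intro i
    have h1 : (X i - C (t i) : MvPolynomial (Fin n) k) ∈ q := by
      rw [← hγ0, map_sub, aeval_X, aeval_C, ht i, sub_self]
    have h2 := hqc _ h1
    rw [map_sub, eval_X, eval_C, sub_eq_zero] at h2
    exact h2.symm
  rw [← hγ0]
  have h5 : aeval γ P = algebraMap k K (eval c P) := by
    have h6 : γ = fun i => algebraMap k K (c i) := by
      ext i
      rw [← htc i, ht i]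
    rw [h6]
    have h7 := MvPolynomial.aeval_algebraMap_apply K c P
    rw [← MvPolynomial.coe_aeval_eq_eval]
    exact h7
  rw [h5, hP, map_zero]

end

end Pool.Agent.ZFR
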