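import Mathlib

/-! # Schneider's theorem for `℘` and `ζ`: numerics -/

namespace Pool.Agent.ZFR

/-- the bookkeeping at the end of the proof: `S = 8κ+12`, `N = 2κSm`, `T = 2κSm²`, `e ≥ T` -/
theorem nu_final (κ S : ℕ) (hκ : 1 ≤ κ) (hS : S = 8 * κ + 12) (C1 Cs Cc lM ls : ℝ) (hC1 : 0 ≤ C1)
    (hCs : 0 ≤ Cs) (hCc : 0 ≤ Cc) (hlM : 0 ≤ lM) : ∃ E0 : ℝ, ∀ m N T e : ℕ, 1 ≤ m →
    N = 2 * κ * S * m → T = 2 * κ * S * m ^ 2 → T ≤ e → E0 ≤ e → ∀ v : ℝ,
    3 * N * ls + Real.log v ≤ (T * Real.log T + C1 * T) + 2 * Real.log N +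
      (-(S / 2 : ℝ) * e * Real.log (e / N) + e * Real.log (e + 1) + Cc * (e + N)) →
    (∀ Θ : ℝ, ((1 + 2 * N + e : ℕ) : ℝ) * lM + ((T * Real.log T + C1 * T) +
      (e * Real.log (N + e + 1) + Cs * (N + e + 1))) ≤ Θ →
      -((κ : ℝ) - 1) * Θ ≤ ((1 + 2 * N + e : ℕ) : ℝ) * lM + Real.log v) → False := by
  obtain ⟨D1, hD1⟩ : ∃ D1, D1 = 4 * lM + C1 + Real.log 3 + 3 * Cs := ⟨_, rfl⟩
  obtain ⟨c0, hc0⟩ : ∃ c0, c0 = Real.log (2 * κ * S) := ⟨_, rfl⟩
  obtain ⟨D2, hD2⟩ : ∃ D2, D2 = 3 * |ls| + C1 + 2 + (2 * κ + 3) * c0 + Real.log 2 + 2 * Cc :=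
    ⟨_, rfl⟩
  refine ⟨Real.exp (κ * D1 + D2) + 1, fun m N T e hm hN hT hTe hE v hup hlow => ?_⟩
  have hκr : (1 : ℝ) ≤ κ := by exact_mod_cast hκ
  have hS1 : 1 ≤ S := by omega
  have hSr : (S : ℝ) = 8 * κ + 12 := by rw [hS]; push_cast; ring
  have hmr : (1 : ℝ) ≤ m := by exact_mod_cast hm
  have hKS : 1 ≤ 2 * κ * S := Nat.one_le_iff_ne_zero.2 (by positivity)
  have hN1 : 1 ≤ N := by
    rw [hN]
    exact Nat.one_le_iff_ne_zero.2 (by positivity)
  have hNT : N ≤ T := by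
    rw [hN, hT, pow_two, ← mul_assoc]
    exact Nat.le_mul_of_pos_right _ hm
  have hNr : (1 : ℝ) ≤ N := by exact_mod_cast hN1
  have hNTr : (N : ℝ) ≤ T := by exact_mod_cast hNT
  have hTer : (T : ℝ) ≤ e := by exact_mod_cast hTe
  obtain ⟨E, hEd⟩ : ∃ E : ℝ, E = e := ⟨_, rfl⟩
  rw [← hEd] at hTer hE hup hlow
  have hE1 : 1 ≤ E := by linarith
  have hE0 : 0 < E := by linarith
  obtain ⟨L, hL⟩ : ∃ L, L = Real.log E := ⟨_, rfl⟩
  have hL0 : 0 ≤ L := by rw [hL]; exact Real.log_nonneg hE1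
  have hl3 : 0 ≤ Real.log 3 := Real.log_nonneg (by norm_num)
  have hl2 : 0 ≤ Real.log 2 := Real.log_nonneg (by norm_num)
  have hKSr : (1 : ℝ) ≤ 2 * κ * S := by exact_mod_cast hKS
  have hc00 : 0 ≤ c0 := by rw [hc0]; exact Real.log_nonneg hKSr
  -- `T log T ≤ E L`
  have b1 : T * Real.log T ≤ E * L := by
    have h1 : Real.log T ≤ L := by
      rw [hL]
      exact Real.log_le_log (by linarith) hTer
    have h2 : 0 ≤ Real.log T := Real.log_nonneg (by linarith)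
    exact mul_le_mul hTer h1 h2 hE0.le
  have b2 : E * Real.log (N + E + 1) ≤ E * (L + Real.log 3) := by
    refine mul_le_mul_of_nonneg_left ?_ hE0.le
    rw [hL, ← Real.log_mul hE0.ne' (by norm_num)]
    exact Real.log_le_log (by linarith) (by linarith)
  have b3 : E * Real.log (E + 1) ≤ E * (L + Real.log 2) := by
    refine mul_le_mul_of_nonneg_left ?_ hE0.le
    rw [hL, ← Real.log_mul hE0.ne' (by norm_num)]
    exact Real.log_le_log (by linarith) (by linarith)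
  have b4 : 2 * Real.log N ≤ 2 * E := by
    have := Real.log_le_sub_one_of_pos (show (0:ℝ) < N by linarith)
    linarith
  have b5 : (1 / 2) * (L - c0) ≤ Real.log (E / N) := by
    have h1 : (N : ℝ) * N ≤ (2 * κ * S) * E := by
      have h2 : N * N = 2 * κ * S * T := by rw [hN, hT]; ring
      have h3 : (N : ℝ) * N = 2 * κ * S * T := by exact_mod_cast h2
      rw [h3]
      exact mul_le_mul_of_nonneg_left hTer (by linarith)
    have h4 : Real.log ((N : ℝ) * N) ≤ Real.log ((2 * κ * S) * E) :=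
      Real.log_le_log (by positivity) h1
    rw [Real.log_mul (by positivity) (by positivity), Real.log_mul (by positivity) hE0.ne',
      ← hc0, ← hL] at h4
    rw [Real.log_div hE0.ne' (by positivity), ← hL]
    linarith
  have b6 : ((1 + 2 * N + e : ℕ) : ℝ) * lM ≤ 4 * E * lM := by
    refine mul_le_mul_of_nonneg_right ?_ hlM
    push_cast
    rw [← hEd]
    linarith
  have b7 : C1 * T ≤ C1 * E := mul_le_mul_of_nonneg_left hTer hC1
  have b8 : Cs * (N + E + 1) ≤ Cs * (3 * E) := mul_le_mul_of_nonneg_left (by linarith) hCs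
  have b9 : Cc * (E + N) ≤ Cc * (2 * E) := mul_le_mul_of_nonneg_left (by linarith) hCc
  have b10 : -(3 * N * ls) ≤ 3 * E * |ls| := by
    have h1 := neg_abs_le ls
    have h2 : 0 ≤ |ls| := abs_nonneg _
    have h3 : (N : ℝ) * |ls| ≤ E * |ls| := mul_le_mul_of_nonneg_right (by linarith) h2
    have h4 : (N : ℝ) * -|ls| ≤ N * ls := mul_le_mul_of_nonneg_left h1 (by linarith)
    linarith
  have b11 : -(S / 2 : ℝ) * E * Real.log (E / N) ≤ -(2 * κ + 3) * E * (L - c0) := by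
    have h1 : 0 ≤ (S / 2 : ℝ) * E := by positivity
    have h2 := mul_le_mul_of_nonneg_left b5 h1
    have h3 : (S / 2 : ℝ) * E * (1 / 2 * (L - c0)) = (2 * κ + 3) * E * (L - c0) := by
      rw [hSr]; ring
    rw [h3] at h2
    linarith
  have h1 := hlow (2 * (E * L) + E * D1) (by
    rw [hD1]
    linarith)
  have h2 : ((1 + 2 * N + e : ℕ) : ℝ) * lM ≤ 2 * (E * L) + E * D1 := by
    rw [hD1]
    have : 0 ≤ E * L := by positivity
    have h3 : 0 ≤ E * (C1 + Real.log 3 + 3 * Cs) := by positivity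
    linarith
  have h3 : -(κ : ℝ) * (2 * (E * L) + E * D1) ≤ Real.log v := by
    have h4 : -((κ : ℝ) - 1) * (2 * (E * L) + E * D1) =
        -(κ : ℝ) * (2 * (E * L) + E * D1) + (2 * (E * L) + E * D1) := by ring
    rw [h4] at h1
    linarith
  have h4 : Real.log v ≤ 2 * (E * L) - (2 * κ + 3) * (E * L) + E * D2 := by
    rw [hD2]
    linarith
  have h5 : E * L ≤ E * (κ * D1 + D2) := by linarith
  have h6 : L ≤ κ * D1 + D2 := le_of_mul_le_mul_left h5 hE0
  have h7 : E ≤ Real.exp (κ * D1 + D2) := by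
    rw [← Real.log_le_iff_le_exp hE0, ← hL]
    exact h6
  linarith

end Pool.Agent.ZFR
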