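import Pool.Agent.ZFin.SchNe
import Pool.Agent.ZCM.Quasi

/-! # ZFR/SchNz: `P(℘(z), ζ(z))` is not identically zero -/

namespace Pool.Agent.ZFR
open Polynomial Pool.Agent.ZCM Pool.Agent.ZFin

theorem zchNe_eval (L : PeriodPair) (N : ℕ) (p : ℕ → ℕ → ℕ → ℤ) (z : ℂ) :
    MvPolynomial.eval (v4 L z) (PP ℂ 1 N p) =
      ∑ k ∈ Finset.range N, (∑ j ∈ Finset.range N, (p 0 j k : ℂ) * L.weierstrassP z ^ j)
        * zetaL L z ^ k := by
  unfold PP
  simp only [map_sum, map_mul, map_pow, MvPolynomial.eval_C, MvPolynomial.eval_X,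
    Finset.sum_range_one, pow_zero, mul_one]
  rw [Finset.sum_comm]
  refine Finset.sum_congr rfl fun k _ => ?_
  rw [Finset.sum_mul]
  refine Finset.sum_congr rfl fun j _ => ?_
  simp [v4]

theorem zchNe_coeff (N : ℕ) (c : ℕ → ℂ) (z η : ℂ) (hη : η ≠ 0)
    (h : ∀ n : ℕ, ∑ i ∈ Finset.range N, c i * (z + n * η) ^ i = 0) :
    ∀ i < N, c i = 0 := by
  set Q : Polynomial ℂ := ∑ i ∈ Finset.range N, C (c i) * X ^ i with hQ
  have hroot : ∀ n : ℕ, Q.IsRoot (z + n * η) := by
    intro n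
    rw [Polynomial.IsRoot.def, hQ, Polynomial.eval_finsetSum]
    simp only [Polynomial.eval_mul, Polynomial.eval_C, Polynomial.eval_pow, Polynomial.eval_X]
    exact h n
  have hQ0 : Q = 0 := by
    apply Polynomial.eq_zero_of_infinite_isRoot
    apply Set.Infinite.mono (s := Set.range fun n : ℕ => z + n * η)
    · rintro _ ⟨n, rfl⟩
      exact hroot n
    · apply Set.infinite_range_of_injective
      intro m n hmn
      simp only at hmn
      have h1 := add_left_cancel hmn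
      have h2 := mul_right_cancel₀ hη h1
      exact_mod_cast h2
  intro i hi
  have h1 : Q.coeff i = c i := by
    rw [hQ, Polynomial.finsetSum_coeff]
    simp only [Polynomial.coeff_C_mul, Polynomial.coeff_X_pow]
    rw [Finset.sum_eq_single i]
    · simp
    · intro j _ hj
      simp [hj.symm]
    · intro h
      exact absurd (Finset.mem_range.mpr hi) h
  rw [← h1, hQ0, Polynomial.coeff_zero]

/-- `℘` is not algebraic -/
theorem zchNe_P (L : PeriodPair) (N : ℕ) (c : ℕ → ℂ) (hc : ∃ j < N, c j ≠ 0) :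
    ∃ z, z ∉ L.lattice ∧ ∑ j ∈ Finset.range N, c j * L.weierstrassP z ^ j ≠ 0 := by
  by_contra hcon
  push Not at hcon
  obtain ⟨j, hj, hij⟩ := hc
  set R : Polynomial ℂ := ∑ j ∈ Finset.range N, C (c j) * X ^ j with hR
  have hR0 : R ≠ 0 := by
    intro h
    have h1 : R.coeff j = c j := by
      rw [hR, Polynomial.finsetSum_coeff]
      simp only [Polynomial.coeff_C_mul, Polynomial.coeff_X_pow]
      rw [Finset.sum_eq_single j]
      · simp
      · intro k _ hk
        simp [hk.symm]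
      · intro h
        exact absurd (Finset.mem_range.mpr hj) h
    rw [h, Polynomial.coeff_zero] at h1
    exact hij h1.symm
  have hroot : ∀ z, z ∉ L.lattice → L.weierstrassP z ∈ R.rootSet ℂ := by
    intro z hz
    rw [Polynomial.mem_rootSet]
    refine ⟨hR0, ?_⟩
    rw [hR, Polynomial.coe_aeval_eq_eval, Polynomial.eval_finsetSum]
    simp only [Polynomial.eval_mul, Polynomial.eval_C, Polynomial.eval_pow, Polynomial.eval_X]
    exact hcon z hz
  have hfin : (R.rootSet ℂ).Finite := Polynomial.rootSet_finite R ℂ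
  obtain ⟨M, hM⟩ := hfin.isBounded.exists_norm_le
  have hx := (Link_analyticAt_x L).continuousAt
  have hx1 : Filter.Tendsto (fun z => ‖Link_x L z‖) (nhdsWithin (0:ℂ) {0}ᶜ) (nhds 1) := by
    have := hx.tendsto.norm
    rw [Link_x_zero] at this
    simp only [norm_one] at this
    exact this.mono_left nhdsWithin_le_nhds
  have hx2 : Filter.Tendsto (fun z : ℂ => ‖z‖ ^ 2 * M) (nhdsWithin (0:ℂ) {0}ᶜ) (nhds 0) := by
    have h1 : ContinuousAt (fun z : ℂ => ‖z‖ ^ 2 * M) 0 := by fun_prop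
    have h2 := h1.tendsto
    simp only [norm_zero, ne_eq, OfNat.ofNat_ne_zero, not_false_eq_true, zero_pow, zero_mul] at h2
    exact h2.mono_left nhdsWithin_le_nhds
  have hle : ∀ᶠ z in nhdsWithin (0:ℂ) {0}ᶜ, ‖Link_x L z‖ ≤ ‖z‖ ^ 2 * M := by
    filter_upwards [eventually_notMem L, self_mem_nhdsWithin] with z hz hz0
    rw [Link_x_eq L hz0, norm_mul, norm_pow]
    exact mul_le_mul_of_nonneg_left (hM _ (hroot z hz)) (by positivity)
  have := le_of_tendsto_of_tendsto hx1 hx2 hle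
  norm_num at this

/-- `P(℘(z), ζ(z))` is not identically `0` -/
theorem zch_ne (L : PeriodPair) (a b : ℂ) (h2 : L.g₂ = -4 * a) (h3 : L.g₃ = -4 * b)
    (N : ℕ) (p : ℕ → ℕ → ℕ → ℤ) (h0 : ∃ j < N, ∃ k < N, p 0 j k ≠ 0) :
    ∃ z, z ∉ L.lattice ∧ MvPolynomial.eval (v4 L z) (PP ℂ 1 N p) ≠ 0 := by
  by_contra hcon
  push Not at hcon
  obtain ⟨j, hj, k, hk, hjk⟩ := h0
  obtain ⟨η, hη⟩ := zetaL_add L
  have hleg := legendre L a b h2 h3 η hη
  obtain ⟨l, hl⟩ : ∃ l : L.lattice, η l ≠ 0 := by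
    by_contra hall
    push Not at hall
    exact hleg (by rw [hall, hall, zero_mul, zero_mul])
  obtain ⟨z, hz, hne⟩ := zchNe_P L N (fun j => (p 0 j k : ℂ)) ⟨j, hj, by exact_mod_cast hjk⟩
  refine hne (zchNe_coeff N
    (fun k => ∑ j ∈ Finset.range N, (p 0 j k : ℂ) * L.weierstrassP z ^ j) (zetaL L z) (η l) hl
    (fun n => ?_) k hk)
  have hz' : z + ((n • l : L.lattice) : ℂ) ∉ L.lattice := by
    intro h
    apply hz
    have := L.lattice.sub_mem h (n • l).2
    simpa using this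
  have h1 := hcon _ hz'
  rw [zchNe_eval, L.weierstrassP_add_coe, hη z hz, map_nsmul, nsmul_eq_mul] at h1
  exact h1

end Pool.Agent.ZFR
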