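import Pool.Agent.ZFR.SchSy
import Pool.Agent.ZFin.SchSieg

/-! # Schneider's theorem for `℘` and `ζ`: the auxiliary polynomial

`P = PP 1 N p = ∑ p_0jk X^j Y^k`, `j, k < N`, `N = 2 κ S m`, `T = 2 κ S m²`. -/

namespace Pool.Agent.ZFR
open Polynomial NumberField Pool.Agent.ZCM Pool.Agent.ZFin

/-- extension of an array -/
def sgExt {N X : ℕ} (q : Fin N × Fin N → Fin X) (_i j k : ℕ) : ℤ :=
  if h : j < N ∧ k < N then ((q (⟨j, h.1⟩, ⟨k, h.2⟩) : ℕ) : ℤ) else 0

theorem sgExt_apply {N X : ℕ} (q : Fin N × Fin N → Fin X) (t : Fin N × Fin N) :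
    sgExt q 0 t.1 t.2 = ((q t : ℕ) : ℤ) := by
  unfold sgExt
  rw [dif_pos ⟨t.1.2, t.2.2⟩]

theorem sgExt_bound {N X : ℕ} (hX : 1 ≤ X) (q q' : Fin N × Fin N → Fin X) (i j k : ℕ) :
    |((sgExt q i j k - sgExt q' i j k : ℤ) : ℝ)| ≤ (X : ℝ) - 1 := by
  have h1 : ∀ r : Fin N × Fin N → Fin X, 0 ≤ sgExt r i j k ∧
      sgExt r i j k ≤ (X : ℤ) - 1 := by
    intro r
    unfold sgExt
    split_ifs with h
    · have := (r (⟨j, h.1⟩, ⟨k, h.2⟩)).2
      constructor <;> omega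
    · constructor <;> omega
  have h2 := h1 q
  have h3 := h1 q'
  have h4 : |sgExt q i j k - sgExt q' i j k| ≤ (X : ℤ) - 1 := by
    rw [abs_le]
    constructor <;> omega
  rw [← Int.cast_abs]
  have h5 : ((|sgExt q i j k - sgExt q' i j k| : ℤ) : ℝ) ≤ (((X : ℤ) - 1 : ℤ) : ℝ) := by
    exact_mod_cast h4
  push_cast at h5 ⊢
  exact h5

/-- the pigeonhole for given parameters -/
theorem sg_core {K : Type} [Field K] [NumberField K] (a : 𝓞 K) (v : ℕ → Fin 4 → K) (N S T X : ℕ)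
    (hX : 1 ≤ X) (M : ℕ → ℕ) (hM : ∀ n, 0 < M n)
    (hI : ∀ n (t : ℕ) (p : ℕ → ℕ → ℕ → ℤ), IsIntegral ℤ ((M n : K) ^ (1 + 2 * N + t) *
        MvPolynomial.eval (v n) ((⇑(D4 (a : K)))^[t] (PP K 1 N p))))
    (CP : ℝ) (hpig : ∀ {α : Type} (Om : Finset α) (T1 : ℕ) (y : ℕ → α → 𝓞 K) (ρ : ℕ → ℝ),
      (∀ n, 0 ≤ ρ n) →
      (∀ p ∈ Om, ∀ p' ∈ Om, ∀ n < T1, (∀ i < n, y i p = y i p') →
        ∀ σ : K →+* ℂ, ‖σ ((y n p : K) - (y n p' : K))‖ ≤ ρ n) →
      ∏ n ∈ Finset.range T1, (CP * (1 + ρ n)) ^ (Module.finrank ℚ K) < (Om.card : ℝ) →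
      ∃ p ∈ Om, ∃ p' ∈ Om, p ≠ p' ∧ ∀ n < T1, y n p = y n p')
    (ρ : ℝ) (hρ : 0 ≤ ρ)
    (hbound : ∀ n < S, ∀ t < T, ∀ (p : ℕ → ℕ → ℕ → ℤ), (∀ i j k, |(p i j k : ℝ)| ≤ (X : ℝ) - 1) →
      ∀ σ : K →+* ℂ, ‖σ ((M n : K) ^ (1 + 2 * N + t) *
        MvPolynomial.eval (v n) ((⇑(D4 (a : K)))^[t] (PP K 1 N p)))‖ ≤ ρ)
    (hprod : ((CP * (1 + ρ)) ^ (Module.finrank ℚ K)) ^ (S * T) < (X : ℝ) ^ (N * N)) :
    ∃ p : ℕ → ℕ → ℕ → ℤ, (∀ i j k, |(p i j k : ℝ)| ≤ (X : ℝ) - 1) ∧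
      (∃ j < N, ∃ k < N, p 0 j k ≠ 0) ∧
      ∀ n < S, ∀ t < T,
        MvPolynomial.eval (v n) ((⇑(D4 (a : K)))^[t] (PP K 1 N p)) = 0 := by
  classical
  let w : ℕ → (Fin N × Fin N → Fin X) → 𝓞 K := fun l q =>
    ⟨(M (l / T) : K) ^ (1 + 2 * N + l % T) *
        MvPolynomial.eval (v (l / T))
          ((⇑(D4 (a : K)))^[l % T] (PP K 1 N (sgExt q))), hI _ _ _⟩
  have hw : ∀ l q, ((w l q : 𝓞 K) : K) = (M (l / T) : K) ^ (1 + 2 * N + l % T) *
        MvPolynomial.eval (v (l / T))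
          ((⇑(D4 (a : K)))^[l % T] (PP K 1 N (sgExt q))) := fun l q => rfl
  have hdiff : ∀ l q q', ((w l q : 𝓞 K) : K) - ((w l q' : 𝓞 K) : K) =
      (M (l / T) : K) ^ (1 + 2 * N + l % T) *
        MvPolynomial.eval (v (l / T))
          ((⇑(D4 (a : K)))^[l % T] (PP K 1 N
            (fun i j k => sgExt q i j k - sgExt q' i j k))) := by
    intro l q q'
    rw [hw, hw, SchSieg_PP_sub, SchSieg_iter_sub, map_sub]
    ring
  obtain ⟨q, -, q', -, hne, heq⟩ := hpig (Finset.univ : Finset (Fin N × Fin N → Fin X))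
    (S * T) w (fun _ => ρ) (fun _ => hρ) (by
      intro q _ q' _ l hl _ σ
      have hT : 0 < T := Nat.pos_of_ne_zero (by rintro rfl; simp at hl)
      rw [hdiff]
      exact hbound (l / T) (Nat.div_lt_of_lt_mul (by rwa [mul_comm])) (l % T) (Nat.mod_lt _ hT) _
        (fun i j k => sgExt_bound hX q q' i j k) σ) (by
      rw [Finset.prod_const, Finset.card_range, Finset.card_univ, Fintype.card_fun,
        Fintype.card_prod, Fintype.card_fin, Fintype.card_fin, Nat.cast_pow]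
      exact hprod)
  refine ⟨fun i j k => sgExt q i j k - sgExt q' i j k,
    fun i j k => sgExt_bound hX q q' i j k, ?_, ?_⟩
  · obtain ⟨t, ht⟩ := Function.ne_iff.1 hne
    refine ⟨t.1, t.1.2, t.2, t.2.2, ?_⟩
    change sgExt q 0 t.1 t.2 - sgExt q' 0 t.1 t.2 ≠ 0
    rw [sgExt_apply, sgExt_apply]
    intro h
    apply ht
    apply Fin.ext
    omega
  · intro n hn t ht
    have hT : 0 < T := lt_of_le_of_lt (Nat.zero_le _) ht
    have h1 : (n * T + t) / T = n := by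
      rw [mul_comm, Nat.mul_add_div hT, Nat.div_eq_of_lt ht, add_zero]
    have h2 : (n * T + t) % T = t := by
      rw [mul_comm, Nat.mul_add_mod, Nat.mod_eq_of_lt ht]
    have h3 : n * T + t < S * T := by
      have : (n + 1) * T ≤ S * T := Nat.mul_le_mul_right T hn
      have h4 : (n + 1) * T = n * T + T := by ring
      omega
    have h5 := hdiff (n * T + t) q q'
    rw [heq _ h3, sub_self, h1, h2] at h5
    have h6 : (M n : K) ^ (1 + 2 * N + t) ≠ 0 := pow_ne_zero _ (by exact_mod_cast (hM n).ne')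
    rcases mul_eq_zero.mp h5.symm with h7 | h7
    · exact absurd h7 h6
    · exact h7

/-- **the auxiliary polynomial**: `κ = [K:ℚ]`, `S` points, `N = 2 κ S m`, `T = 2 κ S m²` -/
theorem sg_siegel {K : Type} [Field K] [NumberField K] (a : 𝓞 K) (v : ℕ → Fin 4 → K) (κ S : ℕ)
    (hκ : κ = Module.finrank ℚ K) (hS : 1 ≤ S) : ∃ C : ℝ, 0 ≤ C ∧ ∀ m N T : ℕ, 1 ≤ m →
    N = 2 * κ * S * m → T = 2 * κ * S * m ^ 2 →
    ∃ p : ℕ → ℕ → ℕ → ℤ, (∀ i j k, |(p i j k : ℝ)| ≤ Real.exp (T * Real.log T + C * T)) ∧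
      (∃ j < N, ∃ k < N, p 0 j k ≠ 0) ∧
      ∀ n < S, ∀ t < T,
        MvPolynomial.eval (v n) ((⇑(D4 (a : K)))^[t] (PP K 1 N p)) = 0 := by
  have hκ1 : 1 ≤ κ := by rw [hκ]; exact Module.finrank_pos
  obtain ⟨CP, hCP, hpig⟩ := pigeon K
  choose M hM hI using fun n => sz_int a (v n)
  choose Cs hCs hSz using fun n => sz_size a (v n)
  set Cm : ℝ := ∑ n ∈ Finset.range S, Cs n with hCm
  set Lm : ℝ := ∑ n ∈ Finset.range S, Real.log (M n) with hLm
  have hlogM : ∀ n, 0 ≤ Real.log (M n) := fun n => Real.log_nonneg (by exact_mod_cast hM n)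
  have hCm0 : 0 ≤ Cm := Finset.sum_nonneg fun n _ => hCs n
  have hLm0 : 0 ≤ Lm := Finset.sum_nonneg fun n _ => hlogM n
  have hCm1 : ∀ n < S, Cs n ≤ Cm := fun n hn =>
    Finset.single_le_sum (f := Cs) (fun i _ => hCs i) (Finset.mem_range.mpr hn)
  have hLm1 : ∀ n < S, Real.log (M n) ≤ Lm := fun n hn =>
    Finset.single_le_sum (f := fun n => Real.log (M n)) (fun i _ => hlogM i) (Finset.mem_range.mpr hn)
  have hl3 : 0 ≤ Real.log 3 := Real.log_nonneg (by norm_num)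
  set C4 : ℝ := Real.log 3 + Cm * 3 + Lm * 4 with hC4
  have hC40 : 0 ≤ C4 := by positivity
  have hlogC : 0 ≤ Real.log (2 * CP) := Real.log_nonneg (by linarith)
  refine ⟨C4 + Real.log (2 * CP), by positivity, fun m N T hm hN hT => ?_⟩
  have hKS : 1 ≤ 2 * κ * S := Nat.one_le_iff_ne_zero.2 (by positivity)
  have hNT : N ≤ T := by
    rw [hN, hT, pow_two, ← mul_assoc]
    exact Nat.le_mul_of_pos_right _ hm
  have hT1 : 1 ≤ T := by
    rw [hT]
    exact Nat.one_le_iff_ne_zero.2 (by positivity)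
  have hTr : (1:ℝ) ≤ T := by exact_mod_cast hT1
  have hNr : (N:ℝ) ≤ T := by exact_mod_cast hNT
  have hT0 : (0:ℝ) < T := by linarith
  have hlogT : 0 ≤ Real.log T := Real.log_nonneg hTr
  set B : ℝ := Real.exp (T * Real.log T + C4 * T) with hB
  have hB1 : 1 ≤ B := Real.one_le_exp (by positivity)
  set X : ℕ := ⌊2 * CP * B⌋₊ + 1 with hX
  have hX1 : 1 ≤ X := by omega
  have hXr : (1:ℝ) ≤ X := by exact_mod_cast hX1
  have hXlt : 2 * CP * B < X := by
    rw [hX]; push_cast; exact Nat.lt_floor_add_one _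
  have hXle : (X : ℝ) - 1 ≤ 2 * CP * B := by
    rw [hX]; push_cast
    have := Nat.floor_le (a := 2 * CP * B) (by positivity)
    linarith
  -- the bound for the coefficients
  have hfinal : (X : ℝ) - 1 ≤ Real.exp (T * Real.log T + (C4 + Real.log (2 * CP)) * T) := by
    refine hXle.trans ?_
    have h1 : 2 * CP * B = Real.exp (Real.log (2 * CP) + (T * Real.log T + C4 * T)) := by
      rw [Real.exp_add, Real.exp_log (by linarith)]
    rw [h1]
    apply Real.exp_le_exp.mpr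
    nlinarith
  -- the bound for the values
  have hbound : ∀ n < S, ∀ t < T, ∀ (p : ℕ → ℕ → ℕ → ℤ),
      (∀ i j k, |(p i j k : ℝ)| ≤ (X : ℝ) - 1) → ∀ σ : K →+* ℂ,
      ‖σ ((M n : K) ^ (1 + 2 * N + t) * MvPolynomial.eval (v n)
        ((⇑(D4 (a : K)))^[t] (PP K 1 N p)))‖ ≤ X * B := by
    intro n hn t ht p hp σ
    have h1 := hSz n N t X p (by positivity) (fun i j k => (hp i j k).trans (by linarith)) σ
    have htr : (t : ℝ) + 1 ≤ T := by exact_mod_cast ht
    have ht0 : (0:ℝ) ≤ t := Nat.cast_nonneg t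
    have hN0 : (0:ℝ) ≤ N := Nat.cast_nonneg N
    rw [map_mul, map_pow, map_natCast, norm_mul, norm_pow, Complex.norm_natCast]
    have hMpos : (0:ℝ) < M n := by exact_mod_cast hM n
    have h2 : (M n : ℝ) ^ (1 + 2 * N + t) =
        Real.exp (((1 + 2 * N + t : ℕ) : ℝ) * Real.log (M n)) := by
      rw [Real.exp_nat_mul, Real.exp_log hMpos]
    have hLt : (N : ℝ) + t + 1 ≤ 3 * T := by linarith
    have hLt0 : (1:ℝ) ≤ (N : ℝ) + t + 1 := by linarith
    have h3 : (t : ℝ) * Real.log (N + t + 1) ≤ T * Real.log T + Real.log 3 * T := by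
      have h4 : Real.log (N + t + 1) ≤ Real.log T + Real.log 3 := by
        rw [← Real.log_mul (by linarith) (by norm_num), mul_comm (T:ℝ)]
        exact Real.log_le_log (by linarith) hLt
      have h5 : 0 ≤ Real.log (N + t + 1) := Real.log_nonneg hLt0
      calc (t : ℝ) * Real.log (N + t + 1) ≤ T * Real.log (N + t + 1) :=
            mul_le_mul_of_nonneg_right (by linarith) h5
        _ ≤ T * (Real.log T + Real.log 3) := mul_le_mul_of_nonneg_left h4 (by linarith)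
        _ = _ := by ring
    have h6 : Cs n * ((N : ℝ) + t + 1) ≤ Cm * 3 * T := by
      calc Cs n * ((N : ℝ) + t + 1) ≤ Cm * (3 * T) :=
            mul_le_mul (hCm1 n hn) hLt (by linarith) hCm0
        _ = _ := by ring
    have h7 : ((1 + 2 * N + t : ℕ) : ℝ) * Real.log (M n) ≤ Lm * 4 * T := by
      have h8 : ((1 + 2 * N + t : ℕ) : ℝ) ≤ 4 * T := by
        push_cast
        linarith
      calc ((1 + 2 * N + t : ℕ) : ℝ) * Real.log (M n) ≤ (4 * T) * Lm :=
            mul_le_mul h8 (hLm1 n hn) (hlogM n) (by positivity)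
        _ = _ := by ring
    calc (M n : ℝ) ^ (1 + 2 * N + t) * ‖σ (MvPolynomial.eval (v n)
          ((⇑(D4 (a : K)))^[t] (PP K 1 N p)))‖
        ≤ Real.exp (((1 + 2 * N + t : ℕ) : ℝ) * Real.log (M n)) *
          (X * Real.exp (t * Real.log (N + t + 1) + Cs n * (N + t + 1))) := by
          rw [h2]
          exact mul_le_mul_of_nonneg_left h1 (Real.exp_pos _).le
      _ = X * Real.exp (((1 + 2 * N + t : ℕ) : ℝ) * Real.log (M n) +
          (t * Real.log (N + t + 1) + Cs n * (N + t + 1))) := by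
          rw [Real.exp_add (((1 + 2 * N + t : ℕ) : ℝ) * Real.log (M n))]; ring
      _ ≤ X * B := by
          apply mul_le_mul_of_nonneg_left _ (by positivity)
          apply Real.exp_le_exp.mpr
          have h9 : C4 * T = Real.log 3 * T + Cm * 3 * T + Lm * 4 * T := by
            rw [hC4]; ring
          linarith
  -- the pigeonhole condition
  have hprod : ((CP * (1 + X * B)) ^ (Module.finrank ℚ K)) ^ (S * T) <
      (X : ℝ) ^ (N * N) := by
    have h1 : N * N = 2 * (κ * (S * T)) := by rw [hN, hT]; ring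
    rw [← hκ, h1, ← pow_mul (CP * (1 + X * B)), pow_mul (X : ℝ) 2]
    have hXB : (1:ℝ) ≤ X * B := by nlinarith
    apply pow_lt_pow_left₀ _ (by positivity)
    · have : 0 < κ * (S * T) := by positivity
      exact this.ne'
    · calc CP * (1 + X * B) ≤ CP * (X * B + X * B) := by
            apply mul_le_mul_of_nonneg_left (by linarith) (by linarith)
        _ = (2 * CP * B) * X := by ring
        _ < X * X := by
            apply mul_lt_mul_of_pos_right hXlt (by linarith)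
        _ = (X:ℝ) ^ 2 := by ring
  obtain ⟨p, hp1, hp3, hp4⟩ := sg_core a v N S T X hX1 M hM
    (fun n t p => hI n N t p) CP hpig (X * B) (by positivity) hbound hprod
  exact ⟨p, fun i j k => (hp1 i j k).trans hfinal, hp3, hp4⟩

end Pool.Agent.ZFR
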