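import Pool.Agent.ZFin.SchInt
import Pool.Agent.ZFin.Schwarz
import Pool.Agent.ZCM.GrowGS
import Pool.Agent.ZCM.Ev

/-! # ZFR/SchSz: integrality, size, growth, Schwarz lemma, uniformly in the degree `N`

`P = PP 1 N p = ∑ p_{0jk} X^j Y^k`, `j, k < N`. -/

namespace Pool.Agent.ZFR
open Polynomial NumberField Pool.Agent.ZCM Pool.Agent.ZFin
open scoped NNReal ENNReal

theorem zch_deg0 {A : Type*} [CommRing A] (N : ℕ) (p : ℕ → ℕ → ℕ → ℤ) :
    (PP A 1 N p).degreeOf 0 ≤ 0 := by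
  classical
  unfold PP
  refine (MvPolynomial.degreeOf_sum_le _ _ _).trans (Finset.sup_le fun i hi => ?_)
  refine (MvPolynomial.degreeOf_sum_le _ _ _).trans (Finset.sup_le fun j hj => ?_)
  refine (MvPolynomial.degreeOf_sum_le _ _ _).trans (Finset.sup_le fun k hk => ?_)
  obtain rfl : i = 0 := by simpa using hi
  rw [Size_term_mono, MvPolynomial.degreeOf_le_iff]
  intro m hm
  have := MvPolynomial.support_monomial_subset hm
  rw [Finset.mem_singleton] at this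
  rw [this]
  simp

/-- the values of the derivatives do not depend on `z` -/
theorem zch_indep {A : Type*} [CommRing A] (a : A) (N : ℕ) (p : ℕ → ℕ → ℕ → ℤ) (t : ℕ)
    (z z' x y u : A) :
    MvPolynomial.eval ![z, x, y, u] ((⇑(D4 a))^[t] (PP A 1 N p)) =
      MvPolynomial.eval ![z', x, y, u] ((⇑(D4 a))^[t] (PP A 1 N p)) := by
  have hd : ((⇑(D4 a))^[t] (PP A 1 N p)).degreeOf 0 ≤ 0 :=
    (degreeOf_zero_D4_iterate_le a _ t).trans (zch_deg0 N p)
  rw [MvPolynomial.eval_eq', MvPolynomial.eval_eq']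
  refine Finset.sum_congr rfl fun m hm => ?_
  have h3 : m 0 = 0 := by
    have := MvPolynomial.monomial_le_degreeOf 0 hm
    omega
  congr 1
  refine Finset.prod_congr rfl fun i _ => ?_
  fin_cases i
  · change z ^ m 0 = z' ^ m 0
    rw [h3, pow_zero, pow_zero]
  · rfl
  · rfl
  · rfl

theorem zch_val {K : Type} [Field K] [NumberField K] (ι : K →+* ℂ) (a' : 𝓞 K)
    (N : ℕ) (p : ℕ → ℕ → ℕ → ℤ) (t : ℕ) (x y u : K) (w : ℂ) :
    ι (MvPolynomial.eval ![0, x, y, u] ((⇑(D4 (a' : K)))^[t] (PP K 1 N p))) =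
      MvPolynomial.eval ![w, ι x, ι y, ι u] ((⇑(D4 (oc ι a')))^[t] (PP ℂ 1 N p)) := by
  rw [zch_indep (oc ι a') N p t w (ι 0) (ι x) (ι y) (ι u)]
  have h1 := map_D4_iterate (a' : K) ι (PP K 1 N p) t
  rw [map_PP] at h1
  have h2 : oc ι a' = ι (a' : K) := rfl
  rw [h2, ← h1, MvPolynomial.eval_map, ← MvPolynomial.eval₂_id, MvPolynomial.eval₂_comp_left,
    RingHom.comp_id]
  congr 1
  funext i
  fin_cases i <;> simp

/-- integrality of the derivatives, uniformly in `N` -/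
theorem zch_int {K : Type} [Field K] [NumberField K] (a : 𝓞 K) (x y u : K) :
    ∃ M : ℕ, 0 < M ∧ ∀ (N t : ℕ) (p : ℕ → ℕ → ℕ → ℤ),
      IsIntegral ℤ ((M : K) ^ (1 + 2 * N + t) *
        MvPolynomial.eval ![0, x, y, u] ((⇑(D4 (a : K)))^[t] (PP K 1 N p))) := by
  obtain ⟨M, hM, hMi⟩ := TA_mult (K := K) ![0, x, y, u]
  refine ⟨M, hM, fun N t p => ?_⟩
  have h1 : MvPolynomial.map (algebraMap (𝓞 K) K) ((⇑(D4 a))^[t] (PP (𝓞 K) 1 N p)) =
      (⇑(D4 (a : K)))^[t] (PP K 1 N p) := by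
    rw [map_D4_iterate, map_PP]
  rw [← h1]
  apply TA_int _ _ M hMi
  refine (totalDegree_D4_iterate_le _ _ _).trans ?_
  have := totalDegree_PP_le (R := 𝓞 K) 1 N p
  omega

theorem zch_size_aux (A M : ℝ) (hA : 0 ≤ A) (hM : 1 ≤ M) :
    ∃ C : ℝ, 0 ≤ C ∧ ∀ N t : ℕ,
      ((3 + A) * ((1 + 2 * N : ℕ) + t : ℝ)) ^ t * ((N : ℝ) ^ 2) * M ^ (1 + 2 * N + t) ≤
        Real.exp (t * Real.log (N + t + 1) + C * (N + t + 1)) := by
  set c1 : ℝ := (3 + A) * 2 with hc1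
  have hc1' : 1 ≤ c1 := by
    rw [hc1]; nlinarith
  have hlc : 0 ≤ Real.log c1 := Real.log_nonneg hc1'
  have hlM : 0 ≤ Real.log M := Real.log_nonneg hM
  refine ⟨Real.log c1 + 2 + 2 * Real.log M, by positivity, fun N t => ?_⟩
  have hN : (0 : ℝ) ≤ N := Nat.cast_nonneg _
  have ht : (0 : ℝ) ≤ t := Nat.cast_nonneg _
  have hpos : (0 : ℝ) < N + t + 1 := by positivity
  have h1 : ((3 + A) * ((1 + 2 * N : ℕ) + t : ℝ)) ^ t ≤
      Real.exp (t * Real.log (N + t + 1) + Real.log c1 * (N + t + 1)) := by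
    have e1 : (3 + A) * ((1 + 2 * N : ℕ) + t : ℝ) ≤ c1 * (N + t + 1) := by
      rw [hc1, mul_assoc]; push_cast
      apply mul_le_mul_of_nonneg_left _ (by positivity)
      linarith
    have e2 : ((3 + A) * ((1 + 2 * N : ℕ) + t : ℝ)) ^ t ≤ (c1 * (N + t + 1)) ^ t :=
      pow_le_pow_left₀ (by positivity) e1 _
    refine e2.trans ?_
    have e3 : (c1 * (N + t + 1)) ^ t = Real.exp (t * Real.log (N + t + 1) + t * Real.log c1) := by
      rw [← Real.exp_log (show (0 : ℝ) < (c1 * (N + t + 1)) ^ t by positivity), Real.log_pow,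
        Real.log_mul (by positivity) (by positivity)]
      congr 1; ring
    rw [e3, Real.exp_le_exp]
    nlinarith
  have h2 : (N : ℝ) ^ 2 ≤ Real.exp (2 * (N + t + 1)) := by
    have e1 : (N : ℝ) ≤ Real.exp (N + t + 1) := by
      have := Real.add_one_le_exp ((N : ℝ) + t + 1)
      linarith
    calc (N : ℝ) ^ 2 ≤ Real.exp (N + t + 1) ^ 2 := pow_le_pow_left₀ hN e1 2
      _ = Real.exp (2 * (N + t + 1)) := by
          rw [← Real.exp_nat_mul]; push_cast; rfl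
  have h3 : M ^ (1 + 2 * N + t) ≤ Real.exp (2 * Real.log M * (N + t + 1)) := by
    have e1 : M ^ (1 + 2 * N + t) = Real.exp (((1 + 2 * N + t : ℕ) : ℝ) * Real.log M) := by
      rw [← Real.exp_log (show (0 : ℝ) < M ^ (1 + 2 * N + t) by positivity), Real.log_pow]
    rw [e1, Real.exp_le_exp]
    push_cast
    nlinarith
  calc ((3 + A) * ((1 + 2 * N : ℕ) + t : ℝ)) ^ t * ((N : ℝ) ^ 2) * M ^ (1 + 2 * N + t)
      ≤ Real.exp (t * Real.log (N + t + 1) + Real.log c1 * (N + t + 1)) *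
        Real.exp (2 * (N + t + 1)) *
        Real.exp (2 * Real.log M * (N + t + 1)) := by
        refine mul_le_mul (mul_le_mul h1 h2 (by positivity) (by positivity)) h3 (by positivity)
          (by positivity)
    _ = _ := by
        rw [← Real.exp_add, ← Real.exp_add]; congr 1; ring

/-- size of the derivatives (all conjugates), uniformly in `N` -/
theorem zch_size {K : Type} [Field K] [NumberField K] (a : 𝓞 K) (x y u : K) :
    ∃ C : ℝ, 0 ≤ C ∧ ∀ (N t : ℕ) (H : ℝ) (p : ℕ → ℕ → ℕ → ℤ), 0 ≤ H →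
      (∀ i j k, |(p i j k : ℝ)| ≤ H) → ∀ σ : K →+* ℂ,
      ‖σ (MvPolynomial.eval ![0, x, y, u] ((⇑(D4 (a : K)))^[t] (PP K 1 N p)))‖ ≤
        H * Real.exp (t * Real.log (N + t + 1) + C * (N + t + 1)) := by
  set v : Fin 4 → K := ![0, x, y, u] with hv
  obtain ⟨A0, hA0⟩ := (Set.finite_range (fun σ : K →+* ℂ => ‖σ (a : K)‖)).bddAbove
  obtain ⟨M0, hM0⟩ := (Set.finite_range
    (fun s : (K →+* ℂ) × Fin 4 => ‖s.1 (v s.2)‖)).bddAbove
  obtain ⟨C, hC, hCb⟩ := zch_size_aux (max A0 0) (max M0 1) (le_max_right _ _)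
    (le_max_right _ _)
  refine ⟨C, hC, fun N t H p hH hp σ => ?_⟩
  have hA : ‖σ (a : K)‖ ≤ max A0 0 := (hA0 ⟨σ, rfl⟩).trans (le_max_left _ _)
  have hM : ∀ i, ‖(σ ∘ v) i‖ ≤ max M0 1 := fun i =>
    (hM0 ⟨(σ, i), rfl⟩).trans (le_max_left _ _)
  have e1 : σ (MvPolynomial.eval v ((⇑(D4 (a : K)))^[t] (PP K 1 N p))) =
      MvPolynomial.eval (σ ∘ v) ((⇑(D4 (σ (a : K))))^[t] (PP ℂ 1 N p)) := by
    rw [← map_PP σ, ← map_D4_iterate, MvPolynomial.eval_map, MvPolynomial.eval₂_comp]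
  rw [e1]
  have h1 := norm_eval_le ((⇑(D4 (σ (a : K))))^[t] (PP ℂ 1 N p)) (σ ∘ v) (max M0 1)
    (le_max_right _ _) hM
  have hdeg : (PP ℂ 1 N p).totalDegree ≤ 1 + 2 * N := totalDegree_PP_le 1 N p
  have h2 := nm_D4_iterate_le (σ (a : K)) (PP ℂ 1 N p) t
  have h3 : nm ((⇑(D4 (σ (a : K))))^[t] (PP ℂ 1 N p)) ≤
      ((3 + max A0 0) * ((1 + 2 * N : ℕ) + t : ℝ)) ^ t * (H * (N : ℝ) ^ 2) := by
    have h5 := nm_PP_le 1 N p H hH hp
    rw [Nat.cast_one, one_mul] at h5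
    refine h2.trans (mul_le_mul ?_ h5 (nm_nonneg _) (by positivity))
    refine pow_le_pow_left₀ (by positivity) ?_ _
    refine mul_le_mul (by linarith) ?_ (by positivity) (by positivity)
    have : ((PP ℂ 1 N p).totalDegree : ℝ) ≤ (1 + 2 * N : ℕ) := by exact_mod_cast hdeg
    linarith
  have h4 : (max M0 1) ^ ((⇑(D4 (σ (a : K))))^[t] (PP ℂ 1 N p)).totalDegree ≤
      (max M0 1) ^ (1 + 2 * N + t) := by
    refine pow_le_pow_right₀ (le_max_right _ _) ?_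
    have := totalDegree_D4_iterate_le (σ (a : K)) (PP ℂ 1 N p) t
    omega
  refine h1.trans ?_
  calc nm ((⇑(D4 (σ (a : K))))^[t] (PP ℂ 1 N p)) *
        (max M0 1) ^ ((⇑(D4 (σ (a : K))))^[t] (PP ℂ 1 N p)).totalDegree
      ≤ (((3 + max A0 0) * ((1 + 2 * N : ℕ) + t : ℝ)) ^ t * (H * (N : ℝ) ^ 2)) *
        (max M0 1) ^ (1 + 2 * N + t) := by
        refine mul_le_mul h3 h4 (by positivity) (by positivity)
    _ = H * (((3 + max A0 0) * ((1 + 2 * N : ℕ) + t : ℝ)) ^ t * ((N : ℝ) ^ 2) *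
        (max M0 1) ^ (1 + 2 * N + t)) := by ring
    _ ≤ _ := mul_le_mul_of_nonneg_left (hCb N t) hH

/-- growth of `σ^{3N} P(℘, ζ)`, uniformly in `N` -/
theorem zch_grow (a b : ℂ) : ∃ C : ℝ, 0 ≤ C ∧ ∀ (N : ℕ) (p : ℕ → ℕ → ℕ → ℤ) (H : ℝ),
    0 ≤ H → (∀ i j k, |(p i j k : ℝ)| ≤ H) → ∀ z : ℂ,
    ‖ev (GS a b 1 N p) z‖ ≤ H * (N : ℝ) ^ 2 * Real.exp (C * N * (1 + ‖z‖ ^ 2)) := by
  obtain ⟨C0, hC0, hg⟩ := grow a b
  refine ⟨3 * C0 + 1, by positivity, fun N p H hH hp z => ?_⟩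
  rcases Nat.eq_zero_or_pos N with hN | hN
  · subst hN
    have h0 : GS a b 1 0 p = 0 := by
      unfold GS
      simp
    rw [h0]
    simp [ev]
  have hN1 : (1 : ℝ) ≤ N := by exact_mod_cast hN
  obtain ⟨r, hr⟩ : ∃ r : ℝ≥0, r = ‖z‖₊ := ⟨_, rfl⟩
  obtain ⟨hS, hQ, -, hR⟩ := hg r
  set E : ℝ≥0∞ := ENNReal.ofReal (Real.exp (C0 * (1 + (r : ℝ) ^ 2))) with hEdef
  have hE : 1 ≤ E := by
    rw [hEdef, ← ENNReal.ofReal_one]
    apply ENNReal.ofReal_le_ofReal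
    apply Real.one_le_exp
    positivity
  have hEp : E ^ (3 * N) = ENNReal.ofReal (Real.exp (3 * N * C0 * (1 + (r : ℝ) ^ 2))) := by
    rw [hEdef, ← ENNReal.ofReal_pow (Real.exp_pos _).le, ← Real.exp_nat_mul]
    congr 2
    push_cast
    ring
  set B : ℝ≥0∞ := ENNReal.ofReal H * ((max 1 r : ℝ≥0) : ℝ≥0∞) ^ 1 * E ^ (3 * N) with hB
  have hterm : ∀ i ∈ Finset.range 1, ∀ j ∈ Finset.range N, ∀ k ∈ Finset.range N,
      nr r (PowerSeries.C ((p i j k : ℤ) : ℂ) * PowerSeries.X ^ i * SS a b ^ (3 * N - 2 * j - k) *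
        QQ a b ^ j * ZCM.RR a b ^ k) ≤ B := by
    intro i hi j hj k hk
    refine (GrowGS_term a b r E hE hS hQ hR 1 N i j k (p i j k) (Finset.mem_range.1 hi)
      (Finset.mem_range.1 hj) (Finset.mem_range.1 hk)).trans ?_
    exact mul_le_mul' (mul_le_mul' (ENNReal.ofReal_le_ofReal (hp i j k)) le_rfl) le_rfl
  have h1 : nr r (GS a b 1 N p) ≤ 1 • (N • (N • B)) := by
    unfold GS
    refine (nr_sum_le r _ _).trans ?_
    refine (Finset.sum_le_card_nsmul _ _ (N • (N • B)) fun i hi => ?_).trans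
      (by rw [Finset.card_range])
    refine (nr_sum_le r _ _).trans ?_
    refine (Finset.sum_le_card_nsmul _ _ (N • B) fun j hj => ?_).trans
      (by rw [Finset.card_range])
    refine (nr_sum_le r _ _).trans ?_
    exact (Finset.sum_le_card_nsmul _ _ B fun k hk => hterm i hi j hj k hk).trans
      (by rw [Finset.card_range])
  have hmax : ((max 1 r : ℝ≥0) : ℝ≥0∞) ^ 1 = ENNReal.ofReal (max 1 (r : ℝ)) := by
    rw [pow_one, ← ENNReal.ofReal_coe_nnreal]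
    congr 1
  have h2 : nr r (GS a b 1 N p) ≤ ENNReal.ofReal
      (H * (N : ℝ) ^ 2 * max 1 (r : ℝ) * Real.exp (3 * N * C0 * (1 + (r : ℝ) ^ 2))) := by
    refine h1.trans (le_of_eq ?_)
    rw [hB, hEp, hmax, ← ENNReal.ofReal_mul hH, ← ENNReal.ofReal_mul (by positivity),
      nsmul_eq_mul, nsmul_eq_mul, nsmul_eq_mul, ← ENNReal.ofReal_natCast N, Nat.cast_one, one_mul,
      ← ENNReal.ofReal_mul (by positivity), ← ENNReal.ofReal_mul (by positivity)]
    congr 1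
    ring
  have h3 := norm_ev_le (Ent_GS a b 1 N p) (z := z) (r := r) (by rw [hr]; exact le_of_eq (coe_nnnorm z).symm)
  have h4 := h3.trans (ENNReal.toReal_mono ENNReal.ofReal_ne_top h2)
  rw [ENNReal.toReal_ofReal (by positivity)] at h4
  refine h4.trans ?_
  have hrz : (r : ℝ) = ‖z‖ := by rw [hr]; rfl
  rw [hrz]
  have h5 : max 1 ‖z‖ ≤ Real.exp (N * (1 + ‖z‖ ^ 2)) := by
    have h6 := Real.add_one_le_exp ((N : ℝ) * (1 + ‖z‖ ^ 2))
    refine (max_le ?_ ?_).trans h6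
    · nlinarith [sq_nonneg ‖z‖]
    · nlinarith [sq_nonneg (‖z‖ - 1), sq_nonneg ‖z‖, norm_nonneg z]
  calc H * (N : ℝ) ^ 2 * max 1 ‖z‖ * Real.exp (3 * N * C0 * (1 + ‖z‖ ^ 2))
      ≤ H * (N : ℝ) ^ 2 * Real.exp (N * (1 + ‖z‖ ^ 2)) *
        Real.exp (3 * N * C0 * (1 + ‖z‖ ^ 2)) := by gcongr
    _ = H * (N : ℝ) ^ 2 * Real.exp ((3 * C0 + 1) * N * (1 + ‖z‖ ^ 2)) := by
        rw [mul_assoc, ← Real.exp_add]
        congr 2
        ring

/-- Schwarz lemma at radius `√(e/N)` and Cauchy's estimate, uniformly in `N` -/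
theorem schwarz_cauchyN (r : ℕ) (β : Fin r → ℂ) (hinj : Function.Injective β) (β0 : ℂ) (A : ℝ)
    (hA : 0 ≤ A) : ∃ C : ℝ, 0 ≤ C ∧ ∃ m0 : ℕ, ∀ (N e : ℕ), 1 ≤ N → m0 * N ≤ e →
      ∀ (G : ℂ → ℂ) (H : ℝ), 0 ≤ H → Differentiable ℂ G →
      (∀ z, ‖G z‖ ≤ H * Real.exp (A * N * (1 + ‖z‖ ^ 2))) →
      (∀ i, ∀ t < e, iteratedDeriv t G (β i) = 0) →
      ‖iteratedDeriv e G β0‖ ≤ H * Real.exp (-(r / 2 : ℝ) * e * Real.log (e / N) +
        e * Real.log (e + 1) + C * (e + N)) := by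
  set B : ℝ := 1 + ∑ i, ‖β i‖ with hB
  set ρ : ℝ := ‖β0‖ + 1 with hρ
  set K : ℝ := 2 * (ρ + B) with hK
  have hsum : 0 ≤ ∑ i, ‖β i‖ := Finset.sum_nonneg (fun i _ => norm_nonneg _)
  have hB1 : 1 ≤ B := by linarith
  have hβ : ∀ i, ‖β i‖ ≤ B := by
    intro i
    have := Finset.single_le_sum (f := fun i => ‖β i‖) (fun i _ => norm_nonneg _)
      (Finset.mem_univ i)
    linarith
  have hρ1 : 1 ≤ ρ := by
    have := norm_nonneg β0
    linarith
  have hK1 : 1 ≤ K := by linarith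
  have hlK : 0 ≤ Real.log K := Real.log_nonneg hK1
  refine ⟨A + r * Real.log K, by positivity, ⌈(2 * B + ρ) ^ 2⌉₊, ?_⟩
  intro N e hN hm G H hH hG hgr hz
  have hN1 : (1 : ℝ) ≤ N := by exact_mod_cast hN
  have hN0 : (0 : ℝ) < N := by linarith
  have hpos : 0 ≤ 2 * B + ρ := by linarith
  have hm1 : (2 * B + ρ) ^ 2 ≤ (e : ℝ) / N := by
    rw [le_div_iff₀ hN0]
    have h1 : (2 * B + ρ) ^ 2 ≤ (⌈(2 * B + ρ) ^ 2⌉₊ : ℝ) := Nat.le_ceil _
    have h2 : ((⌈(2 * B + ρ) ^ 2⌉₊ : ℕ) : ℝ) * N ≤ e := by exact_mod_cast hm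
    calc (2 * B + ρ) ^ 2 * N ≤ (⌈(2 * B + ρ) ^ 2⌉₊ : ℝ) * N :=
          mul_le_mul_of_nonneg_right h1 hN0.le
      _ ≤ e := h2
  set R : ℝ := Real.sqrt ((e : ℝ) / N) with hR
  have hR1 : 2 * B + ρ ≤ R := Real.le_sqrt_of_sq_le hm1
  have hR0 : 0 < R := by linarith
  have hen : (0 : ℝ) ≤ (e : ℝ) / N := by positivity
  have hR2 : R ^ 2 = (e : ℝ) / N := Real.sq_sqrt hen
  have hlogR : Real.log R = Real.log ((e : ℝ) / N) / 2 := by
    rw [hR, Real.log_sqrt hen]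
  have hNR : (N : ℝ) * R ^ 2 = e := by
    rw [hR2]
    field_simp
  set S : ℝ := H * Real.exp (A * (N + e)) with hS
  have hS0 : 0 ≤ S := by positivity
  have hSb : ∀ z : ℂ, ‖z‖ = R → ‖G z‖ ≤ S := by
    intro z hzR
    have := hgr z
    rw [hzR] at this
    have e1 : A * N * (1 + R ^ 2) = A * (N + e) := by
      rw [← hNR]; ring
    rw [e1] at this
    exact this
  -- bound on the unit circle around `β0`
  have hcirc : ∀ z ∈ Metric.sphere β0 1, ‖G z‖ ≤ S * (K / R) ^ (r * e) := by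
    intro z hz1
    have hz2 : ‖z‖ ≤ ρ := by
      have h1 : ‖z - β0‖ = 1 := by simpa [dist_eq_norm] using hz1
      have h2 : z = β0 + (z - β0) := by ring
      calc ‖z‖ = ‖β0 + (z - β0)‖ := by rw [← h2]
        _ ≤ ‖β0‖ + ‖z - β0‖ := norm_add_le _ _
        _ = ρ := by rw [h1]
    have h1 := schwarz_many r e β hinj G hG hz B R S hβ (by linarith) (by linarith) hSb z
      (by linarith)
    refine h1.trans (mul_le_mul_of_nonneg_left ?_ hS0)
    have hRB : 0 < R - B := by linarith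
    refine pow_le_pow_left₀ (div_nonneg (by positivity) hRB.le) ?_ _
    rw [div_le_div_iff₀ hRB hR0]
    have h3 : ‖z‖ + B ≤ ρ + B := by linarith
    have h4 : R ≤ 2 * (R - B) := by linarith
    calc (‖z‖ + B) * R ≤ (ρ + B) * (2 * (R - B)) :=
          mul_le_mul h3 h4 hR0.le (by linarith)
      _ = K * (R - B) := by rw [hK]; ring
  have hcau := Complex.norm_iteratedDeriv_le_of_forall_mem_sphere_norm_le (c := β0) (R := 1)
    (f := G) e one_pos hG.diffContOnCl hcirc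
  rw [one_pow, div_one] at hcau
  refine hcau.trans ?_
  -- rewriting as exponentials
  have e1 : (e.factorial : ℝ) ≤ Real.exp (e * Real.log (e + 1)) := by
    have h1 : (e.factorial : ℝ) ≤ ((e : ℝ) + 1) ^ e := by
      have h2 : e.factorial ≤ (e + 1) ^ e :=
        (Nat.factorial_le_pow e).trans (Nat.pow_le_pow_left (Nat.le_succ e) e)
      exact_mod_cast h2
    have h3 : ((e : ℝ) + 1) ^ e = Real.exp (e * Real.log (e + 1)) := by
      rw [mul_comm, Real.exp_mul, Real.exp_log (by positivity), Real.rpow_natCast]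
    rw [← h3]; exact h1
  have e3 : (K / R) ^ (r * e) =
      Real.exp (r * e * Real.log K + -(r / 2 : ℝ) * e * Real.log (e / N)) := by
    have h1 : r * e * Real.log K + -(r / 2 : ℝ) * e * Real.log (e / N) =
        Real.log (K / R) * ((r * e : ℕ) : ℝ) := by
      rw [Real.log_div (by linarith) hR0.ne', hlogR]; push_cast; ring
    rw [h1, Real.exp_mul, Real.exp_log (by positivity), Real.rpow_natCast]
  calc (e.factorial : ℝ) * (S * (K / R) ^ (r * e)) ≤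
      Real.exp (e * Real.log (e + 1)) * (S * (K / R) ^ (r * e)) :=
        mul_le_mul_of_nonneg_right e1 (by positivity)
    _ = H * Real.exp (-(r / 2 : ℝ) * e * Real.log (e / N)
        + e * Real.log (e + 1) + (A * (N + e) + r * e * Real.log K)) := by
        rw [hS, e3, Real.exp_add, Real.exp_add, Real.exp_add, Real.exp_add]
        ring
    _ ≤ _ := by
        refine mul_le_mul_of_nonneg_left (Real.exp_le_exp.mpr ?_) hH
        have h2 : 0 ≤ (r * Real.log K) * (N : ℝ) := by positivity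
        nlinarith

end Pool.Agent.ZFR
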