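import Pool.Agent.ZFR.SchPt
import Pool.Agent.ZFR.SchNz
import Pool.Agent.ZFR.SchSz
import Pool.Agent.ZFR.SchSg
import Pool.Agent.ZFR.SchNu
import Pool.Agent.ZFin.DerivG
import Pool.Agent.ZCM.Liou

/-! # Schneider's theorem: `℘(p)` and `ζ(p)` are not both algebraic -/

namespace Pool.Agent.ZFR
open Polynomial NumberField Pool.Agent.ZCM Pool.Agent.ZFin

/-- an entire function all of whose derivatives vanish at a point is zero -/
private theorem Sch_zero (G : ℂ → ℂ) (hG : Differentiable ℂ G) (z0 : ℂ)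
    (h : ∀ t, iteratedDeriv t G z0 = 0) (z : ℂ) : G z = 0 := by
  have han : AnalyticOnNhd ℂ G Set.univ := fun w _ => hG.analyticAt w
  have hord : analyticOrderAt G z0 = ⊤ := by
    rw [ENat.eq_top_iff_forall_ge]
    intro m
    exact (natCast_le_analyticOrderAt_iff_iteratedDeriv_eq_zero (hG.analyticAt z0)).2
      fun t _ => h t
  have hev := analyticOrderAt_eq_top.1 hord
  exact han.eqOn_zero_of_preconnected_of_eventuallyEq_zero isPreconnected_univ
    (Set.mem_univ z0) hev (Set.mem_univ z)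

/-- **Schneider**: `℘(p)`, `ζ(p)` are not both algebraic -/
theorem schneider_zeta (L : PeriodPair) (a b : ℂ) (ha : IsIntegral ℤ a) (hb : IsIntegral ℤ b)
    (h2 : L.g₂ = -4 * a) (h3 : L.g₃ = -4 * b) (β : ℂ) (hβ : β ∉ L.lattice)
    (hPa : IsAlgebraic ℚ (L.weierstrassP β)) : ¬ IsAlgebraic ℚ (zetaL L β) := by
  intro hZa
  obtain ⟨K, iK, iN, ι, a', b', w, x, y, u, hab, hbb, hwinj, hwL, hx, hy, hu⟩ :=
    many_points_zeta L a b ha hb h2 h3 β hβ hPa hZa
  obtain ⟨κ, hκ⟩ : ∃ κ : ℕ, κ = Module.finrank ℚ K := ⟨_, rfl⟩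
  have hκ1 : 1 ≤ κ := by rw [hκ]; exact Module.finrank_pos
  obtain ⟨S, hS⟩ : ∃ S : ℕ, S = 8 * κ + 12 := ⟨_, rfl⟩
  obtain ⟨C1, hC1, hsieg⟩ := sg_siegel a' (fun n => ![0, x n, y n, u n]) κ S hκ (by omega)
  choose M hM hint using fun n => zch_int a' (x n) (y n) (u n)
  choose Cs hCs hsize using fun n => zch_size a' (x n) (y n) (u n)
  obtain ⟨C2, hC2, hgrow⟩ := zch_grow a b
  have hinj : Function.Injective (fun i : Fin S => w i) := fun i j h => Fin.ext (hwinj h)
  choose Cc hCc m0 hcauchy using fun n : ℕ =>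
    schwarz_cauchyN S (fun i => w i) hinj (w n) C2 hC2
  have hlogM : ∀ n, 0 ≤ Real.log (M n) := fun n =>
    Real.log_nonneg (by exact_mod_cast hM n)
  choose E0 hnum using fun n : ℕ => nu_final κ S hκ1 hS C1 (Cs n) (Cc n) (Real.log (M n))
    (Real.log ‖ev (SS a b) (w n)‖) hC1 (hCs n) (hCc n) (hlogM n)
  -- the size parameter
  obtain ⟨m, hm⟩ : ∃ m : ℕ, m = 1 + ∑ n ∈ Finset.range S, (m0 n + ⌈|E0 n|⌉₊) := ⟨_, rfl⟩
  have hm1 : 1 ≤ m := by omega
  have hmn : ∀ n < S, m0 n + ⌈|E0 n|⌉₊ ≤ m := fun n hn => by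
    have := Finset.single_le_sum (f := fun n => m0 n + ⌈|E0 n|⌉₊) (fun i _ => Nat.zero_le _)
      (Finset.mem_range.2 hn)
    have this2 : m0 n + ⌈|E0 n|⌉₊ ≤ ∑ n ∈ Finset.range S, (m0 n + ⌈|E0 n|⌉₊) := this
    omega
  obtain ⟨N, hN⟩ : ∃ N : ℕ, N = 2 * κ * S * m := ⟨_, rfl⟩
  obtain ⟨T, hT⟩ : ∃ T : ℕ, T = 2 * κ * S * m ^ 2 := ⟨_, rfl⟩
  have hN1 : 1 ≤ N := by
    rw [hN]
    have : 0 < S := by omega
    exact Nat.one_le_iff_ne_zero.2 (by positivity)
  have hTN : T = m * N := by rw [hT, hN]; ring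
  have hmT : m ≤ T := by
    rw [hTN]
    exact Nat.le_mul_of_pos_right _ hN1
  have hT1 : 1 ≤ T := hm1.trans hmT
  obtain ⟨p, hpH, hpne, hpz⟩ := hsieg m N T hm1 hN hT
  set H : ℝ := Real.exp (T * Real.log T + C1 * T) with hH
  have hH0 : 0 < H := Real.exp_pos _
  -- the values
  let val : ℕ → ℕ → K := fun n t =>
    MvPolynomial.eval ![0, x n, y n, u n] ((⇑(D4 (a' : K)))^[t] (PP K 1 N p))
  have hval : ∀ n t, ι (val n t) =
      MvPolynomial.eval (v4 L (w n)) ((⇑(D4 a))^[t] (PP ℂ 1 N p)) := by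
    intro n t
    rw [show ι (val n t) = _ from zch_val ι a' N p t (x n) (y n) (u n) (w n), hab, v4, hx n, hy n,
      hu n]
  set G : ℂ → ℂ := ev (GS a b 1 N p) with hG
  have hGd : Differentiable ℂ G := differentiable_ev (Ent_GS a b 1 N p)
  have hGS : ∀ z, z ∉ L.lattice →
      G z = ev (SS a b) z ^ (3 * N) * MvPolynomial.eval (v4 L z) (PP ℂ 1 N p) := fun z hz =>
    (link_GS L a b h2 h3 1 N p hz).symm
  have hS0 : ∀ z, z ∉ L.lattice → ev (SS a b) z ≠ 0 := fun z hz h0 =>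
    hz ((S_eq_zero_iff L a b h2 h3 z).1 h0)
  -- there is a non-vanishing value
  have hex : ∃ e, ∃ n < S, val n e ≠ 0 := by
    by_contra hcon
    push Not at hcon
    obtain ⟨z, hz, hzne⟩ := zch_ne L a b h2 h3 N p hpne
    have hall : ∀ t, iteratedDeriv t G (w 0) = 0 := by
      intro t
      have hd := (deriv_G L a b h2 h3 (3 * N) (PP ℂ 1 N p) G hGS (w 0) (hwL 0) (t + 1)
        (fun s _ => by rw [← hval 0 s, hcon s 0 (by omega), map_zero])).1
      exact hd t (Nat.lt_succ_self t)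
    have h0 := Sch_zero G hGd (w 0) hall z
    rw [hGS z hz] at h0
    rcases mul_eq_zero.1 h0 with h4 | h4
    · exact hS0 z hz ((pow_eq_zero_iff (by omega)).1 h4)
    · exact hzne h4
  classical
  obtain ⟨e, ⟨n0, hn0, hne⟩, hemin⟩ : ∃ e, (∃ n < S, val n e ≠ 0) ∧
      ∀ t < e, ∀ n < S, val n t = 0 := by
    refine ⟨Nat.find hex, Nat.find_spec hex, fun t ht n hn => ?_⟩
    by_contra hcon
    exact Nat.find_min hex ht ⟨n, hn, hcon⟩
  have heT : T ≤ e := by
    by_contra hlt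
    push Not at hlt
    exact hne (hpz n0 hn0 e hlt)
  have hEe : E0 n0 ≤ e := by
    have h4 : (⌈|E0 n0|⌉₊ : ℝ) ≤ e := by
      have : ⌈|E0 n0|⌉₊ ≤ e := by
        have := hmn n0 hn0
        omega
      exact_mod_cast this
    exact (le_abs_self _).trans ((Nat.le_ceil _).trans h4)
  -- upper bound
  set s : ℝ := ‖ev (SS a b) (w n0)‖ with hs
  have hs0 : 0 < s := norm_pos_iff.2 (hS0 _ (hwL n0))
  set v : ℝ := ‖ι (val n0 e)‖ with hv
  have hv0 : 0 < v := norm_pos_iff.2 ((map_ne_zero ι).2 hne)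
  have hNr : (1 : ℝ) ≤ N := by exact_mod_cast hN1
  have hup := hcauchy n0 N e hN1 (by
      have h4 : m0 n0 * N ≤ m * N := Nat.mul_le_mul_right _ (by have := hmn n0 hn0; omega)
      rw [← hTN] at h4
      exact h4.trans heT) G (H * (N : ℝ) ^ 2) (by positivity) hGd
    (fun z => hgrow N p H hH0.le hpH z)
    (fun i t ht => (deriv_G L a b h2 h3 (3 * N) (PP ℂ 1 N p) G hGS (w i) (hwL i) e
      (fun u hu => by rw [← hval i u, hemin u hu i i.2, map_zero])).1 t ht)
  rw [(deriv_G L a b h2 h3 (3 * N) (PP ℂ 1 N p) G hGS (w n0) (hwL n0) e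
      (fun u hu => by rw [← hval n0 u, hemin u hu n0 hn0, map_zero])).2, ← hval n0 e, norm_mul,
      norm_pow, ← hs, ← hv] at hup
  have hup' := Real.log_le_log (by positivity) hup
  rw [Real.log_mul (by positivity) (by positivity), Real.log_pow,
    Real.log_mul (by positivity) (by positivity), Real.log_mul (by positivity) (by positivity),
    Real.log_exp, Real.log_exp, Real.log_pow] at hup'
  -- Liouville
  have hMr : (0 : ℝ) < M n0 := by exact_mod_cast hM n0
  refine hnum n0 m N T e hm1 hN hT heT hEe v ?_ ?_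
  · push_cast at hup' ⊢
    linarith
  · intro Θ hΘ
    set Y : K := (M n0 : K) ^ (1 + 2 * N + e) * val n0 e with hY
    have hYint : IsIntegral ℤ Y := hint n0 N e p
    have hM0 : (M n0 : K) ≠ 0 := by exact_mod_cast (hM n0).ne'
    have hY0 : Y ≠ 0 := mul_ne_zero (pow_ne_zero _ hM0) hne
    have hYσ : ∀ σ : K →+* ℂ, ‖σ Y‖ ≤ Real.exp Θ := by
      intro σ
      have h4 := hsize n0 N e H p hH0.le hpH σ
      rw [hY, map_mul, map_pow, map_natCast, norm_mul, norm_pow, Complex.norm_natCast]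
      calc (M n0 : ℝ) ^ (1 + 2 * N + e) * ‖σ (val n0 e)‖
          ≤ (M n0 : ℝ) ^ (1 + 2 * N + e) *
            (H * Real.exp (e * Real.log (N + e + 1) + Cs n0 * (N + e + 1))) := by
            gcongr
        _ = Real.exp (((1 + 2 * N + e : ℕ) : ℝ) * Real.log (M n0) +
            ((T * Real.log T + C1 * T) +
              (e * Real.log (N + e + 1) + Cs n0 * (N + e + 1)))) := by
            have e1 : ∀ A B D : ℝ, Real.exp (A + (B + D)) =
                Real.exp A * (Real.exp B * Real.exp D) := fun A B D => by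
              rw [Real.exp_add, Real.exp_add]
            rw [e1, Real.exp_nat_mul, Real.exp_log hMr, ← hH]
        _ ≤ Real.exp Θ := Real.exp_le_exp.2 hΘ
    have h5 := liouville K Y hYint hY0 Θ hYσ ι
    rw [hY, map_mul, map_pow, map_natCast, norm_mul, norm_pow, Complex.norm_natCast, ← hv,
      ← hκ] at h5
    have h6 := Real.log_le_log (Real.exp_pos _) h5
    rw [Real.log_exp, Real.log_mul (by positivity) (by positivity), Real.log_pow] at h6
    exact h6

end Pool.Agent.ZFR
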