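import Pool.Agent.ZFin.AddThm

/-! # The addition theorem for the Weierstrass zeta function

`zeta_add`, `zeta_add_mul` (without division), `zeta_dup28`, `P_add`, `derivP_add`.
-/

namespace Pool.Agent.ZFR
open Pool.Agent.ZCM Pool.Agent.ZFin
open Filter Topology

/-- derivative of the slope -/
theorem slope_deriv_aux (a b : ℂ) (x1 x2 y1 y2 : ℂ → ℂ) (w : ℂ)
    (d1 : HasDerivAt x1 (2 * y1 w) w) (d2 : HasDerivAt x2 (-(2 * y2 w)) w)
    (e1 : HasDerivAt y1 (3 * x1 w ^ 2 + a) w) (e2 : HasDerivAt y2 (-(3 * x2 w ^ 2 + a)) w)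
    (c1 : y1 w ^ 2 = x1 w ^ 3 + a * x1 w + b) (c2 : y2 w ^ 2 = x2 w ^ 3 + a * x2 w + b)
    (hne : x1 w ≠ x2 w) :
    HasDerivAt (fun s => (y1 s - y2 s) / (x1 s - x2 s)) (x1 w - x2 w) w := by
  have hne' : x1 w - x2 w ≠ 0 := sub_ne_zero.2 hne
  have h := (e1.fun_sub e2).fun_div (d1.fun_sub d2) hne'
  refine h.congr_deriv ?_
  rw [div_eq_iff (pow_ne_zero 2 hne')]
  generalize x1 w = X1 at *
  generalize x2 w = X2 at *
  generalize y1 w = Y1 at *
  generalize y2 w = Y2 at *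
  linear_combination (-2) * c1 + 2 * c2

variable (L : PeriodPair)

/-- the domain of `s ↦ (s, c - s)` -/
def VV (c : ℂ) : Set ℂ := {s | s ∉ L.lattice ∧ c - s ∉ L.lattice}

theorem VV_open (c : ℂ) : IsOpen (VV L c) := by
  have h : VV L c = (L.lattice : Set ℂ)ᶜ ∩ (fun s => c - s) ⁻¹' (L.lattice : Set ℂ)ᶜ := rfl
  rw [h]
  exact (isOpen_compl L).inter ((isOpen_compl L).preimage (by fun_prop))

theorem VV_preconnected (c : ℂ) : IsPreconnected (VV L c) := by
  have hc : (L.lattice : Set ℂ).Countable := by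
    have h1 : Countable L.lattice := L.latticeEquivProd.toEquiv.countable_iff.2 inferInstance
    exact h1
  have hc2 : ((fun s => c - s) ⁻¹' (L.lattice : Set ℂ)).Countable :=
    hc.preimage_of_injOn (sub_right_injective (b := c)).injOn
  have h : VV L c = ((L.lattice : Set ℂ) ∪ (fun s => c - s) ⁻¹' (L.lattice : Set ℂ))ᶜ := by
    ext s
    simp [VV]
  rw [h]
  refine (Set.Countable.isPathConnected_compl_of_one_lt_rank ?_
    (hc.union hc2)).isConnected.isPreconnected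
  rw [Complex.rank_real_complex]
  norm_num

/-- the difference of the two sides, denominators cleared -/
noncomputable def zH (c s : ℂ) : ℂ :=
  (zetaL L s + zetaL L (c - s) - zetaL L c) * (L.weierstrassP s - L.weierstrassP (c - s)) +
    (L.derivWeierstrassP s / 2 - L.derivWeierstrassP (c - s) / 2)

theorem zH_analytic (c : ℂ) : AnalyticOnNhd ℂ (zH L c) (VV L c) := by
  intro s hs
  have hsub : AnalyticAt ℂ (fun s : ℂ => c - s) s := by fun_prop
  have a1 := Link_analyticOnNhd_zeta L s hs.1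
  have a2 : AnalyticAt ℂ (fun s => zetaL L (c - s)) s :=
    AnalyticAt.fun_comp (Link_analyticOnNhd_zeta L (c - s) hs.2) hsub
  have a3 := Link_analyticOnNhd_P L s hs.1
  have a4 : AnalyticAt ℂ (fun s => L.weierstrassP (c - s)) s :=
    AnalyticAt.fun_comp (Link_analyticOnNhd_P L (c - s) hs.2) hsub
  have a5 := Link_analyticOnNhd_P' L s hs.1
  have a6 : AnalyticAt ℂ (fun s => L.derivWeierstrassP (c - s)) s :=
    AnalyticAt.fun_comp (Link_analyticOnNhd_P' L (c - s) hs.2) hsub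
  unfold zH
  fun_prop

/-- derivatives at `c - s` -/
theorem sub_derivs (a b : ℂ) (h2 : L.g₂ = -4 * a) (h3 : L.g₃ = -4 * b) (c s : ℂ)
    (hs : c - s ∉ L.lattice) :
    HasDerivAt (fun w => zetaL L (c - w)) (L.weierstrassP (c - s)) s ∧
    HasDerivAt (fun w => L.weierstrassP (c - w)) (-(2 * (L.derivWeierstrassP (c - s) / 2))) s ∧
    HasDerivAt (fun w => L.derivWeierstrassP (c - w) / 2) (-(3 * L.weierstrassP (c - s) ^ 2 + a))
      s := by
  have hsub : HasDerivAt (fun w => c - w) (-1) s := by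
    simpa using (hasDerivAt_id s).const_sub c
  refine ⟨?_, ?_, ?_⟩
  · have h := HasDerivAt.comp s (hasDerivAt_zetaL L hs) hsub
    exact h.congr_deriv (by ring)
  · have h := HasDerivAt.comp s (hasDerivAt_P L hs) hsub
    exact h.congr_deriv (by ring)
  · have h := HasDerivAt.comp s (hasDerivAt_P' L a b h2 h3 hs) hsub
    exact h.congr_deriv (by ring)

/-- the regular part of the slope at `0` -/
noncomputable def zM (c s : ℂ) : ℂ :=
  (s * L.weierstrassPExcept 0 s + s ^ 2 * L.derivWeierstrassPExcept 0 s / 2 -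
    s ^ 2 * (L.derivWeierstrassP (c - s) / 2) - s * L.weierstrassP (c - s)) /
    (Link_x L s - s ^ 2 * L.weierstrassP (c - s))

theorem zM_analytic (c : ℂ) (hc : c ∉ L.lattice) : AnalyticAt ℂ (zM L c) 0 := by
  have hc' : c - 0 ∉ L.lattice := by rwa [sub_zero]
  have hsub : AnalyticAt ℂ (fun s : ℂ => c - s) 0 := by fun_prop
  have a4 : AnalyticAt ℂ (fun s => L.weierstrassP (c - s)) 0 :=
    AnalyticAt.fun_comp (Link_analyticOnNhd_P L (c - 0) hc') hsub
  have a6 : AnalyticAt ℂ (fun s => L.derivWeierstrassP (c - s)) 0 :=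
    AnalyticAt.fun_comp (Link_analyticOnNhd_P' L (c - 0) hc') hsub
  have a7 := L.analyticAt_weierstrassPExcept 0
  have a8 := L.analyticAt_derivWeierstrassPExcept 0
  have a9 := Link_analyticAt_x L
  unfold zM
  refine AnalyticAt.div (by fun_prop) (by fun_prop) ?_
  simp [Link_x_zero]

theorem zM_zero (c : ℂ) : zM L c 0 = 0 := by simp [zM]

/-- near `0`: the regular part of the slope is `slope + 1/s` -/
theorem zM_eq (c s : ℂ) (hs : s ≠ 0)
    (hne : L.weierstrassP s ≠ L.weierstrassP (c - s)) :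
    zM L c s = (L.derivWeierstrassP s / 2 - L.derivWeierstrassP (c - s) / 2) /
      (L.weierstrassP s - L.weierstrassP (c - s)) + 1 / s := by
  have hx := Link_x_eq L hs
  have hy := Link_y_eq L hs
  have hne' : L.weierstrassP s - L.weierstrassP (c - s) ≠ 0 := sub_ne_zero.2 hne
  have h1 : Link_x L s = s ^ 2 * L.weierstrassPExcept 0 s + 1 := rfl
  have h2 : Link_y L s = s ^ 3 * L.derivWeierstrassPExcept 0 s / 2 - 1 := rfl
  have hden : Link_x L s - s ^ 2 * L.weierstrassP (c - s) =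
      s ^ 2 * (L.weierstrassP s - L.weierstrassP (c - s)) := by rw [hx]; ring
  unfold zM
  rw [hden]
  have hs2 : s ^ 2 ≠ 0 := pow_ne_zero 2 hs
  rw [div_add_div _ _ hne' hs, div_eq_div_iff (mul_ne_zero hs2 hne') (mul_ne_zero hne' hs)]
  have k1 : s ^ 2 * L.weierstrassPExcept 0 s = s ^ 2 * L.weierstrassP s - 1 := by
    rw [← hx, h1]; ring
  have k2 : s ^ 3 * L.derivWeierstrassPExcept 0 s / 2 =
      s ^ 3 * (L.derivWeierstrassP s / 2) + 1 := by rw [← hy, h2]; ring
  linear_combination (L.weierstrassP s - L.weierstrassP (c - s)) * k1 +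
    (L.weierstrassP s - L.weierstrassP (c - s)) * k2

/-- `zH` vanishes near `0` -/
theorem zH_near (a b : ℂ) (h2 : L.g₂ = -4 * a) (h3 : L.g₃ = -4 * b) (c : ℂ)
    (hc : c ∉ L.lattice) : ∀ᶠ s in 𝓝[≠] (0 : ℂ), zH L c s = 0 := by
  obtain ⟨g, hg, hg0, hgz⟩ := zetaL_near_zero L
  have hc' : c - 0 ∉ L.lattice := by rwa [sub_zero]
  have hsub : AnalyticAt ℂ (fun s : ℂ => c - s) 0 := by fun_prop
  have a2 : AnalyticAt ℂ (fun s => zetaL L (c - s)) 0 :=
    AnalyticAt.fun_comp (Link_analyticOnNhd_zeta L (c - 0) hc') hsub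
  have a4 : AnalyticAt ℂ (fun s => L.weierstrassP (c - s)) 0 :=
    AnalyticAt.fun_comp (Link_analyticOnNhd_P L (c - 0) hc') hsub
  have aM := zM_analytic L c hc
  have aX := Link_analyticAt_x L
  set K : ℂ → ℂ := fun s => g s + zetaL L (c - s) - zetaL L c + zM L c s with hK
  have aK : AnalyticAt ℂ K 0 := by rw [hK]; fun_prop
  have hK0 : K 0 = 0 := by
    simp only [hK]
    rw [hg0, sub_zero, zM_zero]; ring
  -- punctured neighbourhood where everything is fine
  have e1 : ∀ᶠ s in 𝓝 (0 : ℂ), Link_x L s - s ^ 2 * L.weierstrassP (c - s) ≠ 0 := by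
    have hcont : ContinuousAt (fun s => Link_x L s - s ^ 2 * L.weierstrassP (c - s)) 0 := by
      have : AnalyticAt ℂ (fun s => Link_x L s - s ^ 2 * L.weierstrassP (c - s)) 0 := by fun_prop
      exact this.continuousAt
    refine hcont.eventually_ne ?_
    simp [Link_x_zero]
  have e2 : ∀ᶠ s in 𝓝 (0 : ℂ), c - s ∉ L.lattice := by
    have hcont : ContinuousAt (fun s : ℂ => c - s) 0 := by fun_prop
    exact hcont.eventually_mem ((isOpen_compl L).mem_nhds hc')
  have e3 : ∀ᶠ s in 𝓝[≠] (0 : ℂ), s ∉ L.lattice := eventually_notMem L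
  have e4 : ∀ᶠ s in 𝓝[≠] (0 : ℂ), s ≠ 0 := eventually_mem_nhdsWithin
  have good : ∀ᶠ s in 𝓝[≠] (0 : ℂ), s ≠ 0 ∧ s ∉ L.lattice ∧ c - s ∉ L.lattice ∧
      L.weierstrassP s ≠ L.weierstrassP (c - s) ∧ zetaL L s = 1 / s + g s := by
    filter_upwards [e4, e3, nhdsWithin_le_nhds e2, nhdsWithin_le_nhds e1, hgz]
      with s hs1 hs2 hs3 hs4 hs5
    refine ⟨hs1, hs2, hs3, fun h => hs4 ?_, hs5⟩
    rw [Link_x_eq L hs1, h]; ring
  -- on it, `K = zeta s + zeta (c - s) - zeta c + slope`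
  have hKeq : ∀ᶠ s in 𝓝[≠] (0 : ℂ), K s = zetaL L s + zetaL L (c - s) - zetaL L c +
      (L.derivWeierstrassP s / 2 - L.derivWeierstrassP (c - s) / 2) /
      (L.weierstrassP s - L.weierstrassP (c - s)) := by
    filter_upwards [good] with s hs
    obtain ⟨hs1, hs2, hs3, hs4, hs5⟩ := hs
    simp only [hK]
    rw [zM_eq L c s hs1 hs4, hs5]; ring
  have hgg : ∀ᶠ s in 𝓝[≠] (0 : ℂ), ∀ᶠ t in 𝓝 s, K t = zetaL L t + zetaL L (c - t) - zetaL L c +
      (L.derivWeierstrassP t / 2 - L.derivWeierstrassP (c - t) / 2) /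
      (L.weierstrassP t - L.weierstrassP (c - t)) := by
    have h5 := eventually_eventually_nhdsWithin.mpr hKeq
    filter_upwards [h5, e4] with s hs hs0
    have h6 : 𝓝[{0}ᶜ] s = 𝓝 s := IsOpen.nhdsWithin_eq isOpen_compl_singleton hs0
    rwa [h6] at hs
  have hd0 : ∀ᶠ s in 𝓝[≠] (0 : ℂ), deriv K s = 0 := by
    filter_upwards [good, hgg] with s hs hs'
    obtain ⟨hs1, hs2, hs3, hs4, hs5⟩ := hs
    obtain ⟨f1, f2, f3⟩ := sub_derivs L a b h2 h3 c s hs3
    have hm := slope_deriv_aux a b L.weierstrassP (fun w => L.weierstrassP (c - w))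
      (fun w => L.derivWeierstrassP w / 2) (fun w => L.derivWeierstrassP (c - w) / 2) s
      (hasDerivAt_P L hs2) f2 (hasDerivAt_P' L a b h2 h3 hs2) f3 (add_curve L a b h2 h3 s hs2)
      (add_curve L a b h2 h3 (c - s) hs3) hs4
    have hz := (((hasDerivAt_zetaL L hs2).fun_add f1).sub_const (zetaL L c)).fun_add hm
    have hcg : K =ᶠ[𝓝 s] fun t => zetaL L t + zetaL L (c - t) - zetaL L c +
      (L.derivWeierstrassP t / 2 - L.derivWeierstrassP (c - t) / 2) /
      (L.weierstrassP t - L.weierstrassP (c - t)) := hs'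
    rw [hcg.deriv_eq, hz.deriv]
    ring
  have hd1 : ∀ᶠ s in 𝓝 (0 : ℂ), deriv K s = 0 :=
    aK.deriv.frequently_zero_iff_eventually_zero.1 hd0.frequently
  have hconst : ∀ᶠ s in 𝓝 (0 : ℂ), K s = 0 := by
    obtain ⟨ε, hε, hball⟩ := Metric.eventually_nhds_iff_ball.1
      (hd1.and aK.eventually_analyticAt)
    filter_upwards [Metric.ball_mem_nhds (0 : ℂ) hε] with s hs
    have := Metric.isOpen_ball.is_const_of_deriv_eq_zero
      (convex_ball (0 : ℂ) ε).isPreconnected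
      (fun t ht => (hball t ht).2.differentiableAt.differentiableWithinAt)
      (fun t ht => (hball t ht).1) hs (Metric.mem_ball_self hε)
    rw [this, hK0]
  filter_upwards [good, hKeq, nhdsWithin_le_nhds hconst] with s hs hs' hs''
  obtain ⟨hs1, hs2, hs3, hs4, hs5⟩ := hs
  rw [hs''] at hs'
  have hne' : L.weierstrassP s - L.weierstrassP (c - s) ≠ 0 := sub_ne_zero.2 hs4
  unfold zH
  have h7 : zetaL L s + zetaL L (c - s) - zetaL L c =
      - ((L.derivWeierstrassP s / 2 - L.derivWeierstrassP (c - s) / 2) /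
      (L.weierstrassP s - L.weierstrassP (c - s))) := by
    linear_combination -hs'
  rw [h7, neg_mul, div_mul_cancel₀ _ hne']
  ring

theorem zH_zero (a b : ℂ) (h2 : L.g₂ = -4 * a) (h3 : L.g₃ = -4 * b) (c : ℂ)
    (hc : c ∉ L.lattice) {s : ℂ} (hs : s ∈ VV L c) : zH L c s = 0 := by
  have h := zH_near L a b h2 h3 c hc
  have h2' : ∀ᶠ y in 𝓝[≠] (0 : ℂ), ∀ᶠ x in 𝓝[{0}ᶜ] y, zH L c x = 0 :=
    eventually_eventually_nhdsWithin.mpr h
  have h3' : ∀ᶠ y in 𝓝[≠] (0 : ℂ), y ≠ 0 := eventually_mem_nhdsWithin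
  have e2 : ∀ᶠ s in 𝓝 (0 : ℂ), c - s ∉ L.lattice := by
    have hcont : ContinuousAt (fun s : ℂ => c - s) 0 := by fun_prop
    exact hcont.eventually_mem ((isOpen_compl L).mem_nhds (by simpa using hc))
  obtain ⟨z0, ⟨⟨hz1, hz2⟩, hz3⟩, hz4⟩ :=
    (((h2'.and (eventually_notMem L)).and h3').and (nhdsWithin_le_nhds e2)).exists
  have h4 : ∀ᶠ x in 𝓝 z0, zH L c x = 0 := by
    have h5 : 𝓝[{0}ᶜ] z0 = 𝓝 z0 := IsOpen.nhdsWithin_eq isOpen_compl_singleton hz3
    rw [h5] at hz1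
    exact hz1
  exact (zH_analytic L c).eqOn_zero_of_preconnected_of_eventuallyEq_zero (VV_preconnected L c)
    ⟨hz2, hz4⟩ h4 hs

/-- **the addition theorem for `ζ`, without division** -/
theorem zeta_add_mul (a b : ℂ) (h2 : L.g₂ = -4 * a) (h3 : L.g₃ = -4 * b) (z w : ℂ)
    (hz : z ∉ L.lattice) (hw : w ∉ L.lattice) (hzw : z + w ∉ L.lattice) :
    (zetaL L (z + w) - zetaL L z - zetaL L w) * (L.weierstrassP z - L.weierstrassP w) =
      (L.derivWeierstrassP z - L.derivWeierstrassP w) / 2 := by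
  have e : z + w - z = w := by ring
  have h := zH_zero L a b h2 h3 (z + w) hzw (s := z) ⟨hz, by rw [e]; exact hw⟩
  unfold zH at h
  rw [e] at h
  linear_combination -h

/-- **the addition theorem for `ζ`** -/
theorem zeta_add (a b : ℂ) (h2 : L.g₂ = -4 * a) (h3 : L.g₃ = -4 * b) (z w : ℂ)
    (hz : z ∉ L.lattice) (hw : w ∉ L.lattice) (hzw : z + w ∉ L.lattice)
    (hne : L.weierstrassP z ≠ L.weierstrassP w) :
    zetaL L (z + w) = zetaL L z + zetaL L w + (L.derivWeierstrassP z - L.derivWeierstrassP w) /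
      (2 * (L.weierstrassP z - L.weierstrassP w)) := by
  have h := zeta_add_mul L a b h2 h3 z w hz hw hzw
  have hne' : L.weierstrassP z - L.weierstrassP w ≠ 0 := sub_ne_zero.2 hne
  have h4 : (L.derivWeierstrassP z - L.derivWeierstrassP w) /
      (2 * (L.weierstrassP z - L.weierstrassP w)) = zetaL L (z + w) - zetaL L z - zetaL L w := by
    rw [div_eq_iff (mul_ne_zero two_ne_zero hne')]
    linear_combination -2 * h
  rw [h4]; ring

/-- duplication, without division -/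
theorem zeta_dup_mul (a b : ℂ) (h2 : L.g₂ = -4 * a) (h3 : L.g₃ = -4 * b) (z : ℂ)
    (hz2 : 2 * z ∉ L.lattice) :
    (zetaL L (2 * z) - 2 * zetaL L z) * (2 * L.derivWeierstrassP z) =
      6 * L.weierstrassP z ^ 2 + 2 * a := by
  have hz : z ∉ L.lattice := fun h => hz2 (by
    have := L.lattice.add_mem h h
    rwa [← two_mul] at this)
  have e : 2 * z - z = z := by ring
  have hz' : 2 * z - z ∉ L.lattice := by rw [e]; exact hz
  obtain ⟨f1, f2, f3⟩ := sub_derivs L a b h2 h3 (2 * z) z hz'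
  have d := ((((hasDerivAt_zetaL L hz).fun_add f1).sub_const (zetaL L (2 * z))).fun_mul
    ((hasDerivAt_P L hz).fun_sub f2)).fun_add ((hasDerivAt_P' L a b h2 h3 hz).fun_sub f3)
  have hev : zH L (2 * z) =ᶠ[𝓝 z] fun _ => 0 := by
    filter_upwards [(VV_open L (2 * z)).mem_nhds ⟨hz, hz'⟩] with s hs
    exact zH_zero L a b h2 h3 (2 * z) hz2 hs
  have h0 : deriv (zH L (2 * z)) z = 0 := by
    rw [hev.deriv_eq]; simp
  have h1 := d.deriv
  have h2' : (fun s => (zetaL L s + zetaL L (2 * z - s) - zetaL L (2 * z)) *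
      (L.weierstrassP s - L.weierstrassP (2 * z - s)) +
    (L.derivWeierstrassP s / 2 - L.derivWeierstrassP (2 * z - s) / 2)) = zH L (2 * z) := rfl
  rw [h2', h0, e] at h1
  linear_combination h1

/-- **duplication formula for `ζ`** -/
theorem zeta_dup28 (a b : ℂ) (h2 : L.g₂ = -4 * a) (h3 : L.g₃ = -4 * b) (z : ℂ)
    (hz2 : 2 * z ∉ L.lattice) (hP : L.derivWeierstrassP z ≠ 0) :
    zetaL L (2 * z) = 2 * zetaL L z + (6 * L.weierstrassP z ^ 2 - L.g₂ / 2) /
      (2 * L.derivWeierstrassP z) := by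
  have h := zeta_dup_mul L a b h2 h3 z hz2
  have h4 : (6 * L.weierstrassP z ^ 2 - L.g₂ / 2) / (2 * L.derivWeierstrassP z) =
      zetaL L (2 * z) - 2 * zetaL L z := by
    rw [div_eq_iff (mul_ne_zero two_ne_zero hP), h, h2]; ring
  rw [h4]; ring

/-- `℘(z+w)` through the slope -/
theorem P_add (a b : ℂ) (h2 : L.g₂ = -4 * a) (h3 : L.g₃ = -4 * b) (z w : ℂ)
    (hz : z ∉ L.lattice) (hw : w ∉ L.lattice) (hzw : z + w ∉ L.lattice)
    (hne : L.weierstrassP z ≠ L.weierstrassP w) :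
    L.weierstrassP (z + w) = ((L.derivWeierstrassP z / 2 - L.derivWeierstrassP w / 2) /
      (L.weierstrassP z - L.weierstrassP w)) ^ 2 - L.weierstrassP z - L.weierstrassP w := by
  have h := add_thm L a b h2 h3 z w hz hw hzw
  have hne' : L.weierstrassP z - L.weierstrassP w ≠ 0 := sub_ne_zero.2 hne
  have c1 := add_curve L a b h2 h3 z hz
  have c2 := add_curve L a b h2 h3 w hw
  have h4 : L.weierstrassP (z + w) = addn a b (L.weierstrassP z) (L.weierstrassP w)
      (L.derivWeierstrassP z / 2) (L.derivWeierstrassP w / 2) /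
      (L.weierstrassP z - L.weierstrassP w) ^ 2 := by
    rw [h, mul_div_cancel_right₀ _ (pow_ne_zero 2 hne')]
  rw [h4, div_pow, div_eq_iff (pow_ne_zero 2 hne'), sub_mul, sub_mul,
    div_mul_cancel₀ _ (pow_ne_zero 2 hne')]
  unfold addn
  linear_combination -c1 - c2

/-- **`℘'(z+w)`** -/
theorem derivP_add (a b : ℂ) (h2 : L.g₂ = -4 * a) (h3 : L.g₃ = -4 * b) (z w : ℂ)
    (hz : z ∉ L.lattice) (hw : w ∉ L.lattice) (hzw : z + w ∉ L.lattice)
    (hne : L.weierstrassP z ≠ L.weierstrassP w) :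
    L.derivWeierstrassP (z + w) = -((L.derivWeierstrassP z - L.derivWeierstrassP w) /
      (L.weierstrassP z - L.weierstrassP w) * (L.weierstrassP (z + w) - L.weierstrassP z) +
      L.derivWeierstrassP z) := by
  have hne' : L.weierstrassP z - L.weierstrassP w ≠ 0 := sub_ne_zero.2 hne
  have hev : (fun s => L.weierstrassP (s + w)) =ᶠ[𝓝 z] fun s =>
      ((L.derivWeierstrassP s / 2 - L.derivWeierstrassP w / 2) /
      (L.weierstrassP s - L.weierstrassP w)) ^ 2 - L.weierstrassP s - L.weierstrassP w := by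
    have e1 : ∀ᶠ s in 𝓝 z, s ∉ L.lattice := (isOpen_compl L).mem_nhds hz
    have e2 : ∀ᶠ s in 𝓝 z, s + w ∉ L.lattice := by
      have hcont : ContinuousAt (fun s : ℂ => s + w) z := by fun_prop
      exact hcont.eventually_mem ((isOpen_compl L).mem_nhds hzw)
    have e3 : ∀ᶠ s in 𝓝 z, L.weierstrassP s ≠ L.weierstrassP w :=
      (hasDerivAt_P L hz).continuousAt.eventually_ne hne
    filter_upwards [e1, e2, e3] with s hs1 hs2 hs3
    exact P_add L a b h2 h3 s w hs1 hw hs2 hs3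
  have d1 : HasDerivAt (fun s => L.weierstrassP (s + w)) (2 * (L.derivWeierstrassP (z + w) / 2))
      z := (hasDerivAt_P L hzw).comp_add_const z w
  have d2 := ((((hasDerivAt_P' L a b h2 h3 hz).sub_const (L.derivWeierstrassP w / 2)).fun_div
    ((hasDerivAt_P L hz).sub_const (L.weierstrassP w)) hne').fun_pow 2).fun_sub
    (hasDerivAt_P L hz) |>.sub_const (L.weierstrassP w)
  have h := d1.unique (d2.congr_of_eventuallyEq hev)
  have c1 := add_curve L a b h2 h3 z hz
  have c2 := add_curve L a b h2 h3 w hw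
  rw [P_add L a b h2 h3 z w hz hw hzw hne]
  have h5 : L.derivWeierstrassP (z + w) = 2 * (L.derivWeierstrassP (z + w) / 2) := by ring
  rw [h5, h]
  set x1 := L.weierstrassP z
  set x2 := L.weierstrassP w
  obtain ⟨y1, hy1⟩ : ∃ y1, y1 = L.derivWeierstrassP z / 2 := ⟨_, rfl⟩
  obtain ⟨y2, hy2⟩ : ∃ y2, y2 = L.derivWeierstrassP w / 2 := ⟨_, rfl⟩
  rw [← hy1] at c1 ⊢
  rw [← hy2] at c2 ⊢
  have hz1 : L.derivWeierstrassP z = 2 * y1 := by rw [hy1]; ring
  have hw1 : L.derivWeierstrassP w = 2 * y2 := by rw [hy2]; ring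
  rw [hz1, hw1]
  have hx : x1 - x2 ≠ 0 := hne'
  have key : ((3 * x1 ^ 2 + a) * (x1 - x2) - (y1 - y2) * (2 * y1)) =
      (2 * x1 + x2) * (x1 - x2) ^ 2 - (y1 - y2) ^ 2 := by
    linear_combination -c1 + c2
  have k3 : (2 * y1 - 2 * y2) / (x1 - x2) = 2 * ((y1 - y2) / (x1 - x2)) := by ring
  have k4 : ((2 * x1 + x2) * (x1 - x2) ^ 2 - (y1 - y2) ^ 2) / (x1 - x2) ^ 2 =
      2 * x1 + x2 - ((y1 - y2) / (x1 - x2)) ^ 2 := by
    rw [sub_div, mul_div_cancel_right₀ _ (pow_ne_zero 2 hx), ← div_pow]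
  rw [key, k4, k3]
  generalize (y1 - y2) / (x1 - x2) = m
  push_cast
  ring

end Pool.Agent.ZFR
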