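import Pool.Agent.ZFR.Asm
import Pool.Agent.ZFR.ZAdd
import Pool.Agent.ZFR.Schneider
import Pool.Agent.ZCM.Bridge

/-! # At most `7 ^ dim V` points of a `ℚ`-subspace `V` of `ℂ` have an algebraic zeta value -/

namespace Pool.Agent.ZFR
open Pool.Agent.ZCM Pool.Agent.ZFin

private theorem MainV_alg (r : ℚ) {x : ℂ} (hx : IsAlgebraic ℚ x) : IsAlgebraic ℚ ((r : ℂ) * x) := by
  have h := (isAlgebraic_algebraMap (R := ℚ) (A := ℂ) r).mul hx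
  rwa [eq_ratCast] at h

/-- any lattice with algebraic invariants -/
theorem count_pairV (L : PeriodPair) (h2 : IsAlgebraic ℚ L.g₂) (h3 : IsAlgebraic ℚ L.g₃)
    (V : Submodule ℚ ℂ) [FiniteDimensional ℚ V] (T : Finset ℂ)
    (hT : ∀ p ∈ T, p ∈ V ∧ p ∉ L.lattice ∧ IsAlgebraic ℚ (zetaL L p)) :
    T.card ≤ 7 ^ Module.finrank ℚ V := by
  classical
  obtain ⟨d2, hd2, hi2⟩ := TA_clear _ (MainV_alg (-1 / 4) h2)
  obtain ⟨d3, hd3, hi3⟩ := TA_clear _ (MainV_alg (-1 / 4) h3)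
  set m : ℕ := d2 * d3 with hm
  have hm0 : 0 < m := Nat.mul_pos hd2 hd3
  have hmC : (m : ℂ) ≠ 0 := by exact_mod_cast hm0.ne'
  obtain ⟨L', hL1, hL2, hL3, hL4⟩ := scale L m hm0
  set r1 : ℚ := -(m : ℚ) ^ 4 / 4 with hr1
  set r2 : ℚ := -(m : ℚ) ^ 6 / 4 with hr2
  have ha : IsIntegral ℤ ((r1 : ℂ) * L.g₂) := by
    have e : (r1 : ℂ) * L.g₂ = ((d2 ^ 3 * d3 ^ 4 : ℕ) : ℂ) * ((d2 : ℂ) * (((-1 / 4 : ℚ) : ℂ) * L.g₂)) := by
      rw [hr1, hm]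
      push_cast
      ring
    rw [e]
    exact (TA_nat _).mul hi2
  have hb : IsIntegral ℤ ((r2 : ℂ) * L.g₃) := by
    have e : (r2 : ℂ) * L.g₃ = ((d2 ^ 6 * d3 ^ 5 : ℕ) : ℂ) * ((d3 : ℂ) * (((-1 / 4 : ℚ) : ℂ) * L.g₃)) := by
      rw [hr2, hm]
      push_cast
      ring
    rw [e]
    exact (TA_nat _).mul hi3
  have e2 : L'.g₂ = -4 * ((r1 : ℂ) * L.g₂) := by
    rw [hL2, hr1]
    push_cast
    ring
  have e3 : L'.g₃ = -4 * ((r2 : ℂ) * L.g₃) := by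
    rw [hL3, hr2]
    push_cast
    ring
  have hinj : Function.Injective (fun p : ℂ => ((1 / m : ℚ) : ℂ) * p) := by
    intro p p' h
    simp only at h
    have h5 : (((1 / m : ℚ)) : ℂ) ≠ 0 := by
      push_cast
      exact div_ne_zero one_ne_zero hmC
    exact mul_left_cancel₀ h5 h
  have hmul : ∀ p : ℂ, (m : ℂ) * (((1 / m : ℚ) : ℂ) * p) = p := by
    intro p
    push_cast
    field_simp
  rw [← Finset.card_image_of_injective T hinj]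
  refine count_V L' _ _ (MainV_alg r1 h2) (MainV_alg r2 h3) e2 e3
    (fun z w hz hw hzw hne => zeta_add L' _ _ e2 e3 z w hz hw hzw hne)
    (fun z w hz hw hzw hne => derivP_add L' _ _ e2 e3 z w hz hw hzw hne)
    (fun p hp hP => schneider_zeta L' _ _ ha hb e2 e3 p hp hP) V _ ?_
  intro p' hp'
  rw [Finset.mem_image] at hp'
  obtain ⟨p, hp, rfl⟩ := hp'
  obtain ⟨hp1, hp2, hp3⟩ := hT p hp
  refine ⟨?_, ?_, ?_⟩
  · have h := V.smul_mem (1 / m : ℚ) hp1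
    rwa [Rat.smul_def] at h
  · rw [hL1, hmul]
    exact hp2
  · have hz : zetaL L' (((1 / m : ℚ) : ℂ) * p) = ((m : ℚ) : ℂ) * zetaL L p := by
      rw [hL4, hmul]
      push_cast
      rfl
    rw [hz]
    exact MainV_alg _ hp3

/-- The theorem, for the series over `ℤ × ℤ`. -/
theorem mainV (ω₁ ω₂ : ℂ) (him : (ω₂ / ω₁).im ≠ 0)
    (hg2 : IsAlgebraic ℚ (60 * ∑' q : ℤ × ℤ,
      if q = 0 then (0 : ℂ) else 1 / ((q.1 : ℂ) * ω₁ + (q.2 : ℂ) * ω₂) ^ 4))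
    (hg3 : IsAlgebraic ℚ (140 * ∑' q : ℤ × ℤ,
      if q = 0 then (0 : ℂ) else 1 / ((q.1 : ℂ) * ω₁ + (q.2 : ℂ) * ω₂) ^ 6))
    (V : Submodule ℚ ℂ) [FiniteDimensional ℚ V] (E : Set ℂ)
    (hE : ∀ p ∈ E, p ∈ V ∧ (∀ a b : ℤ, p ≠ (a : ℂ) * ω₁ + (b : ℂ) * ω₂) ∧
      IsAlgebraic ℚ (1 / p + ∑' q : ℤ × ℤ,
          if q = 0 then (0 : ℂ) else
            (1 / (p - ((q.1 : ℂ) * ω₁ + (q.2 : ℂ) * ω₂))
              + 1 / ((q.1 : ℂ) * ω₁ + (q.2 : ℂ) * ω₂)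
              + p / ((q.1 : ℂ) * ω₁ + (q.2 : ℂ) * ω₂) ^ 2))) :
    E.Finite ∧ E.ncard ≤ 7 ^ Module.finrank ℚ V := by
  obtain ⟨L, h1, h2⟩ := exists_periodPair ω₁ ω₂ him
  subst h1 h2
  rw [← g₂_eq_tsum] at hg2
  rw [← g₃_eq_tsum] at hg3
  have key : ∀ T : Finset ℂ, (T : Set ℂ) ⊆ E → T.card ≤ 7 ^ Module.finrank ℚ V := by
    intro T hT
    refine count_pairV L hg2 hg3 V T ?_
    intro p hp
    obtain ⟨ha, hb, hc⟩ := hE p (hT hp)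
    rw [← zetaL_eq_tsum] at hc
    refine ⟨ha, ?_, hc⟩
    intro hmem
    obtain ⟨m, n, hmn⟩ := (PeriodPair.mem_lattice (L := L)).1 hmem
    exact hb m n hmn.symm
  have hfin : E.Finite := by
    by_contra hinf
    obtain ⟨T, hTE, hTc⟩ := Set.Infinite.exists_subset_card_eq (s := E) hinf
      (7 ^ Module.finrank ℚ V + 1)
    have := key T hTE
    omega
  refine ⟨hfin, ?_⟩
  rw [Set.ncard_eq_toFinset_card E hfin]
  exact key _ (by simp)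

end Pool.Agent.ZFR
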