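import Mathlib

/-! # Places with residue field `k` -/

namespace Pool.Agent.ZFR

open IsLocalRing

variable {k K : Type*} [Field k] [Field K] [Algebra k K]

/-- intersection of a chain of valuation subrings -/
theorem place_chain (c : Set (ValuationSubring K)) (hc : IsChain (· ≤ ·) c) :
    ∃ V : ValuationSubring K, (∀ x, x ∈ V ↔ ∀ U ∈ c, x ∈ U) := by
  classical
  refine ⟨⟨⨅ U ∈ c, U.toSubring, ?_⟩, ?_⟩
  · intro x
    by_contra hcon
    push Not at hcon
    obtain ⟨h1, h2⟩ := hcon
    simp only [Subring.mem_carrier, Subring.mem_iInf, not_forall] at h1 h2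
    obtain ⟨U1, hU1, hx1⟩ := h1
    obtain ⟨U2, hU2, hx2⟩ := h2
    rcases hc.total hU1 hU2 with h | h
    · rcases U1.mem_or_inv_mem x with h3 | h3
      · exact hx1 h3
      · exact hx2 (h h3)
    · rcases U2.mem_or_inv_mem x with h3 | h3
      · exact hx1 (h h3)
      · exact hx2 h3
  · intro x
    change x ∈ (⨅ U ∈ c, U.toSubring) ↔ _
    simp only [Subring.mem_iInf]
    rfl

/-- composition of a place with a place of the residue field -/
theorem place_comp (V : ValuationSubring K) (W : ValuationSubring (ResidueField V)) :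
    ∃ V' : ValuationSubring K, ∀ x, x ∈ V' ↔ ∃ h : x ∈ V, residue V ⟨x, h⟩ ∈ W := by
  refine ⟨⟨(W.toSubring.comap (residue V)).map V.subtype, ?_⟩, ?_⟩
  · intro x
    by_cases hx : x ∈ V
    · by_cases hr : residue V ⟨x, hx⟩ ∈ W
      · left
        exact ⟨⟨x, hx⟩, hr, rfl⟩
      · right
        have hne : residue V ⟨x, hx⟩ ≠ 0 := by
          intro h
          apply hr
          rw [h]
          exact W.zero_mem
        have hu : IsUnit (⟨x, hx⟩ : V) := by
          by_contra hu
          apply hne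
          rw [residue_eq_zero_iff]
          exact (mem_maximalIdeal _).2 hu
        obtain ⟨y, hy⟩ := hu.exists_right_inv
        have hxy : x * (y : K) = 1 := congrArg Subtype.val hy
        have hxinv : x⁻¹ = y := (eq_inv_of_mul_eq_one_right hxy).symm
        rw [hxinv]
        refine ⟨y, ?_, rfl⟩
        have h3 : residue V ⟨x, hx⟩ * residue V y = 1 := by rw [← map_mul, hy, map_one]
        change residue V y ∈ W
        rw [eq_inv_of_mul_eq_one_right h3]
        exact (W.mem_or_inv_mem _).resolve_left hr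
    · right
      have h1 := (V.mem_or_inv_mem x).resolve_left hx
      refine ⟨⟨x⁻¹, h1⟩, ?_, rfl⟩
      change residue V ⟨x⁻¹, h1⟩ ∈ W
      have h2 : residue V ⟨x⁻¹, h1⟩ = 0 := by
        rw [residue_eq_zero_iff, mem_maximalIdeal]
        intro hu
        obtain ⟨y, hy⟩ := hu.exists_right_inv
        have hxy : x⁻¹ * (y : K) = 1 := congrArg Subtype.val hy
        apply hx
        have : x = y := by
          have := eq_inv_of_mul_eq_one_right hxy
          rw [this, inv_inv]
        rw [this]
        exact y.2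
      rw [h2]
      exact W.zero_mem
  · intro x
    constructor
    · rintro ⟨y, hy, rfl⟩
      exact ⟨y.2, hy⟩
    · rintro ⟨h, hr⟩
      exact ⟨⟨x, h⟩, hr, rfl⟩

/-- `k` algebraically closed is integrally closed in every extension field -/
theorem icl (k K : Type*) [Field k] [Field K] [Algebra k K] [IsAlgClosed k] :
    IsIntegrallyClosedIn (⊥ : Subalgebra k K).toSubring K := by
  refine Subring.isIntegrallyClosedIn_iff.2 ?_
  intro x hx
  have hx' : IsIntegral (⊥ : Subalgebra k K) x := hx
  have : Algebra.IsIntegral k (⊥ : Subalgebra k K) := by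
    constructor
    rintro ⟨y, hy⟩
    obtain ⟨c, rfl⟩ := Algebra.mem_bot.1 hy
    exact isIntegral_algebraMap (R := k) (A := (⊥ : Subalgebra k K)) (x := c)
  have h1 : IsIntegral k x := isIntegral_trans (R := k) x hx'
  have h2 := IsAlgClosed.degree_eq_one_of_irreducible k (minpoly.irreducible h1)
  obtain ⟨c, hc⟩ := minpoly.mem_range_of_degree_eq_one k x h2
  exact Algebra.mem_bot.2 ⟨c, hc⟩

theorem exists_vs [IsAlgClosed k] (f : K) (hf : ∀ c : k, algebraMap k K c ≠ f) :
    ∃ V : ValuationSubring K, (∀ c : k, algebraMap k K c ∈ V) ∧ f ∉ V := by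
  have := icl k K
  obtain ⟨V, hV1, hV2⟩ := Subring.exists_le_valuationSubring_of_isIntegrallyClosedIn
      (x := f) (R := (⊥ : Subalgebra k K).toSubring)
      (by
        intro h
        obtain ⟨c, hc⟩ := Algebra.mem_bot.1 (show f ∈ (⊥ : Subalgebra k K) from h)
        exact hf c hc)
  refine ⟨V, fun c => hV1 ?_, hV2⟩
  exact Algebra.mem_bot.2 ⟨c, rfl⟩

/-- for `k` algebraically closed and `f ∉ k` there is a place of `K / k` with residue field `k` and a pole
at `f` -/
theorem exists_place [IsAlgClosed k] (f : K) (hf : ∀ c : k, algebraMap k K c ≠ f) :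
    ∃ V : ValuationSubring K, (∀ c : k, algebraMap k K c ∈ V) ∧ f ∉ V ∧
      ∀ x ∈ V, ∃ c : k, V.valuation (x - algebraMap k K c) < 1 := by
  classical
  let P : Set (ValuationSubring K)ᵒᵈ :=
    {V | (∀ c : k, algebraMap k K c ∈ OrderDual.ofDual V) ∧ f ∉ OrderDual.ofDual V}
  -- there is one
  obtain ⟨V0, hV0⟩ := exists_vs (k := k) f hf
  obtain ⟨V, -, hV⟩ := zorn_le_nonempty₀ P (by
    intro c hcP hc y hy
    obtain ⟨U, hU⟩ := place_chain (OrderDual.ofDual '' c) (by
      rintro _ ⟨a, ha, rfl⟩ _ ⟨b, hb, rfl⟩ hab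
      rcases hc ha hb (fun h => hab (by rw [h])) with h | h
      · right; exact h
      · left; exact h)
    refine ⟨OrderDual.toDual U, ⟨?_, ?_⟩, ?_⟩
    · intro a
      change algebraMap k K a ∈ U
      rw [hU]
      rintro _ ⟨W, hW, rfl⟩
      exact (hcP hW).1 a
    · change f ∉ U
      rw [hU]
      intro h
      exact (hcP hy).2 (h _ ⟨y, hy, rfl⟩)
    · intro W hW
      change U ≤ OrderDual.ofDual W
      intro x hx
      exact (hU x).1 hx _ ⟨W, hW, rfl⟩) (OrderDual.toDual V0) ⟨hV0.1, hV0.2⟩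
  obtain ⟨⟨hV1, hV2⟩, hmin⟩ := hV
  refine ⟨OrderDual.ofDual V, hV1, hV2, ?_⟩
  set U := OrderDual.ofDual V with hU
  intro x hx
  by_contra hcon
  push Not at hcon
  -- the residue field is an extension of `k`
  let ρ : k →+* ResidueField U :=
    (residue U).comp ((algebraMap k K).codRestrict U.toSubring hV1)
  let _ : Algebra k (ResidueField U) := ρ.toAlgebra
  have h1 : ∀ c : k, algebraMap k (ResidueField U) c ≠ residue U ⟨x, hx⟩ := by
    intro c hc
    have h2 : residue U (⟨x, hx⟩ - (⟨algebraMap k K c, hV1 c⟩ : U)) = 0 := by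
      rw [map_sub, sub_eq_zero, ← hc]
      rfl
    rw [residue_eq_zero_iff] at h2
    have h3 := (ValuationSubring.valuation_lt_one_iff U _).1 h2
    exact absurd h3 (not_lt.2 (hcon c))
  obtain ⟨W, hW1, hW2⟩ := exists_vs (k := k) _ h1
  obtain ⟨V', hV'⟩ := place_comp U W
  have hle : V' ≤ U := fun y hy => ((hV' y).1 hy).1
  have h4 : OrderDual.toDual V' ∈ P := by
    refine ⟨fun c => ?_, fun h => hV2 (hle h)⟩
    exact (hV' _).2 ⟨hV1 c, hW1 c⟩
  have h5 : U ≤ V' := hmin h4 hle
  exact hW2 ((hV' x).1 (h5 hx)).2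

end Pool.Agent.ZFR
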