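import Pool.Agent.ZFin.SchPts
import Pool.Agent.ZFin.DerivG

/-! # ZFR/SchPt: many points with algebraic values of `℘`, `℘'`, `ζ` -/

namespace Pool.Agent.ZFR
open Pool.Agent.ZCM Pool.Agent.ZFin PowerSeries

theorem zetaL_neg (L : PeriodPair) (z : ℂ) : zetaL L (-z) = -zetaL L z := by
  unfold zetaL
  rw [← tsum_neg, ← (Equiv.neg L.lattice).tsum_eq]
  refine tsum_congr fun l => ?_
  rw [Equiv.neg_apply, Submodule.coe_neg]
  have e1 : -z - -(l : ℂ) = -(z - l) := by ring
  have e2 : (-(l : ℂ)) ^ 2 = (l : ℂ) ^ 2 := by ring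
  rw [e1, e2, div_neg, div_neg, neg_div]
  ring

/-- duplication formula for the zeta function -/
theorem zeta_dup (L : PeriodPair) (a b : ℂ) (h2 : L.g₂ = -4 * a) (h3 : L.g₃ = -4 * b)
    (z : ℂ) (hz : z ∉ L.lattice) (h2z : 2 * z ∉ L.lattice) :
    zetaL L (2 * z) = 2 * zetaL L z +
      (3 * L.weierstrassP z ^ 2 + a) / (2 * (L.derivWeierstrassP z / 2)) := by
  have hS : ev (SS a b) z ≠ 0 := fun h0 => hz ((S_eq_zero_iff L a b h2 h3 z).mp h0)
  have hy0 : L.derivWeierstrassP z / 2 ≠ 0 := fun h =>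
    h2z ((two_mul_mem_iff L a b h2 h3 z hz).2 h)
  -- the identity `σ(2w) = -2 σ(w)^4 y(w)` near `z`
  have hev : (fun w => ev (SS a b) (2 * w)) =ᶠ[nhds z]
      fun w => -2 * (ev (SS a b) w ^ 4 * (L.derivWeierstrassP w / 2)) := by
    filter_upwards [(isOpen_compl L).mem_nhds hz] with w hw
    rw [SchDup_SS, ← link_q L a b h2 h3 hw]
    ring
  have hd1 : HasDerivAt (fun w => ev (SS a b) (2 * w)) (ev (RR a b) (2 * z) * 2) z := by
    have h4 : HasDerivAt (fun w : ℂ => 2 * w) 2 z := by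
      simpa using (hasDerivAt_id' z).const_mul (2 : ℂ)
    exact (hasDerivAt_S a b (2 * z)).comp z h4
  have hd2 : HasDerivAt (fun w => -2 * (ev (SS a b) w ^ 4 * (L.derivWeierstrassP w / 2)))
      (-2 * ((4 : ℕ) * ev (SS a b) z ^ 3 * ev (RR a b) z * (L.derivWeierstrassP z / 2) +
        ev (SS a b) z ^ 4 * (3 * L.weierstrassP z ^ 2 + a))) z := by
    have h4 := (hasDerivAt_S a b z).pow 4
    have h5 := hasDerivAt_P' L a b h2 h3 hz
    exact ((h4.mul h5).const_mul (-2))
  have h6 := (hd1.congr_of_eventuallyEq hev.symm).unique hd2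
  have hR := link_R L a b h2 h3 hz
  have hR2 := link_R L a b h2 h3 h2z
  have hq := link_q L a b h2 h3 hz
  rw [SchDup_SS, ← hq] at hR2
  rw [← hR2, ← hR] at h6
  have h8 : 2 * (L.derivWeierstrassP z / 2) ≠ 0 := mul_ne_zero two_ne_zero hy0
  rw [← sub_eq_iff_eq_add', eq_div_iff h8]
  apply mul_left_cancel₀ (pow_ne_zero 4 hS)
  push_cast at h6
  linear_combination (-1 / 2 : ℂ) * h6

/-- infinitely many points over one number field, with the values of `ζ` -/
theorem many_points_zeta (L : PeriodPair) (a b : ℂ) (ha : IsIntegral ℤ a) (hb : IsIntegral ℤ b)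
    (h2 : L.g₂ = -4 * a) (h3 : L.g₃ = -4 * b) (β : ℂ) (hβ : β ∉ L.lattice)
    (hP : IsAlgebraic ℚ (L.weierstrassP β)) (hZ : IsAlgebraic ℚ (zetaL L β)) :
    ∃ (K : Type) (_ : Field K) (_ : NumberField K) (ι : K →+* ℂ)
      (a' b' : NumberField.RingOfIntegers K) (w : ℕ → ℂ) (x y u : ℕ → K),
      a = oc ι a' ∧ b = oc ι b' ∧ Function.Injective w ∧ (∀ n, w n ∉ L.lattice) ∧
      (∀ n, L.weierstrassP (w n) = ι (x n)) ∧
      (∀ n, L.derivWeierstrassP (w n) / 2 = ι (y n)) ∧
      ∀ n, zetaL L (w n) = ι (u n) := by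
  have hβ0 : β ≠ 0 := by
    rintro rfl
    exact hβ L.lattice.zero_mem
  have hy0 : (L.derivWeierstrassP β / 2) ^ 2 =
      L.weierstrassP β ^ 3 + a * L.weierstrassP β + b := by
    have h := L.derivWeierstrassP_sq β hβ
    rw [h2, h3] at h
    linear_combination h / 4
  have haQ : IsAlgebraic ℚ a := (ha.tower_top (A := ℚ)).isAlgebraic
  have hbQ : IsAlgebraic ℚ b := (hb.tower_top (A := ℚ)).isAlgebraic
  have hyQ : IsAlgebraic ℚ (L.derivWeierstrassP β / 2) := by
    refine IsAlgebraic.of_pow (n := 2) (by norm_num) ?_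
    rw [hy0]
    exact ((hP.pow 3).add (haQ.mul hP)).add hbQ
  set s : Set ℂ := {a, b, zetaL L β, L.weierstrassP β, L.derivWeierstrassP β / 2} with hs
  set K := IntermediateField.adjoin ℚ s with hK
  have hsK : s ⊆ K := IntermediateField.subset_adjoin ℚ s
  have haK : a ∈ K := hsK (by simp [hs])
  have hbK : b ∈ K := hsK (by simp [hs])
  have huK : zetaL L β ∈ K := hsK (by simp [hs])
  have hxK : L.weierstrassP β ∈ K := hsK (by simp [hs])
  have hyK : L.derivWeierstrassP β / 2 ∈ K := hsK (by simp [hs])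
  have hfin : FiniteDimensional ℚ K := by
    have hsf : Finite s := by
      rw [hs]; infer_instance
    refine IntermediateField.finiteDimensional_adjoin ?_
    intro t ht
    rw [hs] at ht
    simp only [Set.mem_insert_iff, Set.mem_singleton_iff] at ht
    rcases ht with rfl | rfl | rfl | rfl | rfl
    · exact haQ.isIntegral
    · exact hbQ.isIntegral
    · exact hZ.isIntegral
    · exact hP.isIntegral
    · exact hyQ.isIntegral
  have hNF : NumberField K := ⟨⟩
  have haI : IsIntegral ℤ (⟨a, haK⟩ : K) :=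
    (isIntegral_algHom_iff (K.val.restrictScalars ℤ) K.val.injective).mp ha
  have hbI : IsIntegral ℤ (⟨b, hbK⟩ : K) :=
    (isIntegral_algHom_iff (K.val.restrictScalars ℤ) K.val.injective).mp hb
  have hind : ∀ n : ℕ, (∀ i ≤ n, 2 ^ i * β ∉ L.lattice) →
      ∃ X Y U : K, L.weierstrassP (2 ^ n * β) = X ∧
        L.derivWeierstrassP (2 ^ n * β) / 2 = Y ∧ zetaL L (2 ^ n * β) = U := by
    intro n
    induction n with
    | zero => exact fun _ => ⟨⟨_, hxK⟩, ⟨_, hyK⟩, ⟨_, huK⟩, by simp, by simp, by simp⟩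
    | succ n ih =>
      intro hn0
      obtain ⟨X, Y, U, hX, hY, hU⟩ := ih fun i hi => hn0 i (by omega)
      have e : (2 : ℂ) ^ (n + 1) * β = 2 * (2 ^ n * β) := by ring
      have hn := hn0 (n + 1) le_rfl
      have hn' := hn0 n (by omega)
      rw [e] at hn
      have h := dup_lat L a b h2 h3 (2 ^ n * β) X Y hn' hn hX.symm hY.symm
      have hz := zeta_dup L a b h2 h3 (2 ^ n * β) hn' hn
      rw [e, h.1, h.2, hz, hX, hY, hU]
      refine ⟨((3 * X ^ 2 + ⟨a, haK⟩) ^ 2 - 8 * X * Y ^ 2) / (4 * Y ^ 2),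
        -((3 * X ^ 2 + ⟨a, haK⟩) ^ 3 - 12 * X * Y ^ 2 * (3 * X ^ 2 + ⟨a, haK⟩) + 8 * Y ^ 4) /
          (8 * Y ^ 3), 2 * U + (3 * X ^ 2 + ⟨a, haK⟩) / (2 * Y), ?_, ?_, ?_⟩ <;> push_cast <;> rfl
  by_cases hcase : ∀ n : ℕ, 2 ^ n * β ∉ L.lattice
  · have hind' := fun n => hind n fun i _ => hcase i
    choose x y u hx hy hu using hind'
    refine ⟨K, inferInstance, hNF, (K.val : K →+* ℂ), ⟨⟨a, haK⟩, haI⟩, ⟨⟨b, hbK⟩, hbI⟩,
      fun n => 2 ^ n * β, x, y, u, rfl, rfl, ?_, hcase, hx, hy, hu⟩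
    intro n m hnm
    simp only at hnm
    have h4 := mul_right_cancel₀ hβ0 hnm
    have h5 : 2 ^ n = 2 ^ m := by exact_mod_cast h4
    exact Nat.pow_right_injective le_rfl h5
  · push Not at hcase
    classical
    obtain ⟨k, hk, hkmin⟩ : ∃ k, 2 ^ k * β ∈ L.lattice ∧ ∀ i < k, 2 ^ i * β ∉ L.lattice :=
      ⟨Nat.find hcase, Nat.find_spec hcase, fun i hi => Nat.find_min hcase hi⟩
    obtain ⟨k, rfl⟩ : ∃ k', k = k' + 1 := by
      refine Nat.exists_eq_succ_of_ne_zero ?_
      rintro rfl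
      exact hβ (by simpa using hk)
    set v : ℂ := 2 ^ k * β with hv
    have hvL : v ∉ L.lattice := hkmin k (Nat.lt_succ_self k)
    have hv0 : v ≠ 0 := by
      intro h
      exact hvL (h ▸ L.lattice.zero_mem)
    have hk' : 2 * v ∈ L.lattice := by
      rw [hv, show (2 : ℂ) * (2 ^ k * β) = 2 ^ (k + 1) * β by ring]
      exact hk
    obtain ⟨X, Y, U, hX, hY, hU⟩ := hind k fun i hi => hkmin i (by omega)
    rw [← hv] at hX hY hU
    obtain ⟨η, hη⟩ := zetaL_add L
    have hmem : ∀ n : ℕ, (n : ℂ) * (2 * v) ∈ L.lattice := by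
      intro n
      have h1 := L.lattice.smul_mem (n : ℤ) hk'
      rw [zsmul_eq_mul] at h1
      exact_mod_cast h1
    have hη2 : η ⟨2 * v, hk'⟩ = 2 * zetaL L v := by
      have hnv : -v ∉ L.lattice := by
        intro h
        exact hvL (by simpa using L.lattice.neg_mem h)
      have h1 := hη (-v) hnv ⟨2 * v, hk'⟩
      simp only at h1
      rw [zetaL_neg, show -v + 2 * v = v by ring] at h1
      linear_combination -h1
    have hηn : ∀ n : ℕ, η ⟨(n : ℂ) * (2 * v), hmem n⟩ = n * (2 * zetaL L v) := by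
      intro n
      have h1 : (⟨(n : ℂ) * (2 * v), hmem n⟩ : L.lattice) = n • ⟨2 * v, hk'⟩ := by
        ext
        push_cast
        rw [nsmul_eq_mul]
      rw [h1, map_nsmul, hη2, nsmul_eq_mul]
    refine ⟨K, inferInstance, hNF, (K.val : K →+* ℂ), ⟨⟨a, haK⟩, haI⟩, ⟨⟨b, hbK⟩, hbI⟩,
      fun n => v + n * (2 * v), fun _ => X, fun _ => Y, fun n => U + n * (2 * U),
      rfl, rfl, ?_, ?_, ?_, ?_, ?_⟩
    · intro n m hnm
      simp only at hnm
      have h4 := mul_right_cancel₀ (mul_ne_zero two_ne_zero hv0) (add_left_cancel hnm)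
      exact_mod_cast h4
    · intro n hcon
      apply hvL
      have := L.lattice.sub_mem hcon (hmem n)
      rwa [add_sub_cancel_right] at this
    · intro n
      have := L.weierstrassP_add_coe v ⟨_, hmem n⟩
      simp only at this
      rw [this]
      exact hX
    · intro n
      have := L.derivWeierstrassP_add_coe v ⟨_, hmem n⟩
      simp only at this
      rw [this]
      exact hY
    · intro n
      have := hη v hvL ⟨_, hmem n⟩
      simp only at this
      rw [this, hηn n, hU]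
      change (U : ℂ) + _ = K.val (U + n * (2 * U))
      rw [map_add, map_mul, map_mul, map_natCast, map_ofNat]
      rfl

end Pool.Agent.ZFR
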