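import Pool.Agent.ZFR.SchPt
import Pool.Agent.ZFin.Scale

/-! # ZFR/SchSc: from integral invariants to algebraic invariants; quasi-periods -/

namespace Pool.Agent.ZFR
open Pool.Agent.ZCM Pool.Agent.ZFin Filter Topology

/-- the statement of Schneider's theorem for `℘`, `ζ` and integral invariants -/
def SchInt : Prop := ∀ (L : PeriodPair) (a b : ℂ), IsIntegral ℤ a → IsIntegral ℤ b →
  L.g₂ = -4 * a → L.g₃ = -4 * b → ∀ p : ℂ, p ∉ L.lattice → IsAlgebraic ℚ (L.weierstrassP p) →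
  ¬ IsAlgebraic ℚ (zetaL L p)

theorem SchSc_rat (r : ℚ) {x : ℂ} (hx : IsAlgebraic ℚ x) : IsAlgebraic ℚ ((r : ℂ) * x) := by
  have h := (isAlgebraic_algebraMap (R := ℚ) (A := ℂ) r).mul hx
  rwa [eq_ratCast] at h

theorem SchSc_nat (m : ℕ) {x : ℂ} (hx : IsAlgebraic ℚ x) : IsAlgebraic ℚ ((m : ℂ) * x) := by
  have := SchSc_rat (m : ℚ) hx
  push_cast at this
  exact this

/-- Schneider's theorem for all lattices with algebraic invariants -/
theorem schneider_zeta_alg (hS : SchInt) (L : PeriodPair) (h2 : IsAlgebraic ℚ L.g₂)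
    (h3 : IsAlgebraic ℚ L.g₃) (p : ℂ) (hp : p ∉ L.lattice)
    (hP : IsAlgebraic ℚ (L.weierstrassP p)) : ¬ IsAlgebraic ℚ (zetaL L p) := by
  intro hZ
  obtain ⟨d2, hd2, hi2⟩ := TA_clear _ (SchSc_rat (-1 / 4) h2)
  obtain ⟨d3, hd3, hi3⟩ := TA_clear _ (SchSc_rat (-1 / 4) h3)
  obtain ⟨m, hm⟩ : ∃ m : ℕ, m = d2 * d3 := ⟨_, rfl⟩
  have hm0 : 0 < m := by rw [hm]; exact Nat.mul_pos hd2 hd3
  have hmC : (m : ℂ) ≠ 0 := by exact_mod_cast hm0.ne'
  obtain ⟨L', hL1, hL2, hL3, hL4⟩ := scale L m hm0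
  have ha : IsIntegral ℤ (-(m : ℂ) ^ 4 / 4 * L.g₂) := by
    have e : -(m : ℂ) ^ 4 / 4 * L.g₂ =
        ((d2 ^ 3 * d3 ^ 4 : ℕ) : ℂ) * ((d2 : ℂ) * (((-1 / 4 : ℚ) : ℂ) * L.g₂)) := by
      rw [hm]
      push_cast
      ring
    rw [e]
    exact (TA_nat _).mul hi2
  have hb : IsIntegral ℤ (-(m : ℂ) ^ 6 / 4 * L.g₃) := by
    have e : -(m : ℂ) ^ 6 / 4 * L.g₃ =
        ((d2 ^ 6 * d3 ^ 5 : ℕ) : ℂ) * ((d3 : ℂ) * (((-1 / 4 : ℚ) : ℂ) * L.g₃)) := by
      rw [hm]
      push_cast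
      ring
    rw [e]
    exact (TA_nat _).mul hi3
  have hmul : (m : ℂ) * (p / m) = p := by field_simp
  have hp' : p / m ∉ L'.lattice := by
    rw [hL1, hmul]
    exact hp
  -- the relation for `℘`
  have hPP : L'.weierstrassP (p / m) = (m : ℂ) ^ 2 * L.weierstrassP p := by
    have h4 := hasDerivAt_zetaL L' hp'
    have h5 : HasDerivAt (fun w : ℂ => (m : ℂ) * w) (m : ℂ) (p / m) := by
      simpa using (hasDerivAt_id' (p / (m : ℂ))).const_mul (m : ℂ)
    have h6 : HasDerivAt (zetaL L) (-L.weierstrassP p) ((m : ℂ) * (p / m)) := by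
      rw [hmul]
      exact hasDerivAt_zetaL L hp
    have h7 := (h6.comp (p / (m : ℂ)) h5).const_mul (m : ℂ)
    have h8 : zetaL L' = fun w => (m : ℂ) * (zetaL L ∘ fun w : ℂ => (m : ℂ) * w) w := by
      funext w
      exact hL4 w
    rw [h8] at h4
    have h9 := h4.unique h7
    linear_combination -h9
  refine hS L' _ _ ha hb ?_ ?_ (p / m) hp' ?_ ?_
  · rw [hL2]
    ring
  · rw [hL3]
    ring
  · rw [hPP]
    have := SchSc_nat (m ^ 2) hP
    push_cast at this
    exact this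
  · rw [hL4, hmul]
    exact SchSc_nat m hZ

/-- a non-zero lattice point is `2^k v` with `v` outside and `2 v` inside the lattice -/
theorem lattice_half (L : PeriodPair) (l : ℂ) (hl : l ∈ L.lattice) (hl0 : l ≠ 0) :
    ∃ (k : ℕ) (v : ℂ), v ∉ L.lattice ∧ 2 * v ∈ L.lattice ∧ l = 2 ^ k * (2 * v) := by
  classical
  have h1 : Tendsto (fun k : ℕ => l / 2 ^ k) atTop (𝓝[≠] 0) := by
    rw [tendsto_nhdsWithin_iff]
    constructor
    · have h2 : Tendsto (fun k : ℕ => l * ((1 : ℂ) / 2) ^ k) atTop (𝓝 (l * 0)) :=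
        (tendsto_pow_atTop_nhds_zero_of_norm_lt_one (by norm_num)).const_mul l
      rw [mul_zero] at h2
      refine h2.congr fun k => ?_
      rw [one_div, inv_pow, div_eq_mul_inv]
    · exact Eventually.of_forall fun k => div_ne_zero hl0 (pow_ne_zero _ two_ne_zero)
  have h2 : ∃ k : ℕ, l / 2 ^ k ∉ L.lattice := (h1.eventually (eventually_notMem L)).exists
  have h3 := Nat.find_spec h2
  obtain ⟨k, hk⟩ : ∃ k, Nat.find h2 = k + 1 := by
    refine Nat.exists_eq_succ_of_ne_zero fun h0 => ?_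
    rw [h0] at h3
    exact h3 (by simpa using hl)
  rw [hk] at h3
  have h4 : l / 2 ^ k ∈ L.lattice := by
    have := Nat.find_min h2 (show k < Nat.find h2 by omega)
    exact not_not.1 this
  have e : 2 * (l / 2 ^ (k + 1)) = l / 2 ^ k := by
    rw [pow_succ]
    field_simp
  refine ⟨k, l / 2 ^ (k + 1), h3, by rw [e]; exact h4, ?_⟩
  rw [e]
  field_simp

/-- the quasi-periods are transcendental -/
theorem eta_transc (hS : SchInt) (L : PeriodPair) (h2 : IsAlgebraic ℚ L.g₂)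
    (h3 : IsAlgebraic ℚ L.g₃) (η : L.lattice →+ ℂ)
    (hη : ∀ z ∉ L.lattice, ∀ l : L.lattice, zetaL L (z + l) = zetaL L z + η l)
    (l : L.lattice) (hl : l ≠ 0) : ¬ IsAlgebraic ℚ (η l) := by
  intro hA
  have hl0 : (l : ℂ) ≠ 0 := fun h => hl (Subtype.ext h)
  obtain ⟨k, v, hv, h2v, hkv⟩ := lattice_half L l l.2 hl0
  have hnv : -v ∉ L.lattice := by
    intro h
    exact hv (by simpa using L.lattice.neg_mem h)
  have hη2 : η ⟨2 * v, h2v⟩ = 2 * zetaL L v := by
    have h1 := hη (-v) hnv ⟨2 * v, h2v⟩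
    simp only at h1
    rw [zetaL_neg, show -v + 2 * v = v by ring] at h1
    linear_combination -h1
  have hl2 : l = (2 ^ k : ℕ) • (⟨2 * v, h2v⟩ : L.lattice) := by
    ext
    push_cast
    rw [hkv, nsmul_eq_mul]
    push_cast
    ring
  have hηl : η l = (2 ^ (k + 1) : ℕ) * zetaL L v := by
    rw [hl2, map_nsmul, hη2, nsmul_eq_mul]
    push_cast
    ring
  -- `℘(v)` is algebraic
  have hy : L.derivWeierstrassP v / 2 = 0 :=
    (two_mul_mem_iff L (-L.g₂ / 4) (-L.g₃ / 4) (by ring) (by ring) v hv).1 h2v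
  have hP : IsAlgebraic ℚ (L.weierstrassP v) := by
    have h := L.derivWeierstrassP_sq v hv
    have hy' : L.derivWeierstrassP v = 0 := by linear_combination 2 * hy
    rw [hy'] at h
    -- integral over the algebraic closure of ℚ in ℂ
    let F := algebraicClosure ℚ ℂ
    have g2F : L.g₂ ∈ F := mem_algebraicClosure_iff.2 h2
    have g3F : L.g₃ ∈ F := mem_algebraicClosure_iff.2 h3
    have hF : IsAlgebraic F (L.weierstrassP v) := by
      refine ⟨4 * Polynomial.X ^ 3 - Polynomial.C (⟨L.g₂, g2F⟩ : F) * Polynomial.X -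
        Polynomial.C (⟨L.g₃, g3F⟩ : F), ?_, ?_⟩
      · intro h0
        have h4 := congrArg (fun q => Polynomial.coeff q 3) h0
        have e4 : (4 : Polynomial F) = Polynomial.C 4 := (map_ofNat Polynomial.C 4).symm
        rw [e4] at h4
        simp only [Polynomial.coeff_sub, Polynomial.coeff_C_mul, Polynomial.coeff_X_pow,
          Polynomial.coeff_X, Polynomial.coeff_C, Polynomial.coeff_zero] at h4
        norm_num at h4
      · simp only [map_sub, map_mul, map_pow, Polynomial.aeval_X, Polynomial.aeval_C, map_ofNat]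
        change 4 * L.weierstrassP v ^ 3 - L.g₂ * L.weierstrassP v - L.g₃ = 0
        linear_combination -h
    exact mem_algebraicClosure_iff.1
      ((IntermediateField.mem_bot.1 (by
        have := (algebraicClosure.algebraicClosure_eq_bot ℚ ℂ)
        rw [← this]
        exact mem_algebraicClosure_iff.2 hF)).elim fun x hx => by rw [← hx]; exact x.2)
  refine schneider_zeta_alg hS L h2 h3 v hv hP ?_
  have h5 : zetaL L v = ((1 / (2 ^ (k + 1) : ℕ) : ℚ) : ℂ) * η l := by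
    rw [hηl]
    push_cast
    field_simp
  rw [h5]
  exact SchSc_rat _ hA

end Pool.Agent.ZFR
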