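import Pool.Agent.ZFin.SchInt

/-! # Schneider's theorem for `℘` and `ζ`: integrality and size, uniform in the degree `N`

`P = PP 1 N p = ∑ p_0jk X^j Y^k`, `j, k < N`. -/

namespace Pool.Agent.ZFR
open Polynomial NumberField Pool.Agent.ZCM Pool.Agent.ZFin

/-- integrality of the derivatives -/
theorem sz_int {K : Type} [Field K] [NumberField K] (a : 𝓞 K) (v : Fin 4 → K) :
    ∃ M : ℕ, 0 < M ∧ ∀ (N t : ℕ) (p : ℕ → ℕ → ℕ → ℤ),
      IsIntegral ℤ ((M : K) ^ (1 + 2 * N + t) *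
        MvPolynomial.eval v ((⇑(D4 (a : K)))^[t] (PP K 1 N p))) := by
  obtain ⟨M, hM, hMi⟩ := TA_mult (K := K) v
  refine ⟨M, hM, fun N t p => ?_⟩
  have h1 : MvPolynomial.map (algebraMap (𝓞 K) K) ((⇑(D4 a))^[t] (PP (𝓞 K) 1 N p)) =
      (⇑(D4 (a : K)))^[t] (PP K 1 N p) := by
    rw [map_D4_iterate, map_PP]
  rw [← h1]
  apply TA_int _ _ M hMi
  refine (totalDegree_D4_iterate_le _ _ _).trans ?_
  have := totalDegree_PP_le (R := 𝓞 K) 1 N p
  omega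

theorem sz_aux (A M : ℝ) (hA : 0 ≤ A) (hM : 1 ≤ M) :
    ∃ C : ℝ, 0 ≤ C ∧ ∀ N t : ℕ,
      ((3 + A) * ((1 + 2 * N : ℕ) + t : ℝ)) ^ t * (1 * (N : ℝ) ^ 2) * M ^ (1 + 2 * N + t) ≤
        Real.exp (t * Real.log (N + t + 1) + C * (N + t + 1)) := by
  set c1 : ℝ := (3 + A) * 2 with hc1
  have hc1' : 1 ≤ c1 := by
    rw [hc1]; nlinarith
  have hlc : 0 ≤ Real.log c1 := Real.log_nonneg hc1'
  have hlM : 0 ≤ Real.log M := Real.log_nonneg hM
  refine ⟨Real.log c1 + 2 + 2 * Real.log M, by positivity, fun N t => ?_⟩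
  have hN : (0 : ℝ) ≤ N := Nat.cast_nonneg _
  have ht : (0 : ℝ) ≤ t := Nat.cast_nonneg _
  have hpos : (0 : ℝ) < N + t + 1 := by positivity
  -- first factor
  have h1 : ((3 + A) * ((1 + 2 * N : ℕ) + t : ℝ)) ^ t ≤
      Real.exp (t * Real.log (N + t + 1) + Real.log c1 * (N + t + 1)) := by
    have e1 : (3 + A) * ((1 + 2 * N : ℕ) + t : ℝ) ≤ c1 * (N + t + 1) := by
      rw [hc1]; push_cast
      have : (1 : ℝ) + 2 * N + t ≤ 2 * (N + t + 1) := by linarith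
      nlinarith
    have e2 : ((3 + A) * ((1 + 2 * N : ℕ) + t : ℝ)) ^ t ≤ (c1 * (N + t + 1)) ^ t :=
      pow_le_pow_left₀ (by positivity) e1 _
    refine e2.trans ?_
    have e3 : (c1 * (N + t + 1)) ^ t = Real.exp (t * Real.log (N + t + 1) + t * Real.log c1) := by
      rw [← Real.exp_log (show (0 : ℝ) < (c1 * (N + t + 1)) ^ t by positivity), Real.log_pow,
        Real.log_mul (by positivity) (by positivity)]
      congr 1; ring
    rw [e3, Real.exp_le_exp]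
    nlinarith
  have h2 : 1 * (N : ℝ) ^ 2 ≤ Real.exp (2 * (N + t + 1)) := by
    have e1 : (N : ℝ) ≤ Real.exp (N + t + 1) := by
      have := Real.add_one_le_exp ((N : ℝ) + t + 1)
      linarith
    calc 1 * (N : ℝ) ^ 2 ≤ Real.exp (N + t + 1) * Real.exp (N + t + 1) := by
          rw [one_mul, pow_two]
          exact mul_le_mul e1 e1 hN (Real.exp_pos _).le
      _ = _ := by rw [← Real.exp_add]; congr 1; ring
  have h3 : M ^ (1 + 2 * N + t) ≤ Real.exp (2 * Real.log M * (N + t + 1)) := by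
    have e1 : M ^ (1 + 2 * N + t) = Real.exp (((1 + 2 * N + t : ℕ) : ℝ) * Real.log M) := by
      rw [← Real.exp_log (show (0 : ℝ) < M ^ (1 + 2 * N + t) by positivity), Real.log_pow]
    rw [e1, Real.exp_le_exp]
    push_cast
    have : (1 : ℝ) + 2 * N + t ≤ 2 * (N + t + 1) := by linarith
    nlinarith
  calc ((3 + A) * ((1 + 2 * N : ℕ) + t : ℝ)) ^ t * (1 * (N : ℝ) ^ 2) * M ^ (1 + 2 * N + t)
      ≤ Real.exp (t * Real.log (N + t + 1) + Real.log c1 * (N + t + 1)) *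
        Real.exp (2 * (N + t + 1)) * Real.exp (2 * Real.log M * (N + t + 1)) := by
        refine mul_le_mul (mul_le_mul h1 h2 (by positivity) (by positivity)) h3 (by positivity)
          (by positivity)
    _ = _ := by
        rw [← Real.exp_add, ← Real.exp_add]; congr 1; ring

/-- size of the derivatives (all conjugates), uniform in `N` -/
theorem sz_size {K : Type} [Field K] [NumberField K] (a : 𝓞 K) (v : Fin 4 → K) :
    ∃ C : ℝ, 0 ≤ C ∧ ∀ (N t : ℕ) (H : ℝ) (p : ℕ → ℕ → ℕ → ℤ), 0 ≤ H →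
      (∀ i j k, |(p i j k : ℝ)| ≤ H) → ∀ σ : K →+* ℂ,
      ‖σ (MvPolynomial.eval v ((⇑(D4 (a : K)))^[t] (PP K 1 N p)))‖ ≤
        H * Real.exp (t * Real.log (N + t + 1) + C * (N + t + 1)) := by
  obtain ⟨A0, hA0⟩ := (Set.finite_range (fun σ : K →+* ℂ => ‖σ (a : K)‖)).bddAbove
  obtain ⟨M0, hM0⟩ := (Set.finite_range
    (fun s : (K →+* ℂ) × Fin 4 => ‖s.1 (v s.2)‖)).bddAbove
  obtain ⟨C, hC, hCb⟩ := sz_aux (max A0 0) (max M0 1) (le_max_right _ _) (le_max_right _ _)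
  refine ⟨C, hC, fun N t H p hH hp σ => ?_⟩
  have hA : ‖σ (a : K)‖ ≤ max A0 0 := (hA0 ⟨σ, rfl⟩).trans (le_max_left _ _)
  have hM : ∀ i, ‖(σ ∘ v) i‖ ≤ max M0 1 := fun i =>
    (hM0 ⟨(σ, i), rfl⟩).trans (le_max_left _ _)
  have e1 : σ (MvPolynomial.eval v ((⇑(D4 (a : K)))^[t] (PP K 1 N p))) =
      MvPolynomial.eval (σ ∘ v) ((⇑(D4 (σ (a : K))))^[t] (PP ℂ 1 N p)) := by
    rw [← map_PP σ, ← map_D4_iterate, MvPolynomial.eval_map, MvPolynomial.eval₂_comp]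
  rw [e1]
  have h1 := norm_eval_le ((⇑(D4 (σ (a : K))))^[t] (PP ℂ 1 N p)) (σ ∘ v) (max M0 1)
    (le_max_right _ _) hM
  have hdeg : (PP ℂ 1 N p).totalDegree ≤ 1 + 2 * N := totalDegree_PP_le 1 N p
  have h2 := nm_D4_iterate_le (σ (a : K)) (PP ℂ 1 N p) t
  have h3 : nm ((⇑(D4 (σ (a : K))))^[t] (PP ℂ 1 N p)) ≤
      ((3 + max A0 0) * ((1 + 2 * N : ℕ) + t : ℝ)) ^ t * (H * (1 * (N : ℝ) ^ 2)) := by
    have h4 := nm_PP_le 1 N p H hH hp
    rw [Nat.cast_one] at h4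
    refine h2.trans (mul_le_mul ?_ h4 (nm_nonneg _) (by positivity))
    refine pow_le_pow_left₀ (by positivity) ?_ _
    refine mul_le_mul (by linarith) ?_ (by positivity) (by positivity)
    have : ((PP ℂ 1 N p).totalDegree : ℝ) ≤ (1 + 2 * N : ℕ) := by exact_mod_cast hdeg
    linarith
  have h4 : (max M0 1) ^ ((⇑(D4 (σ (a : K))))^[t] (PP ℂ 1 N p)).totalDegree ≤
      (max M0 1) ^ (1 + 2 * N + t) := by
    refine pow_le_pow_right₀ (le_max_right _ _) ?_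
    have := totalDegree_D4_iterate_le (σ (a : K)) (PP ℂ 1 N p) t
    omega
  refine h1.trans ?_
  calc nm ((⇑(D4 (σ (a : K))))^[t] (PP ℂ 1 N p)) *
        (max M0 1) ^ ((⇑(D4 (σ (a : K))))^[t] (PP ℂ 1 N p)).totalDegree
      ≤ (((3 + max A0 0) * ((1 + 2 * N : ℕ) + t : ℝ)) ^ t * (H * (1 * (N : ℝ) ^ 2))) *
        (max M0 1) ^ (1 + 2 * N + t) := by
        refine mul_le_mul h3 h4 (by positivity) (by positivity)
    _ = H * (((3 + max A0 0) * ((1 + 2 * N : ℕ) + t : ℝ)) ^ t * (1 * (N : ℝ) ^ 2) *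
        (max M0 1) ^ (1 + 2 * N + t)) := by ring
    _ ≤ _ := mul_le_mul_of_nonneg_left (hCb N t) hH

end Pool.Agent.ZFR
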